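import Pool.Agent.Lib.MP_bc213e_ag.Psef.Gen

/-! The data of the theorem. -/

namespace Pool.Agent.Lib.MP_bc213e_ag.Psef

open WithZero Module Hyp

/-- A pseudo-effective Weil divisor `M` whose sections pull back. -/
structure Ps (K ι : Type) [Field K] [Algebra ℂ K] [Fintype ι] (n : ℕ) where
  S : Su K ι n
  M : Val K → ℤ
  h : K
  hne : h ≠ 0
  finM : {w | w ∈ S.W ∧ M w ≠ 0}.Finite
  pull : ∃ (a₁ : ℕ) (z : K), z ≠ 0 ∧ ∀ (t a : ℕ) (s : K),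
    (s ∈ S.Γ fun w => t * M w + a * S.H w) →
      S.φ s * h ^ t * z ^ a ∈ S.Γ fun w => t * M w + (a * a₁ : ℕ) * S.H w
  psef : ∀ τ : ℕ, ∃ (N : ℕ) (s : K), 0 < N ∧ s ≠ 0 ∧
    s ∈ S.Γ fun w => (N * τ : ℕ) * M w + N * S.H w
  qf : ∀ i, QFactorial (chart S.x i)

namespace Ps

variable {K ι : Type} [Field K] [Algebra ℂ K] [Fintype ι] {n : ℕ} (P : Ps K ι n)

/-- The cocycle of the iterates. -/
noncomputable def hh : ℕ → K
  | 0 => 1
  | k + 1 => hh k * (P.S.φ ^ k) P.h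

/-- Sections of `t M + a H`. -/
noncomputable def L (t a : ℕ) : Submodule ℂ K := P.S.Γ fun w => t * P.M w + a * P.S.H w

/-- Pull-back of a section of `t M + a H` by the `l`-th iterate. -/
noncomputable def pb (l t : ℕ) (s : K) : K := (P.S.φ ^ l) s * P.hh l ^ t

theorem hh_ne (k : ℕ) : P.hh k ≠ 0 := by
  induction k with
  | zero => exact one_ne_zero
  | succ k ih => exact mul_ne_zero ih ((map_ne_zero _).2 P.hne)

theorem hh_add (k l : ℕ) : P.hh (k + l) = P.hh k * (P.S.φ ^ k) (P.hh l) := by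
  induction l with
  | zero => simp [hh]
  | succ l ih =>
    rw [← add_assoc, hh, hh, ih, map_mul, pow_add, AlgHom.mul_apply, mul_assoc]

theorem pb_ne (l t : ℕ) {s : K} (hs : s ≠ 0) : P.pb l t s ≠ 0 := by
  exact mul_ne_zero ((map_ne_zero _).2 hs) (pow_ne_zero _ (P.hh_ne l))

theorem pb_add (k l t : ℕ) (s : K) : P.pb (k + l) t s = P.pb k t (P.pb l t s) := by
  rw [pb, pb, pb, P.hh_add, pow_add, AlgHom.mul_apply, map_mul, map_pow, mul_pow]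
  ring

theorem pb_one (t : ℕ) (s : K) : P.pb 1 t s = P.S.φ s * P.h ^ t := by
  simp [pb, hh]

theorem pb_mul (l t : ℕ) (s r : K) : P.pb l t (s * r) = P.pb l t s * (P.S.φ ^ l) r := by
  rw [pb, pb, map_mul]
  ring

theorem pb_pow (l t j : ℕ) (s : K) : P.pb l (t * j) (s ^ j) = P.pb l t s ^ j := by
  rw [pb, pb, map_pow, mul_pow, pow_mul]

theorem L_mono (t : ℕ) {a b : ℕ} (h : a ≤ b) : P.L t a ≤ P.L t b := by
  refine Gam_mono fun w _ _ => ?_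
  have h1 := P.S.H_nonneg w
  have h2 : (a : ℤ) ≤ b := by exact_mod_cast h
  nlinarith

theorem pow_mem_L {t a : ℕ} {s : K} (h : s ∈ P.L t a) (j : ℕ) : s ^ j ∈ P.L (t * j) (a * j) := by
  refine Gam_mono (fun w _ _ => le_of_eq ?_) (pow_mem_Gam h j)
  push_cast
  ring

theorem pull_iter (l : ℕ) : ∃ (a : ℕ) (z : K), z ≠ 0 ∧ ∀ (t b : ℕ) (s : K), s ∈ P.L t b →
    P.pb l t s * z ^ b ∈ P.L t (b * a) := by
  induction l with
  | zero => exact ⟨1, 1, one_ne_zero, fun t b s hs => by simpa [pb, hh] using hs⟩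
  | succ l ih =>
    obtain ⟨a, z, hz, h⟩ := ih
    obtain ⟨a₁, z₁, hz₁, h₁⟩ := P.pull
    refine ⟨a * a₁, P.S.φ z * z₁ ^ a, mul_ne_zero ((map_ne_zero _).2 hz) (pow_ne_zero _ hz₁),
      fun t b s hs => ?_⟩
    have e : P.pb (l + 1) t s * (P.S.φ z * z₁ ^ a) ^ b =
        P.S.φ (P.pb l t s * z ^ b) * P.h ^ t * z₁ ^ (b * a) := by
      rw [add_comm, P.pb_add, P.pb_one, map_mul, map_pow]
      ring
    rw [e, ← mul_assoc b]
    exact h₁ t (b * a) _ (h t b s hs)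

theorem exists_σ : ∃ (c : ℕ) (σ : K), σ ≠ 0 ∧ (σ ∈ P.S.Γ fun w => - P.M w + c * P.S.H w) ∧
    ∀ (t a : ℕ) (s : K), s ∈ P.L t a → σ ^ t * s ∈ P.S.Γ fun w => (c * t + a : ℕ) * P.S.H w := by
  obtain ⟨c, σ, h0, h⟩ := exists_kappa P.S (D := fun w => - P.M w) (by simpa using P.finM)
  refine ⟨c, σ, h0, h, fun t a s hs => ?_⟩
  refine Gam_mono (fun w _ _ => le_of_eq ?_) (mul_mem_Gam (pow_mem_Gam h t) hs)
  push_cast
  ring

/-- `p` is the limit of the pull-backs of the positive part of `M`. -/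
structure IsPos (p : Val K → ℝ) : Prop where
  le : ∀ w ∈ P.S.W, p w ≤ P.M w
  inv : ∀ v, Good P.S v → p v = p (v.comap P.S.φ.toRingHom) + lg v P.h
  low : ∀ (l τ : ℕ) (Z : Finset (Val K)) (ε : ℝ), 0 < τ → (∀ v ∈ Z, Good P.S v) → 0 < ε →
    ∃ (N : ℕ) (s : K), 0 < N ∧ s ≠ 0 ∧ s ∈ P.L (N * τ) N ∧
      ∀ v ∈ Z, (N * τ : ℕ) * (p v - ε) ≤ lg v (P.pb l (N * τ) s)
  up : ∀ (Z : Finset (Val K)) (ε : ℝ), (∀ v ∈ Z, Good P.S v) → 0 < ε → ∃ l τ₀ : ℕ,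
    ∀ τ : ℕ, τ₀ < τ → ∀ (N : ℕ) (s : K), 0 < N → s ≠ 0 → s ∈ P.L (N * τ) N →
      ∀ v ∈ Z, lg v (P.pb l (N * τ) s) ≤ (N * τ : ℕ) * (p v + ε)

end Ps

end Pool.Agent.Lib.MP_bc213e_ag.Psef
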