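import Pool.Agent.Lib.MP_bc213e_ag.Psef.Est

/-! Approximation of the invariant positive part by sections. -/

namespace Pool.Agent.Lib.MP_bc213e_ag.Psef.Ps

open WithZero Module Hyp

variable {K ι : Type} [Field K] [Algebra ℂ K] [Fintype ι] {n : ℕ} {P : Ps K ι n} {p : Val K → ℝ}

theorem ApprA_le {S : Su K ι n} {D : Val K → ℤ} {z : K} (hz : z ≠ 0) (h : z ∈ S.Γ D) {w : Val K}
    (hw : w ∈ S.W) : lg w z ≤ D w := (lg_le_iff w hz _).2 (h w hw (S.triv hw))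

/-- Sketch: `l, τ₀` from `up` with `ε / 2`, `a, z` from `pull_iter l`, `τ > τ₀` with `a ≤ ε τ` and
`|log (v z)| ≤ ε τ / 2` on `Z`, `N, s` from `low`; `u = pb l (N τ) s * z ^ N`. -/
theorem IsPos.both (hp : P.IsPos p) (Z : Finset (Val K)) (hZ : ∀ v ∈ Z, Good P.S v) {ε : ℝ}
    (hε : 0 < ε) : ∃ (q b : ℕ) (u : K), 0 < q ∧ (b : ℝ) ≤ ε * q ∧ u ≠ 0 ∧ u ∈ P.L q b ∧
      ∀ v ∈ Z, |lg v u - q * p v| ≤ ε * q := by
  obtain ⟨l, τ₀, hup⟩ := hp.up Z (ε / 2) hZ (half_pos hε)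
  obtain ⟨a, z, hz, hpull⟩ := P.pull_iter l
  have hB : 0 ≤ ∑ v ∈ Z, |lg v z| := Finset.sum_nonneg fun v _ => abs_nonneg _
  obtain ⟨τ, hτ⟩ := exists_nat_gt (τ₀ + a / ε + 2 * (∑ v ∈ Z, |lg v z|) / ε)
  have h1 : (0 : ℝ) ≤ a / ε := by positivity
  have h2 : 0 ≤ 2 * (∑ v ∈ Z, |lg v z|) / ε := by positivity
  have h3 : (0 : ℝ) ≤ τ₀ := Nat.cast_nonneg _
  have hτ₀ : τ₀ < τ := Nat.cast_lt (α := ℝ).1 (by linarith)
  have ha : (a : ℝ) ≤ ε * τ := (div_le_iff₀' hε).1 (by linarith)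
  have hb : 2 * (∑ v ∈ Z, |lg v z|) ≤ ε * τ := (div_le_iff₀' hε).1 (by linarith)
  obtain ⟨N, s, hN, hs0, hs, hlow⟩ :=
    hp.low l τ Z (ε / 2) ((Nat.zero_le _).trans_lt hτ₀) hZ (half_pos hε)
  have hN0 : (0 : ℝ) ≤ N := Nat.cast_nonneg _
  refine ⟨N * τ, N * a, _, Nat.mul_pos hN ((Nat.zero_le _).trans_lt hτ₀), ?_,
    mul_ne_zero (P.pb_ne l _ hs0) (pow_ne_zero N hz), hpull _ _ s hs, fun v hv => ?_⟩
  · push_cast
    nlinarith [mul_le_mul_of_nonneg_left ha hN0]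
  · have h4 := hup τ hτ₀ N s hN hs0 hs v hv
    have h5 := hlow v hv
    have h6 : |lg v z| ≤ ∑ v ∈ Z, |lg v z| :=
      Finset.single_le_sum (f := fun v => |lg v z|) (fun v _ => abs_nonneg _) hv
    have h7 := abs_le.1 (show |lg v z| ≤ ε * τ / 2 by linarith)
    rw [lg_mul v (P.pb_ne l _ hs0) (pow_ne_zero N hz), lg_pow, abs_le]
    push_cast at h4 h5 ⊢
    constructor
    · nlinarith [mul_le_mul_of_nonneg_left h7.1 hN0]
    · nlinarith [mul_le_mul_of_nonneg_left h7.2 hN0]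

/-- Sketch: `δ, cls` from `Su.bz`, `c, σ` from `exists_σ`. For a finite subset `Z` on which `cls` is
injective take `u` from `both` with `ε = min 1 (η / 2)`; `bz` for `σ ^ q * u` gives
`card Z * q * η / 2 ≤ δ (c + 1) q`. So the image under `cls` is finite, and so are the fibres. -/
theorem IsPos.level (hp : P.IsPos p) {η : ℝ} (hη : 0 < η) :
    {w | w ∈ P.S.W ∧ η ≤ P.M w - p w}.Finite := by
  obtain ⟨δ, cls, hfin, hbz⟩ := P.S.bz
  obtain ⟨c, σ, hσ0, hσ, hσ'⟩ := P.exists_σ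
  obtain ⟨T, hT, hbij⟩ := Set.exists_subset_bijOn {w | w ∈ P.S.W ∧ η ≤ P.M w - p w} cls
  have key : ∀ Z : Finset (Val K), (Z : Set (Val K)) ⊆ T → Z.card * (η / 2) ≤ δ * (c + 1) := by
    intro Z hZ
    have hW : ∀ w ∈ Z, w ∈ P.S.W := fun w hw => (hT (hZ hw)).1
    obtain ⟨q, b, u, hq, hb, hu0, hu, hv⟩ := hp.both Z (fun w hw => good_of_mem P.S (hW w hw))
      (lt_min one_pos (half_pos hη))
    have hq0 : (0 : ℝ) < q := Nat.cast_pos.2 hq
    have h1 := hbz _ _ (mul_ne_zero (pow_ne_zero q hσ0) hu0) (hσ' q b u hu) Z hW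
      (hbij.injOn.mono hZ)
    have h2 : ∑ w ∈ Z, (((c * q + b : ℕ) : ℝ) * P.S.H w - lg w (σ ^ q * u)) ≤
        δ * ((c * q + b : ℕ) : ℝ) := by
      simp only [lg]
      exact_mod_cast h1
    have h3 := Finset.card_nsmul_le_sum Z
      (fun w => ((c * q + b : ℕ) : ℝ) * P.S.H w - lg w (σ ^ q * u)) (η / 2 * q) fun w hw => by
        have h4 := ApprA_le hσ0 hσ (hW w hw)
        have h5 := (abs_le.1 (hv w hw)).2
        have h6 := (hT (hZ hw)).2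
        have h7 : (0 : ℝ) ≤ P.S.H w := Int.cast_nonneg (P.S.H_nonneg w)
        have h8 := mul_le_mul_of_nonneg_right (min_le_right 1 (η / 2)) hq0.le
        rw [lg_mul w (pow_ne_zero q hσ0) hu0, lg_pow]
        push_cast at h4 ⊢
        nlinarith [mul_le_mul_of_nonneg_left h4 hq0.le, mul_le_mul_of_nonneg_left h6 hq0.le,
          mul_nonneg (Nat.cast_nonneg (α := ℝ) b) h7]
    have h9 : (b : ℝ) ≤ q := hb.trans (mul_le_of_le_one_left hq0.le (min_le_left _ _))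
    rw [nsmul_eq_mul] at h3
    refine le_of_mul_le_mul_right ?_ hq0
    have h10 := mul_le_mul_of_nonneg_left h9 (Nat.cast_nonneg (α := ℝ) δ)
    push_cast at h2 h3
    nlinarith
  have hTf : T.Finite := by
    by_contra hinf
    obtain ⟨m, hm⟩ := exists_nat_gt (δ * (c + 1) / (η / 2))
    obtain ⟨Z, hZ, rfl⟩ := Set.Infinite.exists_subset_card_eq hinf m
    exact ((div_lt_iff₀ (half_pos hη)).1 hm).not_ge (key Z hZ)
  refine ((hTf.image cls).biUnion fun q _ => hfin q).subset fun w hw => ?_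
  exact Set.mem_biUnion (hbij.surjOn ⟨w, hw, rfl⟩) ⟨hw.1, rfl⟩

/-- `- p` is pseudo-effective. Sketch: `c ≥ 2 / ε`, `k, t` from `neg_pencil c`, `N₀, s₀` from
`psef t`, `F` the finite set of `w ∈ W` where `M` or `pb k (N₀ t) s₀` is nontrivial, `c', κ` from
`exists_kappa` for minus the indicator of `F`, `j = c' (c + 1) + 1`, `N₁, s₁` from `low k t F (1 / j)`.
With `N = N₀ N₁ j` and the powers of `s₀`, `s₁`, `pen ≥ N t p - (N t / j) 1_F` on `W`; take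
`u = r κ ^ ((c ρ + 1) N₀ N₁ t)`, `q = (c ρ + 1) N t`. -/
theorem IsPos.neg (hp : P.IsPos p) {ε : ℝ} (hε : 0 < ε) :
    ∃ (q b : ℕ) (u : K), 0 < q ∧ (b : ℝ) ≤ ε * q ∧ u ≠ 0 ∧
      ∀ w ∈ P.S.W, lg w u ≤ - (q * p w) + b * P.S.H w := by
  classical
  obtain ⟨c, hc⟩ := exists_nat_ge (2 / ε)
  rw [div_le_iff₀' hε] at hc
  obtain ⟨k, t, ht, hpen⟩ := P.neg_pencil c
  obtain ⟨N₀, s₀, hN₀, hs₀, ms₀⟩ := P.psef t
  have hF := P.finM.union (P.S.supp_finite (P.pb_ne k (N₀ * t) hs₀))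
  set F := hF.toFinset with hFd
  have hFW : ∀ w ∈ F, w ∈ P.S.W := fun w hw => (hF.mem_toFinset.1 hw).elim And.left And.left
  obtain ⟨c', κ, hκ, mκ⟩ := exists_kappa P.S (D := fun w => if w ∈ F then -1 else 0)
    (F.finite_toSet.subset fun w hw => by
      by_contra h
      exact hw.2 (if_neg h))
  obtain ⟨j, hj⟩ : ∃ j : ℕ, j = c' * c + 1 := ⟨_, rfl⟩
  have hj0 : 0 < j := hj ▸ Nat.succ_pos _
  have hj1 : (0 : ℝ) < j := Nat.cast_pos.2 hj0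
  obtain ⟨N₁, s₁, hN₁, hs₁, ms₁, hlow⟩ := hp.low k t F (1 / j) ht
    (fun w hw => good_of_mem P.S (hFW w hw)) (by positivity)
  have e₀ : N₀ * N₁ * j * t = N₀ * t * (N₁ * j) := by ring
  have e₁ : N₀ * N₁ * j * t = N₁ * t * (N₀ * j) := by ring
  obtain ⟨ρ, r, hρ, hr, mr⟩ := hpen (N₀ * N₁ * j) (s₀ ^ (N₁ * j)) (s₁ ^ (N₀ * j)) (by positivity)
    (pow_ne_zero _ hs₀) (pow_ne_zero _ hs₁)
    (by rw [e₀, mul_assoc N₀ N₁]; exact P.pow_mem_L ms₀ _)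
    (by rw [e₁, show N₀ * N₁ * j = N₁ * (N₀ * j) by ring]; exact P.pow_mem_L ms₁ _)
  have f₀ : P.pb k (N₀ * N₁ * j * t) (s₀ ^ (N₁ * j)) = P.pb k (N₀ * t) s₀ ^ (N₁ * j) := by
    rw [e₀, pb_pow]
  have f₁ : P.pb k (N₀ * N₁ * j * t) (s₁ ^ (N₀ * j)) = P.pb k (N₁ * t) s₁ ^ (N₀ * j) := by
    rw [e₁, pb_pow]
  rw [f₀, f₁] at mr
  refine ⟨(c * ρ + 1) * (N₀ * N₁ * j * t), N₀ * N₁ * j * t * ρ + (c * ρ + 1) * (N₀ * N₁ * t) * c',
    r * κ ^ ((c * ρ + 1) * (N₀ * N₁ * t)), by positivity, ?_, mul_ne_zero hr (pow_ne_zero _ hκ),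
    fun w hw => ?_⟩
  · have h1 : (j : ℝ) = c' * c + 1 := by exact_mod_cast hj
    have h2 : (c' : ℝ) ≤ ε / 2 * j := by
      nlinarith [mul_le_mul_of_nonneg_left hc (Nat.cast_nonneg (α := ℝ) c')]
    have h3 : (ρ : ℝ) ≤ ε / 2 * (c * ρ + 1) := by
      nlinarith [mul_le_mul_of_nonneg_left hc (Nat.cast_nonneg (α := ℝ) ρ)]
    have h4 := mul_le_mul_of_nonneg_left h2
      (show (0 : ℝ) ≤ (c * ρ + 1) * (N₀ * N₁ * t) by positivity)
    have h5 := mul_le_mul_of_nonneg_left h3 (show (0 : ℝ) ≤ N₀ * N₁ * j * t by positivity)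
    push_cast
    linarith
  · have h1 := ApprA_le hr mr hw
    have h2 := ApprA_le hκ mκ hw
    have h3 : (N₀ * N₁ * j * t : ℝ) * p w + N₀ * N₁ * t * ((if w ∈ F then -1 else 0 : ℤ) : ℝ) ≤
        pen (P.pb k (N₀ * t) s₀ ^ (N₁ * j)) (P.pb k (N₁ * t) s₁ ^ (N₀ * j)) w := by
      rw [pen, Int.cast_max]
      split_ifs with h
      · refine le_max_of_le_right ?_
        change _ ≤ lg w _
        have h4 := mul_le_mul_of_nonneg_left (hlow w h) (show (0 : ℝ) ≤ N₀ * j by positivity)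
        have h5 : (j : ℝ) * (1 / j) = 1 := mul_one_div_cancel hj1.ne'
        rw [lg_pow]
        push_cast at h4 ⊢
        linear_combination h4 + N₀ * N₁ * t * h5
      · refine le_max_of_le_left ?_
        rw [hFd, hF.mem_toFinset] at h
        have h4 : P.M w = 0 := by_contra fun h4 => h (Or.inl ⟨hw, h4⟩)
        have h5 : w (P.pb k (N₀ * t) s₀) = 1 := by_contra fun h5 => h (Or.inr ⟨hw, h5⟩)
        have h6 := hp.le w hw
        rw [h4, Int.cast_zero] at h6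
        rw [map_pow, h5, one_pow, log_one, Int.cast_zero, mul_zero, add_zero]
        exact mul_nonpos_of_nonneg_of_nonpos (by positivity) h6
    have h7 := mul_le_mul_of_nonneg_left h3 (show (0 : ℝ) ≤ c * ρ + 1 by positivity)
    have h8 := mul_le_mul_of_nonneg_left h2
      (show (0 : ℝ) ≤ (c * ρ + 1) * (N₀ * N₁ * t) by positivity)
    rw [lg_mul w hr (pow_ne_zero _ hκ), lg_pow]
    generalize (if w ∈ F then -1 else 0 : ℤ) = d at h7 h8
    push_cast at h1 h8 ⊢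
    linarith

theorem ApprB_mem {S : Su K ι n} {D : Val K → ℤ} {u : K} (hu : u ≠ 0) :
    u ∈ S.Γ D ↔ ∀ w ∈ S.W, lg w u ≤ D w :=
  ⟨fun h w hw => (lg_le_iff w hu _).2 (h w hw (S.triv hw)),
    fun h w hw _ => (lg_le_iff w hu _).1 (h w hw)⟩

theorem ApprB_kappa (fin : {w | w ∈ P.S.W ∧ p w ≠ P.M w}.Finite) :
    ∃ (c : ℕ) (κ : K), κ ≠ 0 ∧ ∀ w ∈ P.S.W, (p w = P.M w → lg w κ ≤ c * P.S.H w) ∧
      (p w ≠ P.M w → lg w κ ≤ -1 + c * P.S.H w) := by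
  classical
  obtain ⟨c, κ, h0, h⟩ := exists_kappa P.S (D := fun w => if p w = P.M w then 0 else -1)
    (fin.subset fun w hw => ⟨hw.1, fun e => hw.2 (if_pos e)⟩)
  refine ⟨c, κ, h0, fun w hw => ?_⟩
  have := (ApprB_mem h0).1 h w hw
  refine ⟨fun e => ?_, fun e => ?_⟩
  · simpa [e] using this
  · simpa [e] using this

/-- `p` is pseudo-effective. Sketch: `F` the finite set, `c', κ` from `exists_kappa` for minus the
indicator of `F`, `both` for `Z ∪ F` and `ε' = 1 / j`; take `u ^ j * κ ^ q`. -/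
theorem IsPos.pos (hp : P.IsPos p) (fin : {w | w ∈ P.S.W ∧ p w ≠ P.M w}.Finite)
    (Z : Finset (Val K)) (hZ : ∀ v ∈ Z, Good P.S v) {ε : ℝ} (hε : 0 < ε) :
    ∃ (q b : ℕ) (u : K), 0 < q ∧ (b : ℝ) ≤ ε * q ∧ u ≠ 0 ∧
      (∀ w ∈ P.S.W, lg w u ≤ q * p w + b * P.S.H w) ∧
      ∀ v ∈ Z, |lg v u - q * p v| ≤ ε * q := by
  classical
  obtain ⟨c, κ, hκ, hk⟩ := ApprB_kappa fin
  set B : ℝ := ∑ v ∈ Z, |lg v κ| with hB
  have hB0 : 0 ≤ B := Finset.sum_nonneg fun v _ => abs_nonneg _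
  obtain ⟨j, hj⟩ := exists_nat_ge ((1 + c + B) / ε)
  rw [div_le_iff₀ hε] at hj
  have hc0 : (0 : ℝ) ≤ c := Nat.cast_nonneg c
  have hj0 : (0 : ℝ) < j := by
    by_contra h
    have : (j : ℝ) * ε ≤ 0 := mul_nonpos_of_nonpos_of_nonneg (not_lt.1 h) hε.le
    linarith
  obtain ⟨q, b, u, hq, hb, hu, hL, hv⟩ := hp.both (Z ∪ fin.toFinset) (fun v hv => by
    rcases Finset.mem_union.1 hv with h | h
    · exact hZ v h
    · exact good_of_mem P.S (fin.mem_toFinset.1 h).1) (ε := (j : ℝ)⁻¹) (inv_pos.2 hj0)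
  have hq0 : (0 : ℝ) < q := by exact_mod_cast hq
  have hjb : (j : ℝ) * b ≤ q := by rwa [le_inv_mul_iff₀ hj0] at hb
  have hv' : ∀ v ∈ Z ∪ fin.toFinset, (j : ℝ) * |lg v u - q * p v| ≤ q := fun v h => by
    have := hv v h
    rwa [le_inv_mul_iff₀ hj0] at this
  have e : ∀ v, lg v (u ^ j * κ ^ q) = j * lg v u + q * lg v κ := fun v => by
    rw [lg_mul v (pow_ne_zero _ hu) (pow_ne_zero _ hκ), lg_pow, lg_pow]
  refine ⟨j * q, j * b + q * c, u ^ j * κ ^ q, Nat.mul_pos (by exact_mod_cast hj0) hq, ?_,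
    mul_ne_zero (pow_ne_zero _ hu) (pow_ne_zero _ hκ), fun w hw => ?_, fun v h => ?_⟩
  · push_cast
    nlinarith [mul_le_mul_of_nonneg_left hj hq0.le, mul_nonneg hq0.le hB0]
  · have hH : (0 : ℝ) ≤ P.S.H w := by exact_mod_cast P.S.H_nonneg w
    rw [e]
    push_cast
    by_cases h : p w = P.M w
    · have a1 := mul_le_mul_of_nonneg_left ((hk w hw).1 h) hq0.le
      have a2 := (ApprB_mem hu).1 hL w hw
      push_cast at a2
      have a3 := mul_le_mul_of_nonneg_left a2 hj0.le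
      rw [h]
      linarith
    · have a1 := mul_le_mul_of_nonneg_left ((hk w hw).2 h) hq0.le
      have a2 := hv' w (Finset.mem_union_right _ (fin.mem_toFinset.2 ⟨hw, h⟩))
      have a3 := mul_le_mul_of_nonneg_left (le_abs_self (lg w u - q * p w)) hj0.le
      have a4 : 0 ≤ (j : ℝ) * b * P.S.H w := by positivity
      linarith
  · have a1 := hv' v (Finset.mem_union_left _ h)
    have a2 : |lg v κ| ≤ B :=
      Finset.single_le_sum (f := fun v => |lg v κ|) (fun v _ => abs_nonneg _) h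
    rw [e]
    push_cast
    rw [show (j : ℝ) * lg v u + q * lg v κ - j * q * p v = j * (lg v u - q * p v) + q * lg v κ by
      ring]
    refine (abs_add_le _ _).trans ?_
    rw [abs_mul, abs_mul, abs_of_pos hj0, abs_of_pos hq0]
    nlinarith [mul_le_mul_of_nonneg_left hj hq0.le, mul_nonneg hq0.le hc0,
      mul_le_mul_of_nonneg_left a2 hq0.le]

/-- Sketch: `u'` from `neg`, `u` from `pos {v}`; `u' ^ q * u ^ q' ∈ Γ ((q b' + q' b) H)` and `Good`. -/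
theorem IsPos.neg' (hp : P.IsPos p) (fin : {w | w ∈ P.S.W ∧ p w ≠ P.M w}.Finite) {v : Val K}
    (hv : Good P.S v) {ε : ℝ} (hε : 0 < ε) :
    ∃ (q b : ℕ) (u : K), 0 < q ∧ (b : ℝ) ≤ ε * q ∧ u ≠ 0 ∧
      (∀ w ∈ P.S.W, lg w u ≤ - (q * p w) + b * P.S.H w) ∧
      - (q * p v) - ε * q ≤ lg v u := by
  obtain ⟨C, hC⟩ := hv.2
  have hC0 : (0 : ℝ) ≤ C := Nat.cast_nonneg C
  set δ : ℝ := ε / (1 + 2 * C) with hδ
  have hδ0 : 0 < δ := by positivity
  have hδ1 : δ * (1 + 2 * C) = ε := div_mul_cancel₀ _ (by positivity)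
  obtain ⟨q', b', u', hq', hb', hu', h'⟩ := hp.neg hδ0
  obtain ⟨q, b, u, hq, hb, hu, h, h1⟩ := hp.pos fin {v} (fun w hw => by
    rwa [Finset.mem_singleton.1 hw]) hδ0
  have hq0 : (0 : ℝ) < q := by exact_mod_cast hq
  have hq0' : (0 : ℝ) < q' := by exact_mod_cast hq'
  have hr : u' ^ q * u ^ q' ≠ 0 := mul_ne_zero (pow_ne_zero _ hu') (pow_ne_zero _ hu)
  have e : ∀ w, lg w (u' ^ q * u ^ q') = q * lg w u' + q' * lg w u := fun w => by
    rw [lg_mul w (pow_ne_zero _ hu') (pow_ne_zero _ hu), lg_pow, lg_pow]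
  have h2 := hC (q * b' + q' * b) _ hr ((ApprB_mem hr).2 fun w hw => by
    have a1 := mul_le_mul_of_nonneg_left (h' w hw) hq0.le
    have a2 := mul_le_mul_of_nonneg_left (h w hw) hq0'.le
    rw [e]
    push_cast
    linarith)
  refine ⟨q', b', u', hq', hb'.trans (mul_le_mul_of_nonneg_right ?_ hq0'.le), hu', h', ?_⟩
  · nlinarith [mul_nonneg hδ0.le hC0]
  · have a1 := mul_le_mul_of_nonneg_left (abs_le.1 (h1 v (Finset.mem_singleton_self v))).2 hq0'.le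
    have a2 := mul_le_mul_of_nonneg_left (mul_le_mul_of_nonneg_left hb' hq0.le) hC0
    have a3 := mul_le_mul_of_nonneg_left (mul_le_mul_of_nonneg_left hb hq0'.le) hC0
    rw [e] at h2
    push_cast at h2
    refine le_of_mul_le_mul_left ?_ hq0
    rw [← hδ1]
    linarith

theorem ApprC_ext {τ : ℤ} {e : ℝ} {t a : ℕ} (ht : (τ : ℝ) = e * t) {s : K} (h0 : s ≠ 0)
    (hs : s ∈ P.S.Γ fun w => ⌊τ * p w⌋ + a * P.S.H w) {v : Val K} (hv : Triv v)
    (h : ∀ ε : ℝ, 0 < ε → ∃ (q b : ℕ) (u : K), 0 < q ∧ (b : ℝ) ≤ ε * q ∧ u ≠ 0 ∧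
      (∀ w ∈ P.S.W, lg w u ≤ - (e * (q * p w)) + b * P.S.H w) ∧
      - (e * (q * p v)) - ε * q ≤ lg v u) : lg v s ≤ τ * p v + a * P.S.H v := by
  have hH : (0 : ℝ) ≤ P.S.H v := by exact_mod_cast P.S.H_nonneg v
  have ht0 : (0 : ℝ) ≤ t := Nat.cast_nonneg t
  refine le_of_forall_pos_le_add fun η hη => ?_
  have hc : (0 : ℝ) < t * (P.S.H v + 1) + 1 := by positivity
  obtain ⟨q, b, u, hq, hb, hu, h1, h2⟩ := h _ (div_pos hη hc)
  set ε := η / (t * (P.S.H v + 1) + 1) with hε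
  have hε0 : 0 < ε := div_pos hη hc
  have hη' : η = ε * (t * (P.S.H v + 1) + 1) := (div_mul_cancel₀ η hc.ne').symm
  have hq' : (0 : ℝ) < q := by exact_mod_cast hq
  have hne : s ^ q * u ^ t ≠ 0 := mul_ne_zero (pow_ne_zero _ h0) (pow_ne_zero _ hu)
  have hlg : ∀ w : Val K, lg w (s ^ q * u ^ t) = q * lg w s + t * lg w u := fun w => by
    rw [lg_mul w (pow_ne_zero _ h0) (pow_ne_zero _ hu), lg_pow, lg_pow]
  have hr : s ^ q * u ^ t ∈ P.S.Γ fun w => (q * a + t * b : ℕ) * P.S.H w := by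
    intro w hw hw'
    rw [← lg_le_iff w hne, hlg]
    have h3 := (lg_le_iff w h0 _).2 (hs w hw hw')
    have h4 := Int.floor_le (τ * p w)
    have h5 := mul_le_mul_of_nonneg_left (h1 w hw) ht0
    push_cast at h3 ⊢
    have h6 := mul_le_mul_of_nonneg_left (h3.trans (add_le_add h4 le_rfl)) hq'.le
    rw [ht] at h6
    linarith
  have h3 := (lg_le_iff v hne _).2 (le_of_Γ P.S hr hv)
  rw [hlg] at h3
  push_cast at h3
  have h4 := mul_le_mul_of_nonneg_left h2 ht0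
  have h5 := mul_le_mul_of_nonneg_left hb (mul_nonneg ht0 hH)
  have h6 := mul_pos hε0 hq'
  refine le_of_mul_le_mul_left ?_ hq'
  rw [hη', ht]
  linarith

/-- Sections of `τ p + a H` satisfy the bound at all good valuations. Sketch: `τ = ± t`; with `u` of
the opposite sign (`pos`, `neg'`), `s ^ q * u ^ t ∈ Γ ((q a + t b) H)`, `le_of_Γ`, `ε → 0`. -/
theorem IsPos.ext (hp : P.IsPos p) (fin : {w | w ∈ P.S.W ∧ p w ≠ P.M w}.Finite) {τ : ℤ} {a : ℕ}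
    {s : K} (h0 : s ≠ 0) (hs : s ∈ P.S.Γ fun w => ⌊τ * p w⌋ + a * P.S.H w) {v : Val K}
    (hv : Good P.S v) : lg v s ≤ τ * p v + a * P.S.H v := by
  obtain ⟨t, rfl | rfl⟩ := τ.eq_nat_or_neg
  · refine ApprC_ext (e := 1) (t := t) (by simp) h0 hs hv.1 fun ε hε => ?_
    simpa only [one_mul] using hp.neg' fin hv hε
  · refine ApprC_ext (e := -1) (t := t) (by simp) h0 hs hv.1 fun ε hε => ?_
    obtain ⟨q, b, u, hq, hb, hu, h1, h2⟩ := hp.pos fin {v} (by simpa using hv) hε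
    refine ⟨q, b, u, hq, hb, hu, fun w hw => ?_, ?_⟩
    · linarith [h1 w hw]
    · linarith [(abs_le.1 (h2 v (Finset.mem_singleton_self v))).1]

/-- Sketch: `a₁, z` from `Su.exists_z 1`, `ext` at `w ∘ φ`, `inv`, `Int.le_floor`. -/
theorem IsPos.pull (hp : P.IsPos p) (fin : {w | w ∈ P.S.W ∧ p w ≠ P.M w}.Finite) :
    ∃ (a₁ : ℕ) (z : K), z ≠ 0 ∧ ∀ (τ : ℤ) (a : ℕ) (s : K),
      (s ∈ P.S.Γ fun w => ⌊τ * p w⌋ + a * P.S.H w) →
        P.S.φ s * P.h ^ τ * z ^ a ∈ P.S.Γ fun w => ⌊τ * p w⌋ + (a * a₁ : ℕ) * P.S.H w := by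
  obtain ⟨a₁, z, hz, h⟩ := P.S.exists_z 1
  refine ⟨a₁, z, hz, fun τ a s hs => ?_⟩
  by_cases h0 : s = 0
  · rw [h0, map_zero, zero_mul, zero_mul]
    exact Submodule.zero_mem _
  intro w hw hw'
  have hg := good_of_mem P.S hw
  have h1 := hp.ext fin h0 hs hg.comap
  have h2 := hp.inv w hg
  have h3 := (lg_le_iff w hz _).2 (h w hw')
  have h4 : P.S.φ s ≠ 0 := (map_ne_zero P.S.φ).2 h0
  have h5 : P.S.φ s * P.h ^ τ ≠ 0 := mul_ne_zero h4 (zpow_ne_zero _ P.hne)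
  have h6 : P.S.φ s * P.h ^ τ * z ^ a ≠ 0 := mul_ne_zero h5 (pow_ne_zero _ hz)
  have h7 := lg_mul w h5 (pow_ne_zero a hz)
  rw [lg_mul w h4 (zpow_ne_zero _ P.hne), lg_zpow, lg_pow] at h7
  rw [lg_comap] at h1
  rw [Su.Hk, pow_one] at h3
  have h8 := mul_le_mul_of_nonneg_left h3 (Nat.cast_nonneg a)
  rw [← log_le_iff_le_exp ((map_ne_zero w).2 h6), ← sub_le_iff_le_add, Int.le_floor]
  rw [lg] at h7
  push_cast at h8 ⊢
  rw [h7, h2]
  linarith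

/-- Sketch: `c', κ` for minus the indicator of the finite set, `τ = ± t`, `u` from `pos ∅` or `neg`
with `ε = 1 / (t + 1)`; take `u ^ t * κ ^ q`, `b₀ = c' + 1`. -/
theorem IsPos.qeff (hp : P.IsPos p) (fin : {w | w ∈ P.S.W ∧ p w ≠ P.M w}.Finite) :
    ∃ b₀ : ℕ, ∀ τ : ℤ, ∃ (N : ℕ) (σ : K), 0 < N ∧ σ ≠ 0 ∧
      σ ∈ P.S.Γ fun w => N * (⌊τ * p w⌋ + b₀ * P.S.H w) := by
  obtain ⟨c, κ, hκ, hk⟩ := ApprB_kappa fin
  refine ⟨c + 1, fun τ => ?_⟩
  have h1 : ∃ (t q b : ℕ) (u : K), 0 < q ∧ (t : ℝ) * b ≤ q ∧ u ≠ 0 ∧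
      ∀ w ∈ P.S.W, t * lg w u ≤ q * (τ * p w) + t * b * P.S.H w := by
    have key : ∀ t q b : ℕ, (b : ℝ) ≤ ((t : ℝ) + 1)⁻¹ * q → (t : ℝ) * b ≤ q := by
      intro t q b h
      rw [le_inv_mul_iff₀ (by positivity)] at h
      have : (0 : ℝ) ≤ b := Nat.cast_nonneg b
      linarith
    obtain ⟨t, rfl | rfl⟩ := Int.eq_nat_or_neg τ
    · obtain ⟨q, b, u, hq, hb, hu, h, -⟩ := hp.pos fin ∅ (fun v hv => absurd hv (Finset.notMem_empty v))
        (ε := ((t : ℝ) + 1)⁻¹) (by positivity)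
      refine ⟨t, q, b, u, hq, key t q b hb, hu, fun w hw => ?_⟩
      have := mul_le_mul_of_nonneg_left (h w hw) (Nat.cast_nonneg (α := ℝ) t)
      push_cast
      linarith
    · obtain ⟨q, b, u, hq, hb, hu, h⟩ := hp.neg (ε := ((t : ℝ) + 1)⁻¹) (by positivity)
      refine ⟨t, q, b, u, hq, key t q b hb, hu, fun w hw => ?_⟩
      have := mul_le_mul_of_nonneg_left (h w hw) (Nat.cast_nonneg (α := ℝ) t)
      push_cast
      linarith
  obtain ⟨t, q, b, u, hq, hb, hu, h⟩ := h1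
  have hq0 : (0 : ℝ) < q := by exact_mod_cast hq
  have hr : u ^ t * κ ^ q ≠ 0 := mul_ne_zero (pow_ne_zero _ hu) (pow_ne_zero _ hκ)
  refine ⟨q, u ^ t * κ ^ q, hq, hr, (ApprB_mem hr).2 fun w hw => ?_⟩
  have hH : (0 : ℝ) ≤ P.S.H w := by exact_mod_cast P.S.H_nonneg w
  have a1 := h w hw
  have a2 := mul_le_mul_of_nonneg_right hb hH
  rw [lg_mul w (pow_ne_zero _ hu) (pow_ne_zero _ hκ), lg_pow, lg_pow]
  by_cases e : p w = P.M w
  · have a3 := mul_le_mul_of_nonneg_left ((hk w hw).1 e) hq0.le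
    rw [e] at a1
    rw [e, ← Int.cast_mul, Int.floor_intCast]
    push_cast
    linarith
  · have a3 := mul_le_mul_of_nonneg_left ((hk w hw).2 e) hq0.le
    have a4 := mul_le_mul_of_nonneg_left (Int.sub_one_lt_floor ((τ : ℝ) * p w)).le hq0.le
    push_cast
    linarith

end Pool.Agent.Lib.MP_bc213e_ag.Psef.Ps
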