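import Pool.Agent.Lib.MP_bc213e_ag.Psef.Fin

/-! The numerical dimension is zero. -/

namespace Pool.Agent.Lib.MP_bc213e_ag.Psef.Ps

open WithZero Module Hyp

variable {K ι : Type} [Field K] [Algebra ℂ K] [Fintype ι] {n : ℕ} {P : Ps K ι n} {p : Val K → ℝ}

/-- Sketch: `s ↦ φ s * h ^ e` is an injective linear map of the finite dimensional space `L e 0`
(`pull` with `a = 0`, `fd_Γ`), hence surjective; induction with `pb_add`, `pb_one`. -/
theorem exists_pb_eq (P : Ps K ι n) {e : ℕ} {s : K} (hs : s ∈ P.L e 0) (l : ℕ) :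
    ∃ s' ∈ P.L e 0, P.pb l e s' = s := by
  obtain ⟨a, z, -, h⟩ := P.pull_iter l
  have : FiniteDimensional ℂ (P.L e 0) := by
    refine fd_Γ P.S (P.finM.subset fun w hw => ⟨hw.1, fun h0 => hw.2 ?_⟩)
    simp [h0]
  let f : K →ₗ[ℂ] K := LinearMap.mulRight ℂ (P.hh l ^ e) ∘ₗ (P.S.φ ^ l).toLinearMap
  have hf : ∀ r, f r = P.pb l e r := fun _ => rfl
  have h1 : ∀ r ∈ P.L e 0, f r ∈ P.L e 0 := fun r hr => by
    have h2 := h e 0 r hr
    rwa [pow_zero, mul_one, zero_mul] at h2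
  have h2 : Function.Injective (f.restrict h1) := by
    rw [injective_iff_map_eq_zero]
    intro r hr
    by_contra h3
    exact P.pb_ne l e (fun h4 => h3 (Subtype.ext h4)) (congrArg Subtype.val hr)
  obtain ⟨r, hr⟩ := LinearMap.surjective_of_injective h2 ⟨s, hs⟩
  exact ⟨r, r.2, congrArg Subtype.val hr⟩

theorem BndA_le (hp : P.IsPos p) {e : ℕ} (he : 0 < e) {s : K} (h0 : s ≠ 0) (hs : s ∈ P.L e 0)
    {w : Val K} (hw : w ∈ P.S.W) : lg w s ≤ e * p w := by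
  have he' : (0 : ℝ) < e := Nat.cast_pos.2 he
  refine le_of_forall_pos_le_add fun ε hε => ?_
  obtain ⟨l, τ₀, h⟩ := hp.up {w} (ε / e) (by simpa using good_of_mem _ hw) (by positivity)
  obtain ⟨r, hr, hrs⟩ := P.exists_pb_eq hs l
  have hr0 : r ≠ 0 := by
    rintro rfl
    exact h0 (by rw [← hrs, pb, map_zero, zero_mul])
  have h1 := h (τ₀ + 1) (Nat.lt_succ_self _) e (r ^ (τ₀ + 1)) he (pow_ne_zero _ hr0)
    (P.L_mono _ (by simp) (P.pow_mem_L hr (τ₀ + 1))) w (Finset.mem_singleton_self w)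
  rw [P.pb_pow, hrs, lg_pow, Nat.cast_mul, mul_comm (e : ℝ), mul_assoc] at h1
  have h2 := le_of_mul_le_mul_left h1 (Nat.cast_pos.2 (Nat.succ_pos τ₀))
  rwa [mul_add, mul_div_cancel₀ _ he'.ne'] at h2

/-- Sketch: `≤` at all `w ∈ W` by `up` for `s' ^ τ ∈ L (e τ) e` (`exists_pb_eq`, `pb_pow`); `≥` by
`neg`: `s ^ q * u ^ e ∈ Γ (e b H)` and `good_of_mem`. -/
theorem IsPos.sec_eq (hp : P.IsPos p) {e : ℕ} (he : 0 < e) {s : K} (h0 : s ≠ 0) (hs : s ∈ P.L e 0)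
    {w : Val K} (hw : w ∈ P.S.W) : lg w s = e * p w := by
  refine le_antisymm (BndA_le hp he h0 hs hw) (le_of_forall_pos_le_add fun ε hε => ?_)
  have he' : (0 : ℝ) < e := Nat.cast_pos.2 he
  obtain ⟨-, C, hC⟩ := good_of_mem _ hw
  have hH : (0 : ℝ) ≤ P.S.H w := by exact_mod_cast P.S.H_nonneg w
  have hA : (0 : ℝ) < e * (C + P.S.H w + 1) := by positivity
  obtain ⟨q, b, u, hq, hb, hu, h⟩ := hp.neg (div_pos hε hA)
  have hq' : (0 : ℝ) < q := Nat.cast_pos.2 hq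
  have h1 : s ^ q * u ^ e ≠ 0 := mul_ne_zero (pow_ne_zero _ h0) (pow_ne_zero _ hu)
  have h2 : ∀ v, lg v (s ^ q * u ^ e) = q * lg v s + e * lg v u := fun v => by
    rw [lg_mul v (pow_ne_zero _ h0) (pow_ne_zero _ hu), lg_pow, lg_pow]
  have h3 := hC (e * b) _ h1 ((ApprB_mem h1).2 fun v hv => by
    have h4 := mul_le_mul_of_nonneg_left (BndA_le hp he h0 hs hv) hq'.le
    have h5 := mul_le_mul_of_nonneg_left (h v hv) he'.le
    rw [h2]
    push_cast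
    linarith)
  have h4 := mul_le_mul_of_nonneg_left (h w hw) he'.le
  rw [h2] at h3
  push_cast at h3
  have h5 := mul_le_mul_of_nonneg_left hb hA.le
  rw [← mul_assoc, mul_div_cancel₀ _ hA.ne'] at h5
  have h6 : (0 : ℝ) ≤ e * b := by positivity
  refine le_of_mul_le_mul_left ?_ hq'
  linarith

/-- Asymptotic bound for the pole order. -/
def Bnd (P : Ps K ι n) (β : ℝ) (v : Val K) : Prop :=
  ∃ τ₀ : ℕ, ∀ τ : ℕ, τ₀ < τ → ∀ (N : ℕ) (s : K), 0 < N → s ≠ 0 → s ∈ P.L (N * τ) N →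
    lg v s ≤ (N * τ : ℕ) * β

theorem BndB_pb (P : Ps K ι n) (h1 : P.h = 1) (l t : ℕ) (s : K) : P.pb l t s = (P.S.φ ^ l) s := by
  have h : ∀ k, P.hh k = 1 := fun k => by
    induction k with
    | zero => rfl
    | succ k ih => rw [hh, ih, h1, map_one, one_mul]
  rw [pb, h, one_pow, mul_one]

theorem BndB_mono (P : Ps K ι n) (hM : ∀ w ∈ P.S.W, 0 ≤ P.M w) {t t' a a' : ℕ} (ht : t ≤ t')
    (ha : a ≤ a') : P.L t a ≤ P.L t' a' := by
  refine Gam_mono fun w hw _ => ?_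
  have h1 := P.S.H_nonneg w
  have h2 := hM w hw
  have h3 : (a : ℤ) ≤ a' := by exact_mod_cast ha
  have h4 : (t : ℤ) ≤ t' := by exact_mod_cast ht
  nlinarith

theorem BndB_zero (P : Ps K ι n) (hM : ∀ w ∈ P.S.W, 0 ≤ P.M w) {w : Val K} (hw : w ∈ P.S.W) :
    P.pp w = 0 := by
  have h1 : (1 : K) ∈ P.L 1 0 := fun w hw _ => by
    rw [map_one, ← exp_zero, exp_le_exp]
    simpa using hM w hw
  have h2 := P.isPos.sec_eq one_pos one_ne_zero h1 hw
  rw [lg, map_one, log_one] at h2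
  simpa using h2.symm

/-- Contraction. Sketch: `p = 0` on `W` by `sec_eq` for `s = 1`; `F` the support of `M`; `l, τ₀`
from `up` for `F` and `ε = 1 / j`; `a, z` from `pull_iter l`, `c ≥ lg w z` on `F`. For
`s ∈ L (N τ) N` the element `y = (φ^l s * z ^ N) ^ j` lies in `L (N τ + j N c) (j N a)`, hence in
`L (N' τ') N'` with `N' = j N (a + 1)` and `τ' = (τ + j c) / (j (a + 1)) + 1`. -/
theorem contr (P : Ps K ι n) (h1 : P.h = 1) (hM : ∀ w ∈ P.S.W, 0 ≤ P.M w) {j : ℕ} (hj : 0 < j) :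
    ∃ l : ℕ, ∀ (v : Val K) (β ε : ℝ), 0 ≤ β → 0 < ε → P.Bnd β v →
      P.Bnd (β / j + ε) (v.comap (P.S.φ ^ l).toRingHom) := by
  classical
  have hj0 : (0 : ℝ) < j := Nat.cast_pos.2 hj
  set F := P.finM.toFinset with hF
  have hFW : ∀ w ∈ F, w ∈ P.S.W := fun w hw => (P.finM.mem_toFinset.1 hw).1
  obtain ⟨l, τ₀, hup⟩ := P.isPos.up F (1 / j) (fun w hw => good_of_mem P.S (hFW w hw))
    (by positivity)
  obtain ⟨a, z, hz, hpull⟩ := P.pull_iter l
  obtain ⟨c, hc⟩ := exists_nat_ge (∑ w ∈ F, |lg w z|)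
  have hc' : ∀ w ∈ F, lg w z ≤ c := fun w hw =>
    (le_abs_self _).trans ((Finset.single_le_sum (f := fun w => |lg w z|)
      (fun w _ => abs_nonneg _) hw).trans hc)
  refine ⟨l, fun v β ε hβ hε ⟨τ₁, hτ₁⟩ => ?_⟩
  obtain ⟨τ₂, hτ₂⟩ := exists_nat_ge (((c + a + 1) * β - lg v z) / ε)
  rw [div_le_iff₀ hε] at hτ₂
  refine ⟨τ₀ + τ₁ * (j * (a + 1)) + τ₂, fun τ hτ N s hN hs hL => ?_⟩
  have hs' : (P.S.φ ^ l) s ≠ 0 := (map_ne_zero _).2 hs
  have hy0 : (P.S.φ ^ l) s * z ^ N ≠ 0 := mul_ne_zero hs' (pow_ne_zero _ hz)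
  have hN0 : (0 : ℝ) < N := Nat.cast_pos.2 hN
  have e : ∀ w : Val K, lg w (((P.S.φ ^ l) s * z ^ N) ^ j) =
      j * (lg w ((P.S.φ ^ l) s) + N * lg w z) := fun w => by
    rw [lg_pow, lg_mul w hs' (pow_ne_zero _ hz), lg_pow]
  have hp := hpull _ _ s hL
  rw [P.BndB_pb h1] at hp
  have hy : ((P.S.φ ^ l) s * z ^ N) ^ j ∈ P.L (N * (τ + j * c)) (N * a * j) := by
    refine (ApprB_mem (pow_ne_zero _ hy0)).2 fun w hw => ?_
    have hH : (0 : ℝ) ≤ P.S.H w := Int.cast_nonneg (P.S.H_nonneg w)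
    by_cases h : w ∈ F
    · have h2 := hup τ (by omega) N s hN hs hL w h
      rw [P.BndB_pb h1, P.BndB_zero hM hw, zero_add] at h2
      have h3 : (1 : ℝ) ≤ P.M w := by
        have h4 := hM w hw
        have h5 := (P.finM.mem_toFinset.1 h).2
        exact_mod_cast (show (1 : ℤ) ≤ P.M w by omega)
      have h4 : (j : ℝ) * lg w ((P.S.φ ^ l) s) ≤ N * τ := by
        have h5 := mul_le_mul_of_nonneg_left h2 hj0.le
        have h6 : (j : ℝ) * (((N * τ : ℕ) : ℝ) * (1 / j)) = N * τ := by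
          push_cast
          field_simp
        linarith
      have h5 := mul_le_mul_of_nonneg_left (hc' w h) (mul_pos hj0 hN0).le
      have h6 := mul_le_mul_of_nonneg_left h3
        (show (0 : ℝ) ≤ N * (τ + j * c) by positivity)
      have h7 : (0 : ℝ) ≤ N * a * j * P.S.H w := by positivity
      rw [e]
      push_cast
      linarith
    · have h2 : P.M w = 0 := by_contra fun h2 => h (P.finM.mem_toFinset.2 ⟨hw, h2⟩)
      have h3 := ApprA_le (pow_ne_zero _ hy0) (P.pow_mem_L hp j) hw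
      rw [h2] at h3 ⊢
      simpa using h3
  have hja : 0 < j * (a + 1) := Nat.mul_pos hj a.succ_pos
  obtain ⟨τ', hτ'⟩ : ∃ τ' : ℕ, τ' = (τ + j * c) / (j * (a + 1)) + 1 := ⟨_, rfl⟩
  have h2 : τ + j * c ≤ j * (a + 1) * τ' := by
    rw [hτ']
    exact (Nat.lt_mul_div_succ _ hja).le
  have h3 : j * (a + 1) * τ' ≤ τ + j * c + j * (a + 1) := by
    rw [hτ', mul_add, mul_one]
    exact Nat.add_le_add_right (Nat.mul_div_le _ _) _
  have h4 : τ₁ < τ' := by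
    rw [hτ', Nat.lt_succ_iff, Nat.le_div_iff_mul_le hja]
    omega
  have h5 := hτ₁ τ' h4 (N * (j * (a + 1))) _ (Nat.mul_pos hN hja) (pow_ne_zero _ hy0)
    (P.BndB_mono hM (by rw [mul_assoc]; exact Nat.mul_le_mul_left N h2)
      (by rw [mul_assoc]; exact Nat.mul_le_mul_left N (by nlinarith)) hy)
  rw [e] at h5
  rw [lg_comap]
  have h6 : (j : ℝ) * (a + 1) * τ' ≤ τ + j * c + j * (a + 1) := by exact_mod_cast h3
  have h7 : (τ₂ : ℝ) ≤ τ := by exact_mod_cast (show τ₂ ≤ τ by omega)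
  have h8 := mul_le_mul_of_nonneg_left h6 (mul_nonneg hN0.le hβ)
  have h9 := mul_le_mul_of_nonneg_left (hτ₂.trans (mul_le_mul_of_nonneg_right h7 hε.le))
    (mul_pos hj0 hN0).le
  refine le_of_mul_le_mul_left ?_ hj0
  have h10 : (j : ℝ) * (((N * τ : ℕ) : ℝ) * (β / j + ε)) = N * τ * β + j * N * (τ * ε) := by
    push_cast
    field_simp
  rw [h10]
  push_cast at h5
  linarith

/-- Sketch: `j` large, `l` from `contr`, `v, k` from `back`; `Bnd (k (C + 1)) v`; divide by `k`. -/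
theorem bnd_of_back (P : Ps K ι n) (h1 : P.h = 1) (hM : ∀ w ∈ P.S.W, 0 ≤ P.M w) {w : Val K} {C : ℕ}
    (back : ∀ l : ℕ, ∃ (v : Val K) (k : ℕ), 0 < k ∧ (∀ z, v ((P.S.φ ^ l) z) = w z ^ k) ∧
      ∀ (t a : ℕ) (s : K), s ≠ 0 → s ∈ P.L t a → lg v s ≤ t * (k * C) + a * P.S.H v)
    {ε : ℝ} (hε : 0 < ε) : P.Bnd ε w := by
  obtain ⟨j, hj⟩ := exists_nat_gt ((C + 1) / (ε / 2))
  have hj0 : (0 : ℝ) < j := lt_trans (by positivity) hj
  rw [div_lt_iff₀ (half_pos hε)] at hj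
  obtain ⟨l, hl⟩ := P.contr h1 hM (Nat.cast_pos.1 hj0)
  obtain ⟨v, k, hk, hv, hb⟩ := back l
  have hk0 : (0 : ℝ) < k := Nat.cast_pos.2 hk
  have hB : P.Bnd (k * (C + 1)) v := by
    refine ⟨(P.S.H v).toNat, fun τ hτ N s hN hs hL => (hb _ _ s hs hL).trans ?_⟩
    have h2 : (P.S.H v : ℝ) ≤ τ := by exact_mod_cast (show P.S.H v ≤ τ by omega)
    have h3 : (1 : ℝ) ≤ k := by exact_mod_cast hk
    have h4 : (0 : ℝ) ≤ N := Nat.cast_nonneg _
    have h5 := mul_le_mul_of_nonneg_left h2 h4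
    have h6 := mul_le_mul_of_nonneg_left h3 (show (0 : ℝ) ≤ N * τ by positivity)
    push_cast
    linarith
  obtain ⟨τ₀, h⟩ := hl v _ (k * (ε / 2)) (by positivity) (by positivity) hB
  refine ⟨τ₀, fun τ hτ N s hN hs hL => ?_⟩
  have h2 := h τ hτ N s hN hs hL
  have h3 : lg v ((P.S.φ ^ l) s) = k * lg w s := by
    rw [← lg_pow, lg, lg, hv, map_pow]
  rw [lg_comap, h3] at h2
  have h4 : (k : ℝ) * (C + 1) / j ≤ k * (ε / 2) := by
    rw [div_le_iff₀ hj0, mul_assoc]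
    exact mul_le_mul_of_nonneg_left (by linarith) hk0.le
  have h5 := mul_le_mul_of_nonneg_left h4 (Nat.cast_nonneg (α := ℝ) (N * τ))
  refine le_of_mul_le_mul_left ?_ hk0
  linarith

/-- Sketch: common `τ₀` for the support `F` of `M`, `C = τ₀ + 2`. For `a > 0` and `t > C a` put
`τ = t / a + 1`; `s ∈ L (a τ) a` has `lg w s ≤ (t + a) / 2 ≤ t - 1` on `F`, so `s ∈ L (t - 1) a`;
induction on `t`. For `a = 0` use `sec_eq` twice. -/
theorem bd (P : Ps K ι n) (hM : ∀ w ∈ P.S.W, 0 ≤ P.M w) (h : ∀ w ∈ P.S.W, P.Bnd (1 / 2) w) :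
    ∃ C : ℕ, ∀ (t a : ℕ) (s : K), s ∈ P.L t a → s ∈ P.L (C * a) a := by
  have hmono : ∀ {t t' a : ℕ}, t ≤ t' → P.L t a ≤ P.L t' a := fun {t t' a} ht => by
    refine fun s hs w hw hv => (hs w hw hv).trans (exp_le_exp.2 ?_)
    have h1 : (t : ℤ) ≤ t' := by exact_mod_cast ht
    exact add_le_add_left (mul_le_mul_of_nonneg_right h1 (hM w hw)) _
  choose! τ₀ hτ₀ using h
  obtain ⟨T, hT⟩ := (P.finM.image τ₀).bddAbove
  refine ⟨T + 2, fun t a s hs => ?_⟩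
  rcases eq_or_ne s 0 with rfl | h0
  · exact zero_mem _
  rcases Nat.eq_zero_or_pos a with rfl | ha
  · rcases Nat.eq_zero_or_pos t with rfl | ht
    · exact hs
    refine (ApprB_mem h0).2 fun w hw => ?_
    have h1 : (1 : K) ∈ P.L 1 0 := (ApprB_mem one_ne_zero).2 fun v hv => by
      have h2 : (0 : ℝ) ≤ P.M v := by exact_mod_cast hM v hv
      simpa [lg] using h2
    have h2 := P.isPos.sec_eq one_pos one_ne_zero h1 hw
    have h3 := P.isPos.sec_eq ht h0 hs hw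
    have h4 : P.pp w = 0 := by simpa [lg] using h2.symm
    rw [h3, h4]
    simp
  induction t with
  | zero => exact hmono (Nat.zero_le _) hs
  | succ t ih =>
    rcases le_or_gt (t + 1) ((T + 2) * a) with ht | ht
    · exact hmono ht hs
    refine ih ((ApprB_mem h0).2 fun w hw => ?_)
    have h1 := (ApprB_mem h0).1 hs w hw
    by_cases hw0 : P.M w = 0
    · simpa [hw0] using h1
    have h2 : τ₀ w ≤ T := hT ⟨w, ⟨hw, hw0⟩, rfl⟩
    have h3 : T + 2 ≤ (t + 1) / a := (Nat.le_div_iff_mul_le ha).2 ht.le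
    have h4 : a * ((t + 1) / a) ≤ t + 1 := Nat.mul_div_le _ _
    have h5 : t + 1 < a * ((t + 1) / a + 1) := Nat.lt_mul_div_succ _ ha
    have h6 := hτ₀ w hw ((t + 1) / a + 1) (by omega) a s ha h0 (hmono h5.le hs)
    have h7 : a * ((t + 1) / a + 1) ≤ 2 * t := by nlinarith
    have h8 : ((a * ((t + 1) / a + 1) : ℕ) : ℝ) ≤ 2 * t := by exact_mod_cast h7
    have h9 : (1 : ℝ) ≤ P.M w := by
      have := hM w hw
      exact_mod_cast (by omega : 1 ≤ P.M w)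
    have hH : (0 : ℝ) ≤ P.S.H w := by exact_mod_cast P.S.H_nonneg w
    have h10 := mul_le_mul_of_nonneg_left h9 (Nat.cast_nonneg (α := ℝ) t)
    have h11 : (0 : ℝ) ≤ a * P.S.H w := by positivity
    push_cast at h6 h8 ⊢
    linarith

theorem val_pb (P : Ps K ι n) {e : ℕ} (he : 0 < e) {s : K} (h0 : s ≠ 0) (hs : s ∈ P.L e 0) (l : ℕ)
    {v : Val K} (hv : Triv v) : v (P.pb l e s) = v s := by
  obtain ⟨a, z, -, h⟩ := P.pull_iter l
  have h1 := h e 0 s hs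
  rw [pow_zero, mul_one, zero_mul] at h1
  have h2 := P.pb_ne l e h0
  have h3 : ∀ w ∈ P.S.W, w (P.pb l e s) = w s := fun w hw => by
    have h4 := (P.isPos.sec_eq he h2 h1 hw).trans (P.isPos.sec_eq he h0 hs hw).symm
    rw [lg, lg, Int.cast_inj] at h4
    rw [← exp_log ((map_ne_zero w).2 h2), h4, exp_log ((map_ne_zero w).2 h0)]
  have key : ∀ y y' : K, y' ≠ 0 → (∀ w ∈ P.S.W, w y = w y') → v y ≤ v y' := fun y y' h5 h6 => by
    have h7 := le_of_Γ P.S (μ := 0) (r := y / y') (fun w hw _ => by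
      rw [map_div₀, h6 w hw, div_self ((map_ne_zero w).2 h5)]
      simp) hv
    rwa [Nat.cast_zero, zero_mul, exp_zero, map_div₀,
      div_le_one₀ (zero_lt_iff.2 ((map_ne_zero v).2 h5))] at h7
  exact le_antisymm (key _ _ h0 h3) (key _ _ h2 fun w hw => (h3 w hw).symm)

theorem mem_iff (P : Ps K ι n) (e : ℕ) {s : K} (h0 : s ≠ 0) (t a : ℕ) (r : K) :
    (r ∈ P.S.Γ fun w => t * (e * P.M w - log (w s)) + a * P.S.H w) ↔ r * s ^ t ∈ P.L (e * t) a := by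
  refine forall₃_congr fun w _ _ => ?_
  have h1 := pull_val_zpow w h0 t
  rw [zpow_natCast] at h1
  rw [map_mul, h1, ← le_div_iff₀ exp_pos, ← exp_sub]
  refine iff_of_eq (congrArg (fun x => w r ≤ exp x) ?_)
  push_cast
  ring

/-- The effective divisor of a section. -/
noncomputable def nrm (P : Ps K ι n) {e : ℕ} (he : 0 < e) {s : K} (h0 : s ≠ 0) (hs : s ∈ P.L e 0) :
    Ps K ι n where
  S := P.S
  M w := e * P.M w - log (w s)
  h := 1
  hne := one_ne_zero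
  finM := (P.finM.union (P.S.supp_finite h0)).subset fun w hw => by
    by_contra hc
    simp only [Set.mem_union, Set.mem_ofPred_eq, not_or, not_and, not_not] at hc
    exact hw.2 (by rw [hc.1 hw.1, hc.2 hw.1]; simp)
  pull := by
    obtain ⟨a₁, z, hz, h⟩ := P.pull
    refine ⟨a₁, z, hz, fun t a r hr => (P.mem_iff e h0 t _ _).2 fun w hw ht => ?_⟩
    have h1 := h (e * t) a _ ((P.mem_iff e h0 t a r).1 hr) w hw ht
    have h2 := P.val_pb he h0 hs 1 ht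
    rw [P.pb_one] at h2
    have e1 : P.S.φ (r * s ^ t) * P.h ^ (e * t) * z ^ a =
        P.S.φ r * 1 ^ t * z ^ a * (P.S.φ s * P.h ^ e) ^ t := by
      rw [map_mul, map_pow]
      ring
    rw [e1, map_mul, map_pow w (_ * _), h2, ← map_pow, ← map_mul] at h1
    exact h1
  psef τ := ⟨1, 1, one_pos, one_ne_zero, (P.mem_iff e h0 _ _ _).2 (by
    rw [one_mul (s ^ _)]
    exact P.L_mono _ (by simp) (P.pow_mem_L hs _))⟩
  qf := P.qf

theorem mem_nrm (P : Ps K ι n) {e : ℕ} (he : 0 < e) {s : K} (h0 : s ≠ 0) (hs : s ∈ P.L e 0)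
    (t a : ℕ) (r : K) : r ∈ (P.nrm he h0 hs).L t a ↔ r * s ^ t ∈ P.L (e * t) a :=
  P.mem_iff e h0 t a r

theorem nrm_nonneg (P : Ps K ι n) {e : ℕ} (he : 0 < e) {s : K} (h0 : s ≠ 0) (hs : s ∈ P.L e 0) :
    ∀ w ∈ P.S.W, 0 ≤ (P.nrm he h0 hs).M w := fun w hw => by
  have h1 := (log_le_iff_le_exp ((map_ne_zero w).2 h0)).2 (hs w hw (P.S.triv hw))
  change 0 ≤ e * P.M w - log (w s)
  simp only [Nat.cast_zero, zero_mul, add_zero] at h1
  linarith

end Pool.Agent.Lib.MP_bc213e_ag.Psef.Ps
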