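import Pool.Agent.Lib.MP_bc213e_ag.Psef.ML
import Pool.Agent.Lib.MP_bc213e_ag.Hyp.NI

/-! There are only finitely many totally invariant divisors. -/

namespace Pool.Agent.Lib.MP_bc213e_ag.Psef

open WithZero Module Hyp

variable {K ι : Type} [Field K] [Algebra ℂ K] {n : ℕ}

/-- Pull-back of one-forms in coordinates. -/
noncomputable def pf (φ : K →ₐ[ℂ] K) (J : Fin n → Fin n → K) : (Fin n → K) →ₗ[ℂ] (Fin n → K) where
  toFun η b := ∑ a, J b a * φ (η a)
  map_add' η η' := by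
    ext b
    simp [mul_add, Finset.sum_add_distrib]
  map_smul' c η := by
    ext b
    simp [Finset.smul_sum]

theorem CanA_pf_smul (φ : K →ₐ[ℂ] K) (J : Fin n → Fin n → K) (u : K) (η : Fin n → K) :
    pf φ J (u • η) = φ u • pf φ J η := by
  ext b
  simp [pf, Finset.mul_sum, mul_left_comm]

theorem CanA_indep {φ : K →ₐ[ℂ] K} (fix : ∀ u, φ u = u → ∃ c : ℂ, algebraMap ℂ K c = u)
    (J : Fin n → Fin n → K) {m : ℕ} (ω : Fin m → Fin n → K) (hω : LinearIndependent ℂ ω)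
    (inv : ∀ j, pf φ J (ω j) = ω j) : LinearIndependent K ω := by
  induction m with
  | zero => exact linearIndependent_empty_type
  | succ m ih =>
    rw [linearIndependent_finSucc] at hω ⊢
    have hK := ih _ hω.1 fun j => inv j.succ
    refine ⟨hK, fun h => hω.2 ?_⟩
    obtain ⟨u, hu⟩ := (Submodule.mem_span_range_iff_exists_fun K).1 h
    have h1 : ∑ i, φ (u i) • Fin.tail ω i = ω 0 := by
      rw [← inv 0, ← hu, map_sum]
      exact Finset.sum_congr rfl fun i _ => by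
        rw [CanA_pf_smul]
        exact congrArg _ (inv i.succ).symm
    have h2 : ∀ i, φ (u i) - u i = 0 := Fintype.linearIndependent_iff.1 hK (fun i => φ (u i) - u i)
      (by simp only [sub_smul, Finset.sum_sub_distrib, h1, hu, sub_self])
    choose c hc using fun i => fix (u i) (sub_eq_zero.1 (h2 i))
    refine (Submodule.mem_span_range_iff_exists_fun ℂ).2 ⟨c, ?_⟩
    rw [← hu]
    exact Finset.sum_congr rfl fun i _ => by rw [← hc, algebraMap_smul]

/-- Artin's lemma. Sketch: by induction on `m` the family is `K`-linearly independent: if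
`ω 0 = ∑ u i • ω (i + 1)`, applying `pf` gives `φ (u i) = u i`. -/
theorem artin {φ : K →ₐ[ℂ] K} (fix : ∀ u, φ u = u → ∃ c : ℂ, algebraMap ℂ K c = u)
    (J : Fin n → Fin n → K) {m : ℕ} (ω : Fin m → Fin n → K) (hω : LinearIndependent ℂ ω)
    (inv : ∀ j, pf φ J (ω j) = ω j) : m ≤ n := by
  simpa using (CanA_indep fix J ω hω inv).fintype_card_le_finrank

/-- Sketch: on the span `U` of the first `n dim B + n + 1` vectors the linear map
`ω ↦ E • (pf ω - ω)` has values in `Fin n → B`; its kernel has dimension more than `n`; `artin`. -/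
theorem not_indep {φ : K →ₐ[ℂ] K} (fix : ∀ u, φ u = u → ∃ c : ℂ, algebraMap ℂ K c = u)
    (J : Fin n → Fin n → K) (ω : ℕ → Fin n → K) (B : Submodule ℂ K) [FiniteDimensional ℂ B] {E : K}
    (hE : E ≠ 0) (h : ∀ j b, E * (pf φ J (ω j) b - ω j b) ∈ B) : ¬ LinearIndependent ℂ ω := by
  intro hω
  let L : (Fin (n * finrank ℂ B + (n + 1)) → ℂ) →ₗ[ℂ] (Fin n → K) :=
    Fintype.linearCombination ℂ fun j => ω j
  have hL : Function.Injective L :=
    linearIndependent_iff_injective_fintypeLinearCombination.1 (hω.comp _ Fin.val_injective)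
  let Θ : Fin n → (Fin n → K) →ₗ[ℂ] K := fun b =>
    LinearMap.mulLeft ℂ E ∘ₗ LinearMap.proj b ∘ₗ (pf φ J - LinearMap.id)
  have hΘ : ∀ b x, (Θ b ∘ₗ L) x ∈ B := fun b x => by
    rw [LinearMap.comp_apply, Fintype.linearCombination_apply, map_sum]
    exact B.sum_mem fun j _ => by
      rw [map_smul]
      exact B.smul_mem _ (h j b)
  let Λ : (Fin (n * finrank ℂ B + (n + 1)) → ℂ) →ₗ[ℂ] (Fin n → B) :=
    LinearMap.pi fun b => LinearMap.codRestrict B (Θ b ∘ₗ L) (hΘ b)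
  have h1 := Λ.finrank_range_add_finrank_ker
  have h2 : finrank ℂ (LinearMap.range Λ) ≤ n * finrank ℂ B := by
    simpa [finrank_pi_fintype] using (LinearMap.range Λ).finrank_le
  rw [finrank_fin_fun] at h1
  obtain ⟨f, hf⟩ := exists_linearIndependent_of_le_finrank (R := ℂ) (M := LinearMap.ker Λ)
    (n := n + 1) (by omega)
  have h3 := artin fix J (fun j => L (f j)) ((hf.map' _ (Submodule.ker_subtype _)).map' L
    (LinearMap.ker_eq_bot.2 hL)) fun j => funext fun b => by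
      have h4 : E * (pf φ J (L (f j)) b - L (f j) b) = 0 :=
        congrArg Subtype.val (congrFun (LinearMap.mem_ker.1 (f j).2) b)
      exact sub_eq_zero.1 ((mul_eq_zero.1 h4).resolve_left hE)
  omega

variable [Fintype ι] (S : Su K ι n)

/-- Sketch: `exists_two`, `exists_indep`, `ni` for `ι₁ u`. -/
theorem fix (u : K) (h : S.φ u = u) : ∃ c : ℂ, algebraMap ℂ K c = u := by
  obtain ⟨L, _, _, ⟨T⟩⟩ := exists_two S.φ
  obtain ⟨y, hy, hV⟩ := S.exists_indep
  have : FiniteDimensional ℂ S.V := FiniteDimensional.span_of_finite ℂ (Set.finite_range _)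
  obtain ⟨c, hc⟩ := ni S.npos S.V S.one_mem S.den y hy hV S.hyp T (T.ι₁ u) (by rw [T.comm₁, h])
  exact ⟨c, T.ι₁.injective ((T.ι₁.commutes c).trans hc)⟩

variable {S} {τ : Fin n → K} {D : Fin n → Derivation ℂ K K} {e : K} {c : ℕ}

omit [Algebra ℂ K] in
theorem CanB_mul {v : Val K} {x y : K} {a b : ℤ} (hx : v x ≤ exp a) (hy : v y ≤ exp b) :
    v (x * y) ≤ exp (a + b) := by
  rw [map_mul, exp_add]
  exact mul_le_mul' hx hy

omit [Algebra ℂ K] in
theorem CanB_pow {v : Val K} {x : K} {a : ℤ} (hx : v x ≤ exp a) (m : ℕ) :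
    v (x ^ m) ≤ exp (m * a) := by
  induction m with
  | zero => simp
  | succ m ih =>
    rw [pow_succ, Nat.cast_succ, add_one_mul]
    exact CanB_mul ih hx

theorem CanB_smul {v : Val K} (hv : Triv v) (k : ℂ) {x : K} {a : ℤ} (hx : v x ≤ exp a) :
    v (k • x) ≤ exp a := by
  rw [Algebra.smul_def, map_mul]
  exact (mul_le_mul' (hv k) hx).trans_eq (one_mul _)

/-- The pull-back of a logarithmic form at a prime divisor `w₀`. Sketch: `a₁, z` from `exists_z 1`,
`d` a common denominator of the `D b (φ (τ a))` (`den_fin`), `E = e * φ e * z ^ c * d`. With `g, r`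
from `Pol` at `w₀ ∘ φ`: `pf η b = r⁻¹ D b (φ g) / φ g + ∑ a, J b a * φ (η a - r⁻¹ D a g / g)` by
`chain`; `DB.dlog` for `φ g`; `k = - r⁻¹ log (w₀ (φ g))`. -/
theorem pf_pol (hτ : IsTranscendenceBasis ℂ τ) (hD : ∀ a b, D a (τ b) = if a = b then 1 else 0)
    (he : e ≠ 0) (h : DB S D e c) : ∃ (E : K) (c' : ℕ), E ≠ 0 ∧
      (∀ v, Triv v → v E ≤ exp (c' * S.H v)) ∧
      ∀ (w : Val K) (η : Fin n → K), ∀ w₀ ∈ S.W, Pol S D e c w η (w₀.comap S.φ.toRingHom) →
        ∀ π, w₀ π = exp (-1) → ∃ k : ℂ, (w₀.comap S.φ.toRingHom = w → k = 1) ∧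
          (w₀.comap S.φ.toRingHom ∈ S.W → w₀.comap S.φ.toRingHom ≠ w → k = 0) ∧ ∀ b,
          w₀ (E * e * (pf S.φ (fun b a => D b (S.φ (τ a))) η b - k • (D b π / π))) ≤
            exp (c' * S.H w₀) := by
  obtain ⟨a₁, z, hz, hz'⟩ := S.exists_z 1
  obtain ⟨β, d, hd1, hd0, hd2⟩ := den_fin S.V S.one_mem S.den
    fun p : Fin n × Fin n => D p.1 (S.φ (τ p.2))
  have hz1 : ∀ v : Val K, Triv v →
      v (z ^ c) ≤ exp (c * (a₁ * S.H v - S.H (v.comap S.φ.toRingHom))) := fun v hv => by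
    have h1 := hz' v hv
    rw [Su.Hk, pow_one] at h1
    exact CanB_pow h1 c
  have hE : ∀ v : Val K, Triv v → v (S.φ e * z ^ c * d) ≤ exp ((c * a₁ + β : ℕ) * S.H v) :=
    fun v hv => by
      have h1 : v (S.φ e) ≤ exp (c * S.H (v.comap S.φ.toRingHom)) := h.1 _ (hv.comap S.φ)
      refine (CanB_mul (CanB_mul h1 (hz1 v hv)) (S.le_of_mem_pow hd1 hv)).trans_eq ?_
      congr 1
      push_cast
      ring
  refine ⟨S.φ e * z ^ c * d, c * a₁ + β + c,
    mul_ne_zero (mul_ne_zero ((map_ne_zero S.φ).2 he) (pow_ne_zero _ hz)) hd0, fun v hv => ?_, ?_⟩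
  · refine (hE v hv).trans (exp_le_exp.2 (mul_le_mul_of_nonneg_right ?_ (S.H_nonneg v)))
    exact_mod_cast Nat.le_add_right _ _
  rintro w η w₀ hw₀ ⟨g, r, hg, hr, hg1, hg2, hg3⟩ π hπ
  have ht := S.triv hw₀
  have hr' : (r : ℂ) ≠ 0 := Nat.cast_ne_zero.2 hr.ne'
  refine ⟨-((r : ℂ)⁻¹ * ((log (w₀ (S.φ g)) : ℤ) : ℂ)), fun h1 => ?_, fun h1 h2 => ?_, fun b => ?_⟩
  · have h2 : w₀ (S.φ g) = exp (-(r : ℤ)) := hg1 h1
    rw [h2, log_exp]
    push_cast
    field_simp
  · have h3 : w₀ (S.φ g) = 1 := hg2 h1 h2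
    rw [h3, log_one]
    simp
  · have hφg : S.φ g ≠ 0 := (map_ne_zero S.φ).2 hg
    have h1 := h.dlog hw₀ hπ hφg b
    have h2 : S.φ e * z ^ c * d * e * (pf S.φ (fun b a => D b (S.φ (τ a))) η b -
        (-((r : ℂ)⁻¹ * ((log (w₀ (S.φ g)) : ℤ) : ℂ))) • (D b π / π)) =
        ∑ a, e * z ^ c * (d * D b (S.φ (τ a))) * S.φ (e * (η a - (r : K)⁻¹ * (D a g / g))) +
        ((r : ℂ)⁻¹) • (S.φ e * z ^ c * d * (e * (D b (S.φ g) / S.φ g +
          ((log (w₀ (S.φ g)) : ℤ) : K) * (D b π / π)))) := by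
      rw [chain hτ hD S.φ b g]
      change S.φ e * z ^ c * d * e * (∑ a, D b (S.φ (τ a)) * S.φ (η a) - _) = _
      have h3 : ∀ a, e * z ^ c * (d * D b (S.φ (τ a))) * S.φ (e * (η a - (r : K)⁻¹ * (D a g / g))) =
          S.φ e * z ^ c * d * e * (D b (S.φ (τ a)) * S.φ (η a)) - S.φ e * z ^ c * d * e *
            ((r : K)⁻¹ / S.φ g) * (D b (S.φ (τ a)) * S.φ (D a g)) := fun a => by
        simp only [map_mul, map_sub, map_inv₀, map_natCast, map_div₀]
        ring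
      rw [Finset.sum_congr rfl fun a _ => h3 a, Finset.sum_sub_distrib, ← Finset.mul_sum,
        ← Finset.mul_sum]
      simp only [Algebra.smul_def, map_neg, map_mul, map_inv₀, map_natCast, map_intCast]
      ring
    rw [h2]
    refine w₀.map_add_le (w₀.map_sum_le fun a _ => ?_) (CanB_smul ht _ ?_)
    · have h3 : w₀ (S.φ (e * (η a - (r : K)⁻¹ * (D a g / g)))) ≤
          exp (c * S.H (w₀.comap S.φ.toRingHom)) := hg3 a
      refine (CanB_mul (CanB_mul (CanB_mul (h.1 w₀ ht) (hz1 w₀ ht))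
        (S.le_of_mem_pow (hd2 (b, a)) ht)) h3).trans_eq ?_
      congr 1
      push_cast
      ring
    · refine (CanB_mul (hE w₀ ht) h1).trans_eq ?_
      congr 1
      push_cast
      ring

/-- Sketch: `E, c'` from `pf_pol`; at `w₀ ∈ W` with uniformiser `π`, both `pf (η w) b` and `η w b`
are complex multiples of `D b π / π` up to bounded terms (`Pol.self`, `Pol.other`); the total
coefficient vanishes for `w₀ ∉ F`; `w₀ (e * D b π / π) ≤ exp (c H w₀ + 1)` by `DB.loc`. -/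
theorem theta_mem (hτ : IsTranscendenceBasis ℂ τ) (hD : ∀ a b, D a (τ b) = if a = b then 1 else 0)
    (he : e ≠ 0) (h : DB S D e c) (F : Set (Val K)) : ∃ (E : K) (c' : ℕ), E ≠ 0 ∧
      ∀ (η : Val K → Fin n → K) (Z : Finset (Val K)),
        (∀ w ∈ Z, ∀ v, Triv v → Pol S D e c w (η w) v) →
        (∀ w₀ ∈ S.W, w₀ ∉ F → w₀.comap S.φ.toRingHom ∈ S.W ∧
          (w₀ ∈ Z ↔ w₀.comap S.φ.toRingHom ∈ Z)) → ∀ b,
        E * (pf S.φ (fun b a => D b (S.φ (τ a))) (∑ w ∈ Z, η w) b - (∑ w ∈ Z, η w) b) ∈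
          S.Γ fun w => c' * S.H w + F.indicator 1 w := by
  classical
  obtain ⟨E, c', hE0, hE, hpf⟩ := pf_pol hτ hD he h
  refine ⟨E * e, c' + c, mul_ne_zero hE0 he, fun η Z hη hZ b w₀ hw₀ ht => ?_⟩
  obtain ⟨π, hπ⟩ : ∃ π, w₀ π = exp (-1) := hw₀.choose_spec.1
  have hH := S.H_nonneg w₀
  have hF : (0 : ℤ) ≤ F.indicator 1 w₀ := Set.indicator_nonneg (fun _ _ => zero_le_one) _
  choose! k hk1 hk2 hk3 using fun w (hw : w ∈ Z) =>
    hpf w (η w) w₀ hw₀ (hη w hw _ (ht.comap S.φ)) π hπ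
  have h1 : E * e * (pf S.φ (fun b a => D b (S.φ (τ a))) (∑ w ∈ Z, η w) b - (∑ w ∈ Z, η w) b) =
      ∑ w ∈ Z, E * e * (pf S.φ (fun b a => D b (S.φ (τ a))) (η w) b - k w • (D b π / π)) -
      ∑ w ∈ Z, E * (e * (η w b - (if w = w₀ then (1 : ℂ) else 0) • (D b π / π))) +
      (∑ w ∈ Z, k w - ∑ w ∈ Z, if w = w₀ then (1 : ℂ) else 0) • (E * (e * D b π / π)) := by
    simp only [map_sum, Finset.sum_apply, ← Finset.mul_sum, Finset.sum_sub_distrib,
      ← Finset.sum_smul]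
    simp only [Algebra.smul_def, map_sub]
    ring
  change w₀ _ ≤ exp (((c' + c : ℕ) : ℤ) * S.H w₀ + F.indicator 1 w₀)
  rw [h1]
  have hc : (0 : ℤ) ≤ c * S.H w₀ := mul_nonneg (Nat.cast_nonneg _) hH
  refine w₀.map_add_le (w₀.map_sub_le (w₀.map_sum_le fun w hw => ?_)
    (w₀.map_sum_le fun w hw => ?_)) ?_
  · refine (hk3 w hw b).trans (exp_le_exp.2 ?_)
    push_cast
    linarith
  · have h2 : w₀ (e * (η w b - (if w = w₀ then (1 : ℂ) else 0) • (D b π / π))) ≤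
        exp (c * S.H w₀) := by
      split_ifs with h3
      · subst h3
        rw [one_smul]
        exact Pol.self h hw₀ (hη w hw w ht) hπ b
      · rw [zero_smul, sub_zero]
        exact Pol.other h hw₀ (Ne.symm h3) (hη w hw w₀ ht) b
    refine (CanB_mul (hE w₀ ht) h2).trans (exp_le_exp.2 ?_)
    push_cast
    linarith
  · by_cases h2 : w₀ ∈ F
    · refine CanB_smul ht _ ?_
      have h3 : w₀ π⁻¹ ≤ exp 1 := by rw [map_inv₀, hπ, ← exp_neg, neg_neg]
      have h4 : w₀ π ≤ 1 := by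
        rw [hπ, ← exp_zero, exp_le_exp]
        norm_num
      rw [div_eq_mul_inv]
      refine (CanB_mul (hE w₀ ht) (CanB_mul (h.loc hw₀ h4 b) h3)).trans_eq ?_
      rw [Set.indicator_of_mem h2]
      congr 1
      push_cast
      simp only [Pi.one_apply]
      ring
    · obtain ⟨h3, h4⟩ := hZ w₀ hw₀ h2
      have h5 : ∑ w ∈ Z, k w = ∑ w ∈ Z, if w = w₀.comap S.φ.toRingHom then (1 : ℂ) else 0 :=
        Finset.sum_congr rfl fun w hw => by
          split_ifs with h6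
          · exact hk1 w hw h6.symm
          · exact hk2 w hw h3 (Ne.symm h6)
      rw [h5, Finset.sum_ite_eq', Finset.sum_ite_eq', if_congr h4 rfl rfl, sub_self, zero_smul,
        map_zero]
      exact zero_le

/-- Sketch: `linearIndependent_iff'`; at `w₀ = o j` all terms except `η w₀` are regular
(`Pol.other`), `η w₀ a - D a π / π` is regular (`Pol.self`), and `D a π` is a unit for some `a`
(`exists_der_unit`, `DB.loc`). -/
theorem indep (hτ : IsTranscendenceBasis ℂ τ) (hD : ∀ a b, D a (τ b) = if a = b then 1 else 0)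
    (h : DB S D e c) (η : Val K → Fin n → K) (Z : ℕ → Finset (Val K))
    (hη : ∀ j, ∀ w ∈ Z j, ∀ v, Triv v → Pol S D e c w (η w) v) (o : ℕ → Val K)
    (ho : ∀ j, o j ∈ S.W ∧ o j e = 1 ∧ S.H (o j) = 0 ∧ ∀ a, o j (τ a) ≤ 1)
    (hZ : ∀ i j, o j ∈ Z i ↔ i = j) : LinearIndependent ℂ fun j => ∑ w ∈ Z j, η w := by
  classical
  refine linearIndependent_iff'.2 fun s g hg j hj => ?_
  by_contra h0
  obtain ⟨hW, he, hH, hτ'⟩ := ho j
  have ht := S.triv hW
  obtain ⟨π, hπ⟩ : ∃ π, o j π = exp (-1) := let ⟨_, hi⟩ := hW; hi.1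
  have hπ0 : π ≠ 0 := fun h1 => by
    rw [h1, map_zero] at hπ
    exact exp_ne_zero hπ.symm
  have cl : ∀ z, o j (e * z) ≤ exp (c * S.H (o j)) → o j z ≤ 1 := fun z hz => by
    rwa [map_mul, he, one_mul, hH, mul_zero, exp_zero] at hz
  obtain ⟨a, ha⟩ := exists_der_unit hτ hD ht hτ' (fun z hz a => cl _ (h.loc hW hz a)) hπ0
    (by rw [hπ, ← exp_zero, exp_lt_exp]; norm_num) fun z hz => ⟨-log (o j z), by
      rw [hπ, ← exp_zsmul, smul_eq_mul, neg_mul_neg, mul_one, exp_log ((map_ne_zero _).2 hz)]⟩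
  have mem : ∀ z, z ∈ Gam {o j} (fun _ => 0) ↔ o j z ≤ 1 := fun z =>
    ⟨fun hz => hz _ rfl ht, fun hz w hw _ => hw ▸ hz⟩
  have h1 : ∀ i, (∑ w ∈ Z i, η w a) - (if i = j then D a π / π else 0) ∈
      Gam {o j} fun _ => 0 := fun i => by
    have h2 : (if i = j then D a π / π else 0) =
        ∑ w ∈ Z i, if w = o j then D a π / π else 0 := by
      rw [Finset.sum_ite_eq']
      exact if_congr (hZ i j).symm rfl rfl
    rw [h2, ← Finset.sum_sub_distrib]
    refine Submodule.sum_mem _ fun w hw => (mem _).2 (cl _ ?_)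
    by_cases h3 : w = o j
    · rw [if_pos h3]
      subst h3
      exact (hη i _ hw _ ht).self h hW hπ a
    · rw [if_neg h3, sub_zero]
      exact (hη i w hw _ ht).other h hW (Ne.symm h3) a
  have h2 := Submodule.sum_mem _ fun i (_ : i ∈ s) => Submodule.smul_mem _ (g i) (h1 i)
  have h3 := congrFun hg a
  simp only [Finset.sum_apply, Pi.smul_apply, Pi.zero_apply] at h3
  simp only [smul_sub, Finset.sum_sub_distrib, h3, smul_ite, smul_zero, Finset.sum_ite_eq', hj,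
    if_true, zero_sub, neg_mem_iff] at h2
  have h4 := (mem _).1 ((Submodule.smul_mem_iff _ h0).1 h2)
  rw [map_div₀, ha, hπ, one_div, ← exp_neg, ← exp_zero, exp_le_exp] at h4
  norm_num at h4

/-- Sketch: `τ, D` from `TCI.exists_trBasis`, `TCI.exists_dual`; `ml`. If the support were
infinite, so would be its part outside the finite set where `e`, `H` or some `τ a` is nontrivial,
and so would be the image of this part under `ν` (finite fibres); choose `o j` with pairwise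
different values, `Z j` the level set of `ν (o j)`; `theta_mem`, `fd_Γ`, `indep`, `not_indep`. -/
theorem cantat (S : Su K ι n) (qf : ∀ i, QFactorial (chart S.x i)) (ν : Val K → ℝ)
    (lev : ∀ η, η ≠ 0 → {w | w ∈ S.W ∧ ν w = η}.Finite) {F : Set (Val K)} (hF : F.Finite)
    (inv : ∀ w ∈ S.W, w ∉ F → w.comap S.φ.toRingHom ∈ S.W ∧ ν w = ν (w.comap S.φ.toRingHom)) :
    {w | w ∈ S.W ∧ ν w ≠ 0}.Finite := by
  obtain ⟨τ, hτ⟩ := TCI.exists_trBasis S.dim
  obtain ⟨D, hD⟩ := TCI.exists_dual τ hτ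
  obtain ⟨e, c, he, h, hml⟩ := ml S qf D
  choose! η hη using hml
  by_contra hinf
  have hbad : ({w | w ∈ S.W ∧ w e ≠ 1} ∪ {w | w ∈ S.W ∧ S.H w ≠ 0} ∪
      ⋃ a, {w | w ∈ S.W ∧ w (τ a) ≠ 1}).Finite :=
    ((S.supp_finite he).union S.H_finite).union
      (Set.finite_iUnion fun a => S.supp_finite (hτ.1.ne_zero a))
  have hA := Set.Infinite.sdiff hinf hbad
  set A := {w | w ∈ S.W ∧ ν w ≠ 0} \ ({w | w ∈ S.W ∧ w e ≠ 1} ∪ {w | w ∈ S.W ∧ S.H w ≠ 0} ∪
      ⋃ a, {w | w ∈ S.W ∧ w (τ a) ≠ 1}) with hAdef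
  have hI : (ν '' A).Infinite := by
    intro hf
    refine hA ((hf.biUnion (t := fun y => {w | w ∈ S.W ∧ ν w = y}) ?_).subset ?_)
    · rintro y ⟨w, hw, rfl⟩
      exact lev _ hw.1.2
    · intro w hw
      exact Set.mem_biUnion (Set.mem_image_of_mem ν hw) ⟨hw.1.1, rfl⟩
  have hex : ∀ j : ℕ, ∃ w ∈ A, ν w = (hI.natEmbedding _ j : ℝ) := fun j => (hI.natEmbedding _ j).2
  choose o ho hν using hex
  have hinj : ∀ i j, ν (o j) = ν (o i) ↔ i = j := fun i j => by
    rw [hν, hν]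
    exact ⟨fun e => ((hI.natEmbedding _).injective (Subtype.ext e)).symm, fun e => by rw [e]⟩
  have hmem : ∀ j w, w ∈ (lev _ (ho j).1.2).toFinset ↔ w ∈ S.W ∧ ν w = ν (o j) := fun j w => by
    rw [Set.Finite.mem_toFinset]
    rfl
  obtain ⟨E, c', hE, hθ⟩ := theta_mem hτ hD he h F
  have hfd : FiniteDimensional ℂ (S.Γ fun w => c' * S.H w + F.indicator 1 w) := by
    refine fd_Γ S ((S.H_finite.union hF).subset fun w hw => ?_)
    by_contra hc
    have h1 : S.H w = 0 := by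
      by_contra h2
      exact hc (Or.inl ⟨hw.1, h2⟩)
    have h2 : w ∉ F := fun h3 => hc (Or.inr h3)
    exact hw.2 (by rw [h1, Set.indicator_of_notMem h2, mul_zero, add_zero])
  have hpol : ∀ j, ∀ w ∈ (lev _ (ho j).1.2).toFinset, ∀ v, Triv v → Pol S D e c w (η w) v :=
    fun j w hw => hη w ((hmem j w).1 hw).1
  refine not_indep (fix S) (fun b a => D b (S.φ (τ a)))
    (fun j => ∑ w ∈ (lev _ (ho j).1.2).toFinset, η w) _ hE (fun j b => hθ η _ (hpol j) ?_ b)
    (indep hτ hD h η _ hpol o (fun j => ?_) fun i j => ?_)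
  · intro w₀ hw₀ hn
    obtain ⟨h1, h2⟩ := inv w₀ hw₀ hn
    refine ⟨h1, ?_⟩
    rw [hmem, hmem, ← h2]
    exact ⟨fun h3 => ⟨h1, h3.2⟩, fun h3 => ⟨hw₀, h3.2⟩⟩
  · have h1 := (ho j).1.1
    have h2 := (ho j).2
    refine ⟨h1, ?_, ?_, fun a => le_of_eq ?_⟩
    · by_contra h3
      exact h2 (Or.inl (Or.inl ⟨h1, h3⟩))
    · by_contra h3
      exact h2 (Or.inl (Or.inr ⟨h1, h3⟩))
    · by_contra h3
      exact h2 (Or.inr (Set.mem_iUnion.2 ⟨a, h1, h3⟩))
  · rw [hmem, hinj]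
    exact ⟨fun h1 => h1.2, fun h1 => ⟨(ho j).1.1, h1⟩⟩

end Pool.Agent.Lib.MP_bc213e_ag.Psef
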