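import Pool.Agent.Lib.MP_bc213e_ag.Hyp.ADefs

/-! The first cohomology of `O(c)` on projective space. -/

namespace Pool.Agent.Lib.MP_bc213e_ag.Psef

open WithZero Hyp

variable {K : Type} [Field K] [Algebra ℂ K] {n : ℕ}

/-- Homogeneous coordinates. -/
def hom (y : Fin n → K) : Option (Fin n) → K := fun o => o.elim 1 y

/-- Laurent polynomials of degree `c` with denominators in `s`. -/
def Lau (y : Fin n → K) (c : ℕ) (s : Set (Option (Fin n))) : Submodule ℂ K :=
  Submodule.span ℂ ((fun α : Option (Fin n) → ℤ => ∏ j, hom y j ^ α j) ''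
    {α | ∑ j, α j = c ∧ ∀ j, j ∉ s → 0 ≤ α j})

/-- Sketch: multiply a relation by `(∏ y) ^ N`; a monomial of degree `c` is determined by its
exponents at `some a`. -/
theorem lau_indep {y : Fin n → K} (hy : AlgebraicIndependent ℂ y) (c : ℕ) :
    LinearIndepOn ℂ (fun α : Option (Fin n) → ℤ => ∏ j, hom y j ^ α j) {α | ∑ j, α j = c} := by

  classical
  rw [LinearIndepOn, linearIndependent_iff_finset_linearIndependent]
  intro s
  obtain ⟨N, hN⟩ : ∃ N : ℕ, ∀ α ∈ s, ∀ j, 0 ≤ α.1 j + N := by
    refine ⟨s.sup fun α => Finset.univ.sup fun j => (α.1 j).natAbs, fun α hα j => ?_⟩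
    have h1 : (α.1 j).natAbs ≤ Finset.univ.sup fun j => (α.1 j).natAbs :=
      Finset.le_sup (f := fun j => (α.1 j).natAbs) (Finset.mem_univ j)
    have h2 := Finset.le_sup (f := fun α : {α : Option (Fin n) → ℤ | ∑ j, α j = c} =>
      Finset.univ.sup fun j => (α.1 j).natAbs) hα
    have h3 := h1.trans h2
    omega
  let β : s → (Fin n →₀ ℕ) := fun α =>
    Finsupp.equivFunOnFinite.symm fun a => (α.1.1 (some a) + N).toNat
  have hβ : Function.Injective β := by
    intro α α' h
    have h1 : ∀ a, α.1.1 (some a) = α'.1.1 (some a) := fun a => by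
      have e : (α.1.1 (some a) + N).toNat = (α'.1.1 (some a) + N).toNat :=
        congrFun (Finsupp.equivFunOnFinite.symm.injective h) a
      have := hN _ α.2 (some a)
      have := hN _ α'.2 (some a)
      omega
    refine Subtype.ext (Subtype.ext (funext fun j => ?_))
    cases j with
    | some a => exact h1 a
    | none =>
      have e1 : ∑ j, α.1.1 j = c := α.1.2
      have e2 : ∑ j, α'.1.1 j = c := α'.1.2
      rw [Fintype.sum_option] at e1 e2
      rw [Finset.sum_congr rfl fun a _ => h1 a] at e1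
      omega
  have hli := ((MvPolynomial.basisMonomials (Fin n) ℂ).linearIndependent.map'
    (MvPolynomial.aeval y).toLinearMap (LinearMap.ker_eq_bot.2 hy)).comp β hβ
  refine LinearIndependent.of_comp (LinearMap.mulLeft ℂ (∏ a, y a ^ (N : ℤ))) ?_
  have e : (LinearMap.mulLeft ℂ (∏ a, y a ^ (N : ℤ))) ∘
      ((fun x : {α : Option (Fin n) → ℤ | ∑ j, α j = c} => ∏ j, hom y j ^ x.1 j) ∘
        (Subtype.val : s → _)) =
      ((MvPolynomial.aeval y).toLinearMap ∘ MvPolynomial.basisMonomials (Fin n) ℂ) ∘ β := by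
    funext α
    simp only [Function.comp_apply, LinearMap.mulLeft_apply, MvPolynomial.coe_basisMonomials,
      AlgHom.toLinearMap_apply, MvPolynomial.aeval_monomial, map_one, one_mul]
    rw [Finsupp.prod_fintype _ _ (fun a => pow_zero _), Fintype.prod_option]
    simp only [hom, Option.elim_none, Option.elim_some, one_zpow, one_mul]
    rw [← Finset.prod_mul_distrib]
    refine Finset.prod_congr rfl fun a _ => ?_
    rw [← zpow_add₀ (hy.ne_zero a), ← zpow_natCast]
    congr 1
    have := hN _ α.2 (some a)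
    simp only [β, Finsupp.equivFunOnFinite_symm_apply_apply]
    omega
  rw [e]
  exact hli


omit [Algebra ℂ K] in
theorem Cech_ne {y : Fin n → K} (hy : ∀ a, y a ≠ 0) (j : Option (Fin n)) : hom y j ≠ 0 := by
  cases j with
  | none => exact one_ne_zero
  | some a => exact hy a

omit [Algebra ℂ K] in
theorem Cech_single (x : Option (Fin n) → K) (l : Option (Fin n)) (N : ℕ) :
    ∏ j, x j ^ (Pi.single l (N : ℤ) : Option (Fin n) → ℤ) j = x l ^ N := by
  rw [Finset.prod_eq_single l]
  · simp
  · intro j _ hj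
    simp [Pi.single_eq_of_ne hj]
  · simp

/-- Sketch: `p.as_sum`; the monomial `m` gives the exponent `α none = c + 2 N - |m|`,
`α (some a) = m a`, minus `N` at `l` and at `l'`. -/
theorem mem_lau {y : Fin n → K} (hy : ∀ a, y a ≠ 0) {c N : ℕ} {p : MvPolynomial (Fin n) ℂ}
    (hp : p.totalDegree ≤ c + 2 * N) (l l' : Option (Fin n)) :
    MvPolynomial.aeval y p / (hom y l * hom y l') ^ N ∈ Lau y c {l, l'} := by

  classical
  rw [p.as_sum, map_sum, Finset.sum_div]
  refine Submodule.sum_mem _ fun m hm => ?_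
  have hm' : ∑ a, m a ≤ c + 2 * N := by
    have := (MvPolynomial.le_totalDegree hm).trans hp
    rwa [Finsupp.sum_fintype _ _ (fun _ => rfl)] at this
  rw [MvPolynomial.aeval_monomial, mul_div_assoc, ← Algebra.smul_def]
  refine Submodule.smul_mem _ _ (Submodule.subset_span ?_)
  let e : Option (Fin n) → ℤ := fun o => o.elim ((c + 2 * N - ∑ a, m a : ℕ) : ℤ) fun a => m a
  have he : ∀ j, 0 ≤ e j := fun j => by
    cases j <;> exact Int.natCast_nonneg _
  refine ⟨e - Pi.single l (N : ℤ) - Pi.single l' (N : ℤ), ⟨?_, fun j hj => ?_⟩, ?_⟩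
  · simp only [Pi.sub_apply, Finset.sum_sub_distrib, Finset.sum_pi_single', Finset.mem_univ,
      if_true]
    rw [Fintype.sum_option]
    simp only [e, Option.elim_none, Option.elim_some]
    rw [Nat.cast_sub hm']
    push_cast
    ring
  · simp only [Set.mem_insert_iff, Set.mem_singleton_iff, not_or] at hj
    simp only [Pi.sub_apply, Pi.single_eq_of_ne hj.1, Pi.single_eq_of_ne hj.2, sub_zero]
    exact he j
  · simp only [Pi.sub_apply, zpow_sub₀ (Cech_ne hy _), Finset.prod_div_distrib, Cech_single]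
    rw [div_div, mul_pow, Finsupp.prod_fintype _ _ (fun a => pow_zero _), Fintype.prod_option]
    simp [e, hom]


theorem Cech_zpow_sum {G ι : Type} [CommGroupWithZero G] {x : G} (hx : x ≠ 0) (s : Finset ι)
    (α : ι → ℤ) : x ^ ∑ j ∈ s, α j = ∏ j ∈ s, x ^ α j := by
  classical
  induction s using Finset.induction_on with
  | empty => simp
  | insert a s ha ih => rw [Finset.sum_insert ha, Finset.prod_insert ha, zpow_add₀ hx, ih]

theorem lau_le {y : Fin n → K} (hy : ∀ a, y a ≠ 0) {c : ℕ} {l : Option (Fin n)} {r : K}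
    (hr : r ∈ Lau y c {l}) {v : Val K} (hv : Triv v) (hl : ∀ j, v (hom y j) ≤ v (hom y l)) :
    v r ≤ v (hom y l) ^ c := by

  induction hr using Submodule.span_induction with
  | zero => simp
  | add a b _ _ ha hb => exact (v.map_add _ _).trans (max_le ha hb)
  | smul a z _ hz =>
    rw [Algebra.smul_def, map_mul]
    exact (mul_le_mul' (hv a) hz).trans_eq (one_mul _)
  | mem z hz =>
    obtain ⟨α, ⟨h1, h2⟩, rfl⟩ := hz
    have h0 : v (hom y l) ≠ 0 := (map_ne_zero v).2 (Cech_ne hy l)
    rw [map_prod, ← zpow_natCast, ← h1, Cech_zpow_sum h0]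
    refine Finset.prod_le_prod' fun j _ => ?_
    rw [map_zpow₀]
    by_cases hj : j = l
    · rw [hj]
    · exact zpow_le_zpow_left₀ (h2 j hj) zero_le (hl j)

/-- Sketch: write `q l - q none = linearCombination (Q l)` with `Q l` supported in degree `c`
(`Finsupp.mem_span_image_iff_linearCombination`); by `lau_indep`, `Q l - Q m` is supported on the
exponents that are nonnegative outside `{l, m}`. For `α` of degree `c` choose `j₀ α` with
`0 ≤ α (j₀ α)`; `T = ∑ j, (Q j).filter (j₀ · = j)`, `ζ = q none + linearCombination T`. -/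
theorem cech {y : Fin n → K} (hy : AlgebraicIndependent ℂ y) (c : ℕ) (q : Option (Fin n) → K)
    (h : ∀ l m, q l - q m ∈ Lau y c {l, m}) : ∃ ζ : K, ∀ l, q l - ζ ∈ Lau y c {l} := by

  classical
  have hli := linearIndepOn_iffₛ.1 (lau_indep hy c)
  choose R hR1 hR2 using fun l m => (Finsupp.mem_span_image_iff_linearCombination ℂ).1 (h l m)
  have hS : ∀ l m, R l m ∈
      Finsupp.supported ℂ ℂ {α : Option (Fin n) → ℤ | ∑ j, α j = c} := fun l m =>
    Finsupp.supported_mono (fun α hα => hα.1) (hR1 l m)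
  have hQ : ∀ l m, R l none - R m none = R l m := fun l m =>
    hli _ (Submodule.sub_mem _ (hS l none) (hS m none)) _ (hS l m) (by
      rw [map_sub, hR2, hR2, hR2]; ring)
  have hj : ∀ α : Option (Fin n) → ℤ, ∃ j, ∑ j, α j = c → 0 ≤ α j := by
    intro α
    by_contra hn
    push Not at hn
    have h1 : ∑ j, α j < ∑ _j : Option (Fin n), (0 : ℤ) :=
      Finset.sum_lt_sum_of_nonempty Finset.univ_nonempty fun j _ => (hn j).2
    rw [(hn none).1, Finset.sum_const_zero] at h1
    omega
  choose j₀ hj₀ using hj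
  let T : (Option (Fin n) → ℤ) →₀ ℂ :=
    Finsupp.onFinset (Finset.univ.biUnion fun j => (R j none).support) (fun α => R (j₀ α) none α)
      fun α hα => Finset.mem_biUnion.2 ⟨j₀ α, Finset.mem_univ _, Finsupp.mem_support_iff.2 hα⟩
  refine ⟨q none + Finsupp.linearCombination ℂ (fun α : Option (Fin n) → ℤ => ∏ j, hom y j ^ α j) T,
    fun l => (Finsupp.mem_span_image_iff_linearCombination ℂ).2 ⟨R l none - T, ?_, ?_⟩⟩
  · intro α hα
    have h1 : R l (j₀ α) α ≠ 0 := by
      rw [← hQ]
      exact (Finsupp.mem_support_iff (f := R l none - T)).1 hα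
    obtain ⟨h2, h3⟩ := hR1 l (j₀ α) (Finsupp.mem_support_iff.2 h1)
    refine ⟨h2, fun j hjl => ?_⟩
    by_cases e : j = j₀ α
    · rw [e]; exact hj₀ α h2
    · exact h3 j (by rintro (h4 | h4); exacts [hjl h4, e h4])
  · rw [map_sub, hR2]; ring

end Pool.Agent.Lib.MP_bc213e_ag.Psef
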