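import Pool.Agent.Lib.MP_bc213e_ag.Psef.Gen
import Pool.Agent.Lib.MP_bc213e_ag.Psef.Cech

/-! The additive Cousin problem with uniform bounds. -/

namespace Pool.Agent.Lib.MP_bc213e_ag.Psef

open WithZero Module Hyp

variable {K ι : Type} [Field K] [Algebra ℂ K] [Fintype ι] {n : ℕ} (S : Su K ι n)

theorem CousA_le {Y : K} (hY : Y ∈ S.V) {v : Val K} (hv : Triv v) : v Y ≤ exp (S.H v) := by
  simpa using S.le_of_mem_pow (μ := 1) (by rwa [pow_one]) hv

omit [Algebra ℂ K] in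
theorem CousA_lt {v : Val K} {z : K} {a : ℤ} (h : v z < exp a) : v z ≤ exp (a - 1) := by
  have := primeExp ((div_lt_one₀ exp_pos).2 h)
  rwa [div_le_iff₀ exp_pos, ← exp_add, neg_add_eq_sub] at this

/-- Gluing on the affine open set `Y ≠ 0`. Sketch: `ξ i = x i / Y` generate the unit ideal of
`B = ℂ[ξ]`, so do the `ξ i ^ N` (`Ideal.span_pow_eq_top`): `∑ a i ξ i ^ N = 1`; take `N` from
`exists_bound` with `w (η i - η j) ≤ exp N` for all `w ∈ W`, `ζ = ∑ a i ξ i ^ N η i`. If `w` is not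
in the chart `j` then `w (ξ j) ≤ exp (-1)`. -/
theorem glue {Y : K} (hY : Y ∈ S.V) (h0 : Y ≠ 0) (c : ℕ) (η : ι → K)
    (h : ∀ i j, ∀ w ∈ S.W, (∀ l, w (S.x l) ≤ w (S.x i)) → (∀ l, w (S.x l) ≤ w (S.x j)) →
      w (η i - η j) ≤ exp (c * S.H w)) :
    ∃ ζ : K, ∀ i, ∀ w ∈ S.W, (∀ l, w (S.x l) ≤ w (S.x i)) → w Y = exp (S.H w) →
      w (ζ - η i) ≤ exp (c * S.H w) := by
  choose N hN using fun p : ι × ι => exists_bound S (D := 0) (by simp) (η p.1 - η p.2)
  obtain ⟨M, hM⟩ := Finite.exists_le N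
  let x' : Option ι → Kˣ := fun o => o.elim (Units.mk0 Y h0) S.x
  let ξ : ι → chart x' none := fun i => ⟨S.x i / Y, Basic_mem x' none (some i)⟩
  have h1 : Ideal.span (Set.range ξ) = ⊤ := by
    obtain ⟨a, ha⟩ := (Submodule.mem_span_range_iff_exists_fun ℂ).1 hY
    refine (Ideal.eq_top_iff_one _).2 (Ideal.mem_span_range_iff_exists_fun.2
      ⟨fun i => algebraMap ℂ _ (a i), Subtype.ext ?_⟩)
    simp only [ξ, AddSubmonoidClass.coe_finsetSum, MulMemClass.coe_mul, OneMemClass.coe_one,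
      Subalgebra.coe_algebraMap, ← mul_div_assoc, ← Finset.sum_div]
    exact (div_eq_one_iff_eq h0).2 (by simpa only [Algebra.smul_def, Su.X] using ha)
  have h2 := (Ideal.eq_top_iff_one _).1 (Ideal.span_pow_eq_top _ h1 M)
  rw [← Set.range_comp, Ideal.mem_span_range_iff_exists_fun] at h2
  obtain ⟨a, ha⟩ := h2
  have ha' : ∑ j, (a j : K) * (S.x j / Y) ^ M = 1 := by simpa [ξ] using congrArg Subtype.val ha
  refine ⟨∑ j, a j * (S.x j / Y) ^ M * η j, fun i w hw hi hw' => ?_⟩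
  have hx : ∀ l, w (S.x l) ≤ exp (S.H w) := fun l => S.exp_H hi ▸ hi l
  rw [← one_mul (η i), ← ha', Finset.sum_mul, ← Finset.sum_sub_distrib]
  refine w.map_sum_le fun j _ => ?_
  have h3 : w (a j) ≤ 1 := Basic_le w (S.triv hw) x' none (fun l => by
    cases l with
    | none => rfl
    | some l => exact (hx l).trans_eq hw'.symm) _ (a j).2
  rw [← mul_sub, map_mul, map_mul, map_pow, map_div₀, hw']
  rcases (hx j).eq_or_lt with e | e
  · rw [e, div_self exp_ne_zero, one_pow, mul_one]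
    exact (mul_le_mul' h3 (h j i w hw (fun l => (hx l).trans_eq e.symm) hi)).trans_eq (one_mul _)
  · refine (mul_le_mul' (mul_le_mul' h3 (pow_le_pow_left₀ zero_le
      (div_le_div_of_nonneg_right (CousA_lt e) zero_le) M)) (hN (j, i) w hw)).trans ?_
    rw [one_mul, ← exp_sub, ← exp_nsmul, ← exp_add, exp_le_exp]
    have := hM (j, i)
    have := mul_nonneg (Nat.cast_nonneg c) (S.H_nonneg w)
    simp only [Pi.zero_apply, nsmul_eq_mul]
    omega

/-- Sketch: `N` from `exists_bound` with `w r ≤ exp N`; if `w Y ≠ exp (H w)` then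
`w Y ≤ exp (H w - 1)`. -/
theorem clear {Y Y' : K} (hY : Y ∈ S.V) (hY' : Y' ∈ S.V) (c : ℕ) {r : K}
    (h : ∀ w ∈ S.W, w Y = exp (S.H w) → w Y' = exp (S.H w) → w r ≤ exp (c * S.H w)) :
    ∃ N : ℕ, (Y * Y') ^ N * r ∈ S.Γ fun w => (c + 2 * N : ℕ) * S.H w := by
  obtain ⟨N, hN⟩ := exists_bound S (D := 0) (by simp) r
  refine ⟨N, fun w hw ht => ?_⟩
  have h1 := CousA_le S hY ht
  have h2 := CousA_le S hY' ht
  have h3 := mul_nonneg (Nat.cast_nonneg c) (S.H_nonneg w)
  have key : ∀ {a b d : ℤ}, w Y ≤ exp a → w Y' ≤ exp b → w r ≤ exp d →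
      N * (a + b) + d ≤ (c + 2 * N : ℕ) * S.H w →
      w ((Y * Y') ^ N * r) ≤ exp ((c + 2 * N : ℕ) * S.H w) := fun ha hb hd e => by
    rw [map_mul, map_pow, map_mul]
    refine (mul_le_mul' (pow_le_pow_left₀ zero_le (mul_le_mul' ha hb) N) hd).trans ?_
    rwa [← exp_add, ← exp_nsmul, ← exp_add, exp_le_exp, nsmul_eq_mul]
  rcases h1.eq_or_lt with e | e
  · rcases h2.eq_or_lt with e' | e'
    · exact key h1 h2 (h w hw e e') (by push_cast; linarith)
    · exact key h1 (CousA_lt e') (hN w hw) (by push_cast; simp only [Pi.zero_apply]; linarith)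
  · exact key (CousA_lt e) h2 (hN w hw) (by push_cast; simp only [Pi.zero_apply]; linarith)

/-- Sketch: take `O` the valuation ring of `v` and `c = hom y l` of maximal value in `Bd`. -/
theorem exists_hom_max {y : Fin n → K} (hy : ∀ l, y l ∈ S.V) (hx : ∀ i, S.X i ∈ Bd y 1) {v : Val K}
    (hv : Triv v) : ∃ l, v (hom y l) = exp (S.H v) := by
  obtain ⟨l, hl⟩ := Finite.exists_max fun l => v (hom y l)
  have h1 : 0 < v (hom y l) := zero_lt_one.trans_le ((map_one v).symm.trans_le (hl none))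
  refine ⟨l, le_antisymm (CousA_le S ?_ hv) ?_⟩
  · cases l with
    | none => exact S.one_mem
    | some l => exact hy l
  · have key : ∀ z, z / hom y l ∈ v.valuationSubring ↔ v z ≤ v (hom y l) := fun z => by
      rw [Valuation.mem_valuationSubring_iff, map_div₀, div_le_one₀ h1]
    have := hx (S.ctr v) v.valuationSubring (hom y l) hv ((map_ne_zero v).1 h1.ne')
      (by rw [← one_div]; exact (key 1).2 (hl none)) fun j => (key _).2 (hl (some j))
    rw [pow_one, key] at this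
    exact S.exp_H (S.ctr_max v) ▸ this

/-- Coordinates by traces. Sketch: `F = ℂ(y)`, any `F`-basis of `K` multiplied by a common
denominator (`den_fin`) is a basis `B` inside `V ^ b`; `t i r = trace (r * B i)`, `z` the trace dual
basis (`Module.Basis.traceDual`), `e` a common denominator of `z` (`den_fin`); `Γ_le_Bd`,
`Bd_le_Bd`, `kl_trace`; the trace is `F`-linear. -/
theorem exists_coord {y : Fin n → K} (hy : IsTranscendenceBasis ℂ y) (hx : ∀ i, S.X i ∈ Bd y 1) :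
    ∃ (d b c₁ : ℕ) (t : Fin d → K →+ K) (z : Fin d → K) (e : K), e ≠ 0 ∧ e ∈ S.V ^ c₁ ∧
      (∀ i, e * z i ∈ S.V ^ c₁) ∧ (∀ r, r = ∑ i, t i r * z i) ∧
      (∀ i (p : MvPolynomial (Fin n) ℂ) r,
        t i (MvPolynomial.aeval y p * r) = MvPolynomial.aeval y p * t i r) ∧
      ∀ i (μ : ℕ) r, (r ∈ S.Γ fun w => μ * S.H w) → ∃ p : MvPolynomial (Fin n) ℂ,
        p.totalDegree ≤ μ + b ∧ MvPolynomial.aeval y p = t i r := by
  classical
  have := fd_of_gen S.X S.gen y hy
  set F := IntermediateField.adjoin ℂ (Set.range y) with hF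
  have : CharZero F := algebraRat.charZero _
  let B := Module.finBasis F K
  obtain ⟨b, d₀, -, hd₀, hB⟩ := den_fin S.V S.one_mem S.den B
  obtain ⟨c₁, e, he1, he0, he⟩ := den_fin S.V S.one_mem S.den fun i => d₀⁻¹ * B.traceDual i
  let t : Fin (finrank F K) → K →+ K := fun i =>
    { toFun := fun r => ((Algebra.trace F K (r * (d₀ * B i)) : F) : K)
      map_zero' := by rw [zero_mul, map_zero]; rfl
      map_add' := fun r s => by rw [add_mul, map_add]; rfl }
  have ht : ∀ i r, t i r = ((Algebra.trace F K (r * (d₀ * B i)) : F) : K) := fun i r => rfl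
  refine ⟨finrank F K, b, c₁, t, fun i => d₀⁻¹ * B.traceDual i, e, he0, he1, he, fun r => ?_,
    fun i p r => ?_, fun i μ r hr => ?_⟩
  · have h1 := B.traceDual.sum_repr (r * d₀)
    have h2 : r = d₀⁻¹ * (r * d₀) := by field_simp
    conv_lhs => rw [h2, ← h1, Finset.mul_sum]
    refine Finset.sum_congr rfl fun i _ => ?_
    rw [Module.Basis.traceDual_repr_apply, Algebra.traceForm_apply, ht, mul_assoc r,
      Algebra.smul_def, mul_left_comm]
    rfl
  · have hp : MvPolynomial.aeval y p ∈ F := IntermediateField.algebra_adjoin_le_adjoin ℂ _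
      (by rw [Algebra.adjoin_range_eq_range_aeval]; exact ⟨p, rfl⟩)
    have h1 : MvPolynomial.aeval y p * r * (d₀ * B i) = (⟨_, hp⟩ : F) • (r * (d₀ * B i)) := by
      rw [mul_assoc]
      rfl
    rw [ht, ht, h1, map_smul]
    rfl
  · exact kl_trace y hy.1 (mul_mem_Bd y (Bd_le_Bd S.X y hx μ (S.Γ_le_Bd μ hr))
      (Bd_le_Bd S.X y hx b (span_pow_le_Bd S.X b (hB i))))

/-- Sketch: `y` from `nn`, `ζ l` from `glue` for `Y = hom y l`; `clear`, `exists_coord`, `mem_lau`
show `t i (ζ l) - t i (ζ m) ∈ Lau y (c + b) {l, m}`; `cech` gives `q i`; `ζ = ∑ q i * z i`;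
`lau_le`, `exists_hom_max`; finally `hart`. -/
theorem cousin : ∃ (e : K) (c₁ : ℕ), e ≠ 0 ∧ (∀ v, Triv v → v e ≤ exp (c₁ * S.H v)) ∧
    ∀ (c : ℕ) (η : ι → K),
      (∀ i j, ∀ w ∈ S.W, (∀ l, w (S.x l) ≤ w (S.x i)) → (∀ l, w (S.x l) ≤ w (S.x j)) →
        w (η i - η j) ≤ exp (c * S.H w)) →
      ∃ ζ : K, ∀ i (v : Val K), Triv v → (∀ l, v (S.x l) ≤ v (S.x i)) →
        v (e * (ζ - η i)) ≤ exp ((c + c₁ : ℕ) * S.H v) := by
  classical
  obtain ⟨y, hyV, hy, hx⟩ := nn S.X S.gen S.dim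
  obtain ⟨d, b, c₁, t, z, e, he0, he1, hez, hsum, hlin, hpol⟩ := exists_coord S hy hx
  have hy0 : ∀ a, y a ≠ 0 := fun a => hy.1.ne_zero a
  have hV : ∀ l, hom y l ∈ S.V := fun l => by
    cases l with
    | none => exact S.one_mem
    | some a => exact hyV a
  have h0 : ∀ l, hom y l ≠ 0 := fun l => by
    cases l with
    | none => exact one_ne_zero
    | some a => exact hy0 a
  have hP : ∀ l, ∃ p : MvPolynomial (Fin n) ℂ, MvPolynomial.aeval y p = hom y l := fun l => by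
    cases l with
    | none => exact ⟨1, map_one _⟩
    | some a => exact ⟨MvPolynomial.X a, MvPolynomial.aeval_X _ _⟩
  have hmono : ∀ (v : Val K) {a a' : ℕ}, a ≤ a' →
      exp ((a : ℤ) * S.H v) ≤ exp ((a' : ℤ) * S.H v) := fun v a a' h =>
    exp_le_exp.2 (mul_le_mul_of_nonneg_right (by exact_mod_cast h) (S.H_nonneg v))
  refine ⟨e, b + c₁, he0, fun v hv => (S.le_of_mem_pow he1 hv).trans (hmono v (by omega)),
    fun c η h => ?_⟩
  choose ζ hζ using fun l => glue S (hV l) (h0 l) c η h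
  have hlau : ∀ i l m, t i (ζ l) - t i (ζ m) ∈ Lau y (c + b) {l, m} := by
    intro i l m
    obtain ⟨N, hN⟩ := clear S (hV l) (hV m) c (r := ζ l - ζ m) fun w hw h1 h2 => by
      rw [← sub_sub_sub_cancel_right (ζ l) (ζ m) (η (S.ctr w))]
      exact w.map_sub_le (hζ l _ w hw (S.ctr_max w) h1) (hζ m _ w hw (S.ctr_max w) h2)
    obtain ⟨p, hp1, hp2⟩ := hpol i _ _ hN
    obtain ⟨pl, hl⟩ := hP l
    obtain ⟨pm, hm⟩ := hP m
    have h1 := hlin i ((pl * pm) ^ N) (ζ l - ζ m)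
    rw [map_pow, map_mul (MvPolynomial.aeval y), hl, hm, ← hp2, map_sub] at h1
    have h2 := mem_lau hy0 (c := c + b) (N := N) (p := p) (by omega) l m
    rwa [h1, mul_div_cancel_left₀ _ (pow_ne_zero _ (mul_ne_zero (h0 l) (h0 m)))] at h2
  choose q hq using fun i => cech hy.1 (c + b) (fun l => t i (ζ l)) (hlau i)
  refine ⟨∑ i, q i * z i, fun i v hv hi => hart S (fun w hw hi => ?_) hv hi⟩
  have hw' := S.triv hw
  obtain ⟨l, hl⟩ := exists_hom_max S hyV hx hw'
  have hmax : ∀ j, w (hom y j) ≤ w (hom y l) := fun j => by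
    have := S.le_of_mem_pow (μ := 1) (r := hom y j) (by rw [pow_one]; exact hV j) hw'
    rwa [Nat.cast_one, one_mul, ← hl] at this
  have h1 : e * (∑ i, q i * z i - η i) =
      e * (ζ l - η i) - ∑ j, (t j (ζ l) - q j) * (e * z j) := by
    have h2 : ∑ j, (t j (ζ l) - q j) * (e * z j) = e * (ζ l - ∑ i, q i * z i) := by
      conv_rhs => rw [hsum (ζ l), ← Finset.sum_sub_distrib, Finset.mul_sum]
      exact Finset.sum_congr rfl fun j _ => by ring
    rw [h2]
    ring
  rw [h1]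
  refine w.map_sub_le ?_ (w.map_sum_le fun j _ => ?_)
  · rw [map_mul]
    refine (mul_le_mul' (S.le_of_mem_pow he1 hw') (hζ l i w hw hi hl)).trans ?_
    rw [← exp_add, ← add_mul, ← Nat.cast_add]
    exact hmono w (by omega)
  · rw [map_mul]
    refine (mul_le_mul' (lau_le hy0 (hq j l) hw' hmax) (S.le_of_mem_pow (hez j) hw')).trans ?_
    rw [hl, ← exp_nsmul, nsmul_eq_mul, ← exp_add, ← add_mul, ← Nat.cast_add]
    exact hmono w (by omega)

end Pool.Agent.Lib.MP_bc213e_ag.Psef
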