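import Pool.Agent.Lib.MP_bc213e_ag.Hyp.Defs

/-! `ℚ`-factorial affine varieties. -/

namespace Pool.Agent.Lib.MP_bc213e_ag.Psef

open WithZero Hyp

variable {K : Type} [Field K] [Algebra ℂ K]

/-- Every prime divisor of `Spec A` is `ℚ`-Cartier: some symbolic power of its ideal is an
invertible fractional ideal. -/
def QFactorial (A : Subalgebra ℂ K) : Prop :=
  ∀ w, PrimeDiv A w → ∃ r : ℕ, 0 < r ∧
    IsUnit (Submodule.span A {a : K | a ∈ A ∧ w a ≤ exp (-(r : ℤ))})

end Pool.Agent.Lib.MP_bc213e_ag.Psef
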