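import Pool.Agent.Lib.MP_bc213e_ag.Psef.Gen

/-! Derivations and valuations. -/

namespace Pool.Agent.Lib.MP_bc213e_ag.Psef

open WithZero Module Hyp

variable {K ι : Type} [Field K] [Algebra ℂ K] {n : ℕ}

/-- `K` as a module over itself through `φ`. -/
def DerA_Tw (_φ : K →ₐ[ℂ] K) : Type := K

instance (φ : K →ₐ[ℂ] K) : AddCommGroup (DerA_Tw φ) := inferInstanceAs (AddCommGroup K)

instance (φ : K →ₐ[ℂ] K) : Module ℂ (DerA_Tw φ) := inferInstanceAs (Module ℂ K)

instance (φ : K →ₐ[ℂ] K) : Module K (DerA_Tw φ) := Module.compHom K φ.toRingHom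

instance (φ : K →ₐ[ℂ] K) : IsScalarTower ℂ K (DerA_Tw φ) :=
  ⟨fun c x (y : K) => by
    change φ (c • x) * y = c • (φ x * y)
    rw [map_smul, smul_mul_assoc]⟩

theorem DerA_zero (τ : Fin n → K) (hτ : IsTranscendenceBasis ℂ τ) (φ : K →ₐ[ℂ] K)
    (L : K →ₗ[ℂ] K) (hL : ∀ u v, L (u * v) = φ u * L v + φ v * L u) (h : ∀ a, L (τ a) = 0)
    (u : K) : L u = 0 := by
  let L' : K →ₗ[ℂ] DerA_Tw φ := L
  let δ : Derivation ℂ K (DerA_Tw φ) := Derivation.mk' L' hL
  exact congrArg (fun δ : Derivation ℂ K (DerA_Tw φ) => δ u) (TCI.der_eq_zero τ hτ δ h)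

theorem DerA_aeval_le {τ : Fin n → K} {v : Val K} (hv : Triv v) (h1 : ∀ a, v (τ a) ≤ 1)
    (ρ : MvPolynomial (Fin n) ℂ) : v (MvPolynomial.aeval τ ρ) ≤ 1 := by
  induction ρ using MvPolynomial.induction_on with
  | C c => rw [MvPolynomial.aeval_C]; exact hv c
  | add p q hp hq => rw [map_add]; exact v.map_add_le hp hq
  | mul_X p s hp =>
    rw [map_mul, MvPolynomial.aeval_X, map_mul]
    exact mul_le_one' hp (h1 s)

theorem DerA_der_aeval {τ : Fin n → K} {D : Fin n → Derivation ℂ K K}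
    (hD : ∀ a b, D a (τ b) = if a = b then 1 else 0) (a : Fin n) (ρ : MvPolynomial (Fin n) ℂ) :
    D a (MvPolynomial.aeval τ ρ) = MvPolynomial.aeval τ (MvPolynomial.pderiv a ρ) := by
  induction ρ using MvPolynomial.induction_on with
  | C c => simp
  | add p q hp hq => simp only [map_add, hp, hq]
  | mul_X p s hp =>
    simp only [map_mul, Derivation.leibniz, smul_eq_mul, map_add, hp, MvPolynomial.aeval_X, hD,
      MvPolynomial.pderiv_X, Pi.single_apply, apply_ite (MvPolynomial.aeval τ), map_one, map_zero,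
      eq_comm (a := s)]

/-- Chain rule. Sketch: `TCI.der_eq_zero` for `K` as an algebra over itself through `φ`, or
`Hyp.Jac_zero` as in the proof of `Hyp.jac_comp`. -/
theorem chain {τ : Fin n → K} (hτ : IsTranscendenceBasis ℂ τ) {D : Fin n → Derivation ℂ K K}
    (hD : ∀ a b, D a (τ b) = if a = b then 1 else 0) (φ : K →ₐ[ℂ] K) (a : Fin n) (u : K) :
    D a (φ u) = ∑ b, D a (φ (τ b)) * φ (D b u) := by
  have e : ∀ v, ((D a : K →ₗ[ℂ] K) ∘ₗ φ.toLinearMap -
      ∑ b, D a (φ (τ b)) • (φ.toLinearMap ∘ₗ (D b : K →ₗ[ℂ] K))) v =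
      D a (φ v) - ∑ b, D a (φ (τ b)) * φ (D b v) := fun v => by
    rw [LinearMap.sub_apply, LinearMap.sum_apply]
    rfl
  refine sub_eq_zero.1 ((e u).symm.trans (DerA_zero τ hτ φ _ (fun x y => ?_) (fun c => ?_) u))
  · simp only [e, map_mul, map_add, Derivation.leibniz, smul_eq_mul, mul_add, mul_sub,
      Finset.sum_add_distrib, Finset.mul_sum, mul_left_comm (D a (φ (τ _)))]
    ring
  · simp [e, hD, apply_ite φ]

/-- A nontrivial valuation is nontrivial on `ℂ[τ]`. Sketch: `π` is algebraic over `ℂ[τ]`; take a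
relation `∑ ρ j (τ) π ^ j = 0` with `ρ 0 ≠ 0`. -/
theorem exists_poly_lt {τ : Fin n → K} (hτ : IsTranscendenceBasis ℂ τ) {v : Val K} (hv : Triv v)
    (h1 : ∀ a, v (τ a) ≤ 1) {π : K} (h0 : π ≠ 0) (hπ : v π < 1) :
    ∃ ρ : MvPolynomial (Fin n) ℂ, ρ ≠ 0 ∧ v (MvPolynomial.aeval τ ρ) < 1 := by
  have hA : ∀ r : Algebra.adjoin ℂ (Set.range τ), ∃ ρ : MvPolynomial (Fin n) ℂ,
      MvPolynomial.aeval τ ρ = (r : K) := fun r =>
    (Algebra.adjoin_range_eq_range_aeval ℂ τ).le r.2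
  obtain ⟨t, ht, r, hr, e⟩ := (hτ.isAlgebraic.isAlgebraic π).exists_nonzero_eq_adjoin_mul
    (mem_nonZeroDivisors_of_ne_zero h0)
  have h2 : v t ≤ 1 := by
    clear e
    induction ht using Algebra.adjoin_induction with
    | mem x hx => rw [Set.mem_singleton_iff.1 hx]; exact hπ.le
    | algebraMap r =>
      obtain ⟨ρ, hρ⟩ := hA r
      exact (congrArg v hρ).ge.trans (DerA_aeval_le hv h1 ρ)
    | add x y _ _ hx hy => exact v.map_add_le hx hy
    | mul x y _ _ hx hy => rw [map_mul]; exact mul_le_one' hx hy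
  obtain ⟨ρ, hρ⟩ := hA r
  refine ⟨ρ, fun h => hr (Subtype.ext ?_), ?_⟩
  · rw [← hρ, h, map_zero]
    rfl
  · rw [hρ, show (r : K) = π * t from e.symm, map_mul]
    exact (mul_le_of_le_one_right' h2).trans_lt hπ

/-- The differential of a uniformiser does not vanish. Sketch: take `ρ` of least total degree in
`exists_poly_lt`; it is not constant, so some `pderiv a ρ` is nonzero of smaller degree and
`v (D a (ρ τ)) = 1`; write `ρ τ = π ^ k * u`, `k ≥ 1`, `v u = 1`. -/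
theorem exists_der_unit {τ : Fin n → K} (hτ : IsTranscendenceBasis ℂ τ)
    {D : Fin n → Derivation ℂ K K} (hD : ∀ a b, D a (τ b) = if a = b then 1 else 0) {v : Val K}
    (hv : Triv v) (h1 : ∀ a, v (τ a) ≤ 1) (hO : ∀ z, v z ≤ 1 → ∀ a, v (D a z) ≤ 1) {π : K}
    (h0 : π ≠ 0) (hπ : v π < 1) (gen : ∀ z, z ≠ 0 → ∃ k : ℤ, v z = v π ^ k) :
    ∃ a, v (D a π) = 1 := by
  classical
  have hex : ∃ d, ∃ ρ : MvPolynomial (Fin n) ℂ, ρ.totalDegree = d ∧ ρ ≠ 0 ∧
      v (MvPolynomial.aeval τ ρ) < 1 :=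
    let ⟨ρ, h⟩ := exists_poly_lt hτ hv h1 h0 hπ
    ⟨_, ρ, rfl, h⟩
  obtain ⟨ρ, hd, hρ0, hρ⟩ := Nat.find_spec hex
  obtain ⟨μ, hμ, hμ0⟩ : ∃ μ ∈ ρ.support, μ ≠ 0 := by
    by_contra hne
    push Not at hne
    have e : ρ = MvPolynomial.C (MvPolynomial.coeff 0 ρ) := by
      ext ν
      rw [MvPolynomial.coeff_C]
      split_ifs with h
      · rw [h]
      · by_contra h2
        exact h (hne ν (MvPolynomial.mem_support_iff.2 h2)).symm
    have hc : MvPolynomial.coeff 0 ρ ≠ 0 := fun h => hρ0 (by rw [e, h, map_zero])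
    rw [e, MvPolynomial.aeval_C] at hρ
    have h2 := mul_le_of_le_one_right' (a := v (algebraMap ℂ K (MvPolynomial.coeff 0 ρ)))
      (hv (MvPolynomial.coeff 0 ρ)⁻¹)
    rw [← map_mul, ← map_mul, mul_inv_cancel₀ hc, map_one, map_one] at h2
    exact absurd hρ (not_lt.2 h2)
  obtain ⟨a, ha⟩ : ∃ a, μ a ≠ 0 := by
    by_contra hne
    push Not at hne
    exact hμ0 (Finsupp.ext hne)
  have p0 : MvPolynomial.pderiv a ρ ≠ 0 := fun h => by
    have h2 := MvPolynomial.coeff_pderiv (i := a) ρ (μ - Finsupp.single a 1)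
    rw [h, MvPolynomial.coeff_zero, Finsupp.sub_add_single_one_cancel ha] at h2
    exact mul_ne_zero (MvPolynomial.mem_support_iff.1 hμ) (Nat.cast_add_one_ne_zero _) h2.symm
  have p1 : (MvPolynomial.pderiv a ρ).totalDegree < ρ.totalDegree := by
    obtain ⟨ν, hν, e⟩ := Finset.exists_mem_eq_sup _ (MvPolynomial.support_nonempty.2 p0)
      fun s : Fin n →₀ ℕ => s.sum fun _ e => e
    have h2 : ν + Finsupp.single a 1 ∈ ρ.support := by
      rw [MvPolynomial.mem_support_iff] at hν ⊢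
      rw [MvPolynomial.coeff_pderiv] at hν
      exact left_ne_zero_of_mul hν
    have h3 := MvPolynomial.le_totalDegree h2
    rw [Finsupp.sum_add_index' (fun _ => rfl) (fun _ _ _ => rfl), Finsupp.sum_single_index rfl]
      at h3
    rw [MvPolynomial.totalDegree, e]
    omega
  have p2 : ¬ v (D a (MvPolynomial.aeval τ ρ)) < 1 := fun h => by
    rw [DerA_der_aeval hD] at h
    exact Nat.find_min hex (hd ▸ p1) ⟨_, rfl, p0, h⟩
  have z0 : MvPolynomial.aeval τ ρ ≠ 0 := fun h => hρ0 (hτ.1 (by rw [h, map_zero]))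
  generalize MvPolynomial.aeval τ ρ = z at hρ p2 z0
  obtain ⟨k, hk⟩ := gen z z0
  have v0 : 0 < v π := zero_lt_iff.2 ((map_ne_zero v).2 h0)
  have k0 : 0 < k := by
    rw [hk] at hρ
    exact (zpow_lt_one_iff_right_of_lt_one₀ v0 hπ).1 hρ
  have hu : v (z / π) ≤ 1 := by
    rw [map_div₀, hk, div_eq_mul_inv, ← zpow_sub_one₀ v0.ne']
    exact zpow_le_one₀ v0 hπ.le (by omega)
  refine ⟨a, le_antisymm (hO π hπ.le a) (not_lt.1 fun h => p2 ?_)⟩
  have e : z = π * (z / π) := (mul_div_cancel₀ z h0).symm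
  rw [e, Derivation.leibniz, smul_eq_mul, smul_eq_mul]
  refine v.map_add_lt ?_ ?_
  · rw [map_mul]
    exact (mul_le_of_le_one_right' (hO _ hu a)).trans_lt hπ
  · rw [map_mul]
    exact (mul_le_of_le_one_left' hu).trans_lt h

/-- Sketch: `y = π ^ 2 * y'`. -/
theorem der_lt_one (δ : Derivation ℂ K K) {w : Val K} (hw : ∃ π, w π = exp (-1))
    (hO : ∀ z, w z ≤ 1 → w (δ z) ≤ 1) {y : K} (hy : w y ≤ exp (-2)) : w (δ y) < 1 := by
  obtain ⟨π, hπ⟩ := hw
  have h1 : w π < 1 := by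
    rw [hπ, ← exp_zero, exp_lt_exp]
    norm_num
  have h0 : π ≠ 0 := fun h => by
    rw [h, map_zero] at hπ
    exact exp_ne_zero hπ.symm
  have h2 : w (y / π) < 1 := by
    rw [map_div₀, hπ, div_lt_one₀ exp_pos]
    exact hy.trans_lt (exp_lt_exp.2 (by norm_num))
  have e : y = π * (y / π) := (mul_div_cancel₀ y h0).symm
  rw [e, Derivation.leibniz, smul_eq_mul, smul_eq_mul]
  refine w.map_add_lt ?_ ?_
  · rw [map_mul]
    exact (mul_le_of_le_one_right' (hO _ h2.le)).trans_lt h1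
  · rw [map_mul]
    exact (mul_le_of_le_one_right' (hO _ h1.le)).trans_lt h2

variable [Fintype ι] (S : Su K ι n) (D : Fin n → Derivation ℂ K K)

/-- `e • D a` maps functions to sections of `c H`. -/
def DB (e : K) (c : ℕ) : Prop :=
  (∀ v, Triv v → v e ≤ exp (c * S.H v)) ∧ ∀ a i, ∀ r ∈ chart S.x i, ∀ v : Val K, Triv v →
    (∀ j, v (S.x j) ≤ v (S.x i)) → v (e * D a r) ≤ exp (c * S.H v)

/-- Sketch: `den_fin` for the family `D a (x j / x i)`; `Algebra.adjoin_induction`,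
`le_of_mem_pow`. -/
theorem exists_DB : ∃ (e : K) (c : ℕ), e ≠ 0 ∧ DB S D e c := by
  obtain ⟨b, d, h1, h0, h⟩ := den_fin S.V S.one_mem S.den
    fun t : Fin n × ι × ι => D t.1 ((S.x t.2.2 : K) / S.x t.2.1)
  refine ⟨d, b, h0, fun v hv => S.le_of_mem_pow h1 hv, fun a i r hr v hv hi => ?_⟩
  induction hr using Algebra.adjoin_induction with
  | mem r hr =>
    obtain ⟨l, rfl⟩ := hr
    exact S.le_of_mem_pow (h (a, i, l)) hv
  | algebraMap z => simp
  | add p q _ _ hp hq =>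
    rw [map_add, mul_add]
    exact (v.map_add _ _).trans (max_le hp hq)
  | mul p q hp' hq' hp hq =>
    have : d * D a (p * q) = p * (d * D a q) + q * (d * D a p) := by
      rw [Derivation.leibniz, smul_eq_mul, smul_eq_mul]
      ring
    rw [this]
    refine (v.map_add _ _).trans (max_le ?_ ?_) <;> rw [map_mul]
    · exact (mul_le_of_le_one_left' (Basic_le v hv S.x i hi p hp')).trans hq
    · exact (mul_le_of_le_one_left' (Basic_le v hv S.x i hi q hq')).trans hp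

variable {S D} {e : K} {c : ℕ}

theorem DB.frac (h : DB S D e c) {v : Val K} (hv : Triv v) {i : ι}
    (hi : ∀ j, v (S.x j) ≤ v (S.x i)) {p q : K} (hp : p ∈ chart S.x i) (hq : q ∈ chart S.x i)
    (h1 : v q = 1) (a : Fin n) : v (e * D a (p / q)) ≤ exp (c * S.H v) := by
  have : e * D a (p / q) = q⁻¹ ^ 2 * (q * (e * D a p) - p * (e * D a q)) := by
    rw [Derivation.leibniz_div]
    simp only [smul_eq_mul]
    ring
  rw [this, map_mul, map_pow, map_inv₀, h1, inv_one, one_pow, one_mul]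
  refine (v.map_sub _ _).trans (max_le ?_ ?_) <;> rw [map_mul]
  · rw [h1, one_mul]
    exact h.2 a i p hp v hv hi
  · exact (mul_le_of_le_one_left' (Basic_le v hv S.x i hi p hp)).trans (h.2 a i q hq v hv hi)

theorem DB.loc (h : DB S D e c) {w : Val K} (hw : w ∈ S.W) {z : K} (hz : w z ≤ 1) (a : Fin n) :
    w (e * D a z) ≤ exp (c * S.H w) := by
  obtain ⟨i, hi⟩ := hw
  obtain ⟨b, hb, h1, h2⟩ := hi.2.2 z hz
  have h0 : b ≠ 0 := by
    rintro rfl
    simp at h1
  have := h.frac hi.triv ((chart_le_iff S.x i hi.triv).1 hi.2.1) h2 hb h1 a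
  rwa [mul_div_cancel_left₀ z h0] at this

/-- Sketch: `g = π ^ k * u`, `k = - log (w g)`, `w u = 1`; `Derivation.leibniz_zpow`. -/
theorem DB.dlog (h : DB S D e c) {w : Val K} (hw : w ∈ S.W) {π : K} (hπ : w π = exp (-1)) {g : K}
    (hg : g ≠ 0) (a : Fin n) :
    w (e * (D a g / g + ((log (w g) : ℤ) : K) * (D a π / π))) ≤ exp (c * S.H w) := by
  have h0 : π ≠ 0 := by
    rintro rfl
    rw [map_zero] at hπ
    exact exp_ne_zero hπ.symm
  have hw0 : w g ≠ 0 := (map_ne_zero w).2 hg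
  obtain ⟨k, hk⟩ : ∃ k : ℤ, log (w g) = k := ⟨_, rfl⟩
  have hu : w (g * π ^ k) = 1 := by
    rw [map_mul, map_zpow₀, hπ, ← exp_log hw0, hk, ← exp_zsmul, ← exp_add]
    simp
  have : e * (D a g / g + (k : K) * (D a π / π)) = e * D a (g * π ^ k) / (g * π ^ k) := by
    have := zpow_ne_zero k h0
    rw [Derivation.leibniz, Derivation.leibniz_zpow, zpow_sub_one₀ h0]
    simp only [smul_eq_mul, zsmul_eq_mul]
    field_simp
    ring
  rw [hk, this, map_div₀, hu, div_one]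
  exact h.loc hw hu.le a

end Pool.Agent.Lib.MP_bc213e_ag.Psef
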