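import Pool.Agent.Lib.MP_bc213e_ag.Psef.ADefs
import Pool.Agent.Lib.MP_bc213e_ag.Hyp.Main1

/-! Pull-backs of pencils are small. -/

namespace Pool.Agent.Lib.MP_bc213e_ag.Psef

open WithZero Module Hyp

variable {K ι : Type} [Field K] [Algebra ℂ K] [Fintype ι] {n : ℕ}

/-- The polar divisor of a pencil. -/
noncomputable def pen (u₀ u₁ : K) (w : Val K) : ℤ := max (log (w u₀)) (log (w u₁))

omit [Algebra ℂ K] in
theorem Est_log {u : K} (hu : u ≠ 0) (w : Val K) : exp (log (w u)) = w u :=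
  exp_log ((map_ne_zero w).2 hu)

/-- Port of `Su.main1_lb` with `E = pen u₀ u₁`. -/
theorem est_lb (S : Su K ι n) {T c q ρ : ℕ} (hρ : 0 < ρ) {u₀ u₁ : K} (h₀ : u₀ ≠ 0) (h₁ : u₁ ≠ 0)
    (H : (S.Γ fun w => (q * ρ : ℕ) * S.H w - (c * ρ + 1 : ℕ) * pen u₀ u₁ w) = ⊥) :
    T * (q * ρ) ^ n ≤ (c + 1) * n ^ n * finrank ℂ
      ↥((S.Γ fun w => (q * ρ : ℕ) * S.H w) * Submodule.span ℂ {u₀, u₁} ^ (T * ρ)) := by
  obtain ⟨B, hB⟩ := S.dim_le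
  have : FiniteDimensional ℂ (Gam S.W fun w => (q * ρ : ℕ) * S.H w) := (hB _).1
  have h1 := lb (W := S.W) (D := fun w => (q * ρ : ℕ) * S.H w) (E := pen u₀ u₁) h₀ h₁
    (fun w _ _ => (Est_log h₀ w).ge.trans (exp_le_exp.2 (le_max_left _ _)))
    (fun w _ _ => (Est_log h₁ w).ge.trans (exp_le_exp.2 (le_max_right _ _)))
    (fun w _ _ => by
      rcases le_total (log (w u₁)) (log (w u₀)) with h | h
      · exact Or.inl (by rw [pen, max_eq_left h, Est_log h₀])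
      · exact Or.inr (by rw [pen, max_eq_right h, Est_log h₁])) (c * ρ + 1) (T * ρ) H
  have h2 := S.le_dim (q * ρ)
  change (T * ρ + 1) * finrank ℂ (S.Γ fun w => (q * ρ : ℕ) * S.H w) ≤ (c * ρ + 1) * finrank ℂ
    ↥((S.Γ fun w => (q * ρ : ℕ) * S.H w) * Submodule.span ℂ {u₀, u₁} ^ (T * ρ)) at h1
  generalize finrank ℂ (S.Γ fun w => (q * ρ : ℕ) * S.H w) = d at h1 h2
  generalize finrank ℂ ↥((S.Γ fun w => (q * ρ : ℕ) * S.H w) *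
    Submodule.span ℂ {u₀, u₁} ^ (T * ρ)) = d' at h1 ⊢
  refine Nat.le_of_mul_le_mul_left ?_ hρ
  calc ρ * (T * (q * ρ) ^ n) ≤ ρ * (T * (n ^ n * d)) := by gcongr
    _ ≤ n ^ n * ((T * ρ + 1) * d) := by nlinarith [Nat.zero_le (n ^ n * d)]
    _ ≤ n ^ n * ((c * ρ + 1) * d') := by gcongr
    _ ≤ n ^ n * ((c * ρ + ρ) * d') := by gcongr; exact hρ
    _ = ρ * ((c + 1) * n ^ n * d') := by ring

namespace Ps

variable (P : Ps K ι n)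

theorem Est_sig {c₂ N a b : ℕ} (hb : b ≤ a + 1) {σ s : K}
    (hσ : ∀ (t a : ℕ) (s : K), s ∈ P.L t a →
      σ ^ t * s ∈ P.S.Γ fun w => (c₂ * t + a : ℕ) * P.S.H w)
    (hs : s ∈ P.L (N * (a + 1)) (N * b)) :
    σ ^ (N * (a + 1)) * s ∈ P.S.Γ fun w => ((c₂ + 1) * (N * (a + 1)) : ℕ) * P.S.H w := by
  refine Gam_mono (fun w _ _ => ?_) (hσ _ _ s hs)
  refine mul_le_mul_of_nonneg_right (Int.ofNat_le.2 ?_) (P.S.H_nonneg w)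
  rw [add_mul c₂, one_mul]
  exact Nat.add_le_add_left (Nat.mul_le_mul_left N hb) _

theorem Est_two {k c₂ N a : ℕ} {σ z s : K}
    (hσ : ∀ (t a : ℕ) (s : K), s ∈ P.L t a →
      σ ^ t * s ∈ P.S.Γ fun w => (c₂ * t + a : ℕ) * P.S.H w)
    (hz : ∀ (t b : ℕ) (s : K), s ∈ P.L t b → P.pb (2 * k) t s * z ^ b ∈ P.L t (b * a))
    (hs : s ∈ P.L (N * (a + 1)) N) :
    P.hh k ^ (N * (a + 1)) * z ^ N * σ ^ (N * (a + 1)) *
      (P.S.φ ^ k) (P.pb k (N * (a + 1)) s) ∈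
      P.S.Γ fun w => ((c₂ + 1) * (N * (a + 1)) : ℕ) * P.S.H w := by
  have h1 := P.Est_sig (Nat.le_succ a) hσ (hz _ _ s hs)
  have h2 : P.hh k ^ (N * (a + 1)) * z ^ N * σ ^ (N * (a + 1)) *
      (P.S.φ ^ k) (P.pb k (N * (a + 1)) s) =
      σ ^ (N * (a + 1)) * (P.pb (2 * k) (N * (a + 1)) s * z ^ N) := by
    rw [two_mul, P.pb_add, pb.eq_1 P k _ (P.pb k _ s)]
    ring
  rwa [h2]

/-- Port of `Su.est`: `a, z` from `pull_iter (2 k)`, `t = a + 1`, `c₂, σ` from `exists_σ`,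
`pb (2 k) = pb k ∘ pb k`. -/
theorem est : ∃ C₁ : ℕ, ∀ k : ℕ, ∃ t : ℕ, 0 < t ∧ ∀ (T c N ρ : ℕ) (s₀ s₁ : K), 0 < T → 0 < N →
    0 < ρ → s₀ ≠ 0 → s₁ ≠ 0 → s₀ ∈ P.L (N * t) N → s₁ ∈ P.L (N * t) N →
    (P.S.Γ fun w => (N * t * ρ : ℕ) * P.S.H w -
      (c * ρ + 1 : ℕ) * pen (P.pb k (N * t) s₀) (P.pb k (N * t) s₁) w) = ⊥ →
      T * (N * t * ρ) ^ n * dm P.S.V (P.S.φ ^ (2 * k)) (T * (N * t * ρ)) (T * (N * t * ρ)) ≤
        (c + 1) * n ^ n * (dm P.S.V (P.S.φ ^ k) (C₁ * (N * t * ρ)) (C₁ * T * (N * t * ρ)) *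
          dm P.S.V (P.S.φ ^ k) (C₁ * T * (N * t * ρ)) (C₁ * (N * t * ρ))) := by
  obtain ⟨e, c₀, he0, he⟩ := P.S.cond
  obtain ⟨c₂, σ, hσ0, -, hσ⟩ := P.exists_σ
  refine ⟨c₂ + 2 + c₀, fun k => ?_⟩
  obtain ⟨a, z, hz0, hz⟩ := P.pull_iter (2 * k)
  refine ⟨a + 1, a.succ_pos, fun T c N ρ s₀ s₁ hT hN hρ h₀ h₁ m₀ m₁ H => ?_⟩
  have hh0 : P.hh k ^ (N * (a + 1)) ≠ 0 := pow_ne_zero _ (P.hh_ne k)
  have h1 := est_lb P.S (T := T) hρ (P.pb_ne k _ h₀) (P.pb_ne k _ h₁) H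
  have q1 := P.S.pencil_pow_mem he
    (P.Est_sig (Nat.le_add_left 1 a) hσ (by rwa [mul_one]) (s := s₀))
    (P.Est_sig (Nat.le_add_left 1 a) hσ (by rwa [mul_one]) (s := s₁)) (T * ρ)
  have q2 := P.S.pencil_pow_mem he (P.Est_two hσ hz m₀) (P.Est_two hσ hz m₁) (T * ρ)
  have hq0 : 0 < N * (a + 1) := by positivity
  generalize N * (a + 1) = q at *
  have hu₀ : P.pb k q s₀ = (P.S.φ ^ k) s₀ * P.hh k ^ q := rfl
  have hu₁ : P.pb k q s₁ = (P.S.φ ^ k) s₁ * P.hh k ^ q := rfl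
  generalize P.pb k q s₀ = u₀ at *
  generalize P.pb k q s₁ = u₁ at *
  rw [two_mul k, pow_add P.S.φ]
  generalize P.S.φ ^ k = ψ at *
  have r1 : ∀ p ∈ Submodule.span ℂ {u₀, u₁} ^ (T * ρ),
      ψ (e * (σ ^ q) ^ (T * ρ)) * (P.hh k ^ q)⁻¹ ^ (T * ρ) * (AlgHom.id ℂ K) p ∈
        P.S.V.map ψ.toLinearMap ^ ((c₂ + 1) * q * (T * ρ) + c₀) := by
    intro p hp
    have h2 := main1_pow (AlgHom.id ℂ K) (κ := (P.hh k ^ q)⁻¹)
      (B := (Submodule.span ℂ {s₀, s₁}).map ψ.toLinearMap) (main1_span (u₀ := u₀) (u₁ := u₁) _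
        (by
          rw [AlgHom.id_apply, hu₀, mul_comm, mul_inv_cancel_right₀ hh0]
          exact Submodule.mem_map_of_mem (Submodule.subset_span (by simp)))
        (by
          rw [AlgHom.id_apply, hu₁, mul_comm, mul_inv_cancel_right₀ hh0]
          exact Submodule.mem_map_of_mem (Submodule.subset_span (by simp)))) (T * ρ) p hp
    rw [← Submodule.map_pow] at h2
    obtain ⟨p', hp', h3⟩ := h2
    rw [mul_assoc (ψ _), ← h3, AlgHom.toLinearMap_apply, ← map_mul]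
    exact main1_map ψ (q1 p' hp')
  have r2 : ∀ p ∈ Submodule.span ℂ {u₀, u₁} ^ (T * ρ),
      e * (P.hh k ^ q * z ^ N * σ ^ q) ^ (T * ρ) * ψ p ∈
        P.S.V ^ ((c₂ + 1) * q * (T * ρ) + c₀) := by
    intro p hp
    refine q2 _ ?_
    have h2 := main1_map ψ hp
    rwa [Submodule.map_span, Set.image_pair] at h2
  have h2 := prg P.S.V
    ((P.S.Γ fun w => (q * ρ : ℕ) * P.S.H w) * Submodule.span ℂ {u₀, u₁} ^ (T * ρ)) ψ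
    (q * ρ + c₀) ((c₂ + 1) * q * (T * ρ) + c₀) (T * (q * ρ))
    (z := e * (ψ (e * (σ ^ q) ^ (T * ρ)) * (P.hh k ^ q)⁻¹ ^ (T * ρ)))
    (z' := ψ e * (e * (P.hh k ^ q * z ^ N * σ ^ q) ^ (T * ρ)))
    (mul_ne_zero he0 (mul_ne_zero
      ((map_ne_zero _).2 (mul_ne_zero he0 (pow_ne_zero _ (pow_ne_zero _ hσ0))))
      (pow_ne_zero _ (inv_ne_zero hh0))))
    (mul_ne_zero ((map_ne_zero _).2 he0) (mul_ne_zero he0 (pow_ne_zero _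
      (mul_ne_zero (mul_ne_zero hh0 (pow_ne_zero _ hz0)) (pow_ne_zero _ hσ0)))))
    (main1_mul (AlgHom.id ℂ K) (he (q * ρ)) r1)
    (main1_mul ψ (fun r hr => by
      rw [← map_mul]
      exact main1_map ψ (he (q * ρ) r hr)) r2)
  have hμ : 0 < q * ρ := by positivity
  have hTμ : 0 < T * (q * ρ) := by positivity
  have hα : q * ρ + c₀ ≤ (c₂ + 2 + c₀) * (q * ρ) := by nlinarith
  have hβ : (c₂ + 1) * q * (T * ρ) + c₀ + T * (q * ρ) ≤ (c₂ + 2 + c₀) * T * (q * ρ) := by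
    have := Nat.le_mul_of_pos_right c₀ hTμ
    nlinarith
  have h3 := h2.trans (Nat.mul_le_mul (dm_mono P.S.V P.S.one_mem ψ hα hβ)
    (dm_mono P.S.V P.S.one_mem ψ hβ hα))
  refine (Nat.mul_le_mul_right _ h1).trans ?_
  rw [mul_assoc]
  exact Nat.mul_le_mul_left _ h3

/-- Port of `Su.main1`. -/
theorem neg_pencil (c : ℕ) : ∃ k t : ℕ, 0 < t ∧ ∀ (N : ℕ) (s₀ s₁ : K), 0 < N → s₀ ≠ 0 → s₁ ≠ 0 →
    s₀ ∈ P.L (N * t) N → s₁ ∈ P.L (N * t) N → ∃ (ρ : ℕ) (r : K), 0 < ρ ∧ r ≠ 0 ∧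
      r ∈ P.S.Γ fun w => (N * t * ρ : ℕ) * P.S.H w -
        (c * ρ + 1 : ℕ) * pen (P.pb k (N * t) s₀) (P.pb k (N * t) s₁) w := by
  obtain ⟨C₁, hC₁⟩ := P.est
  have hn := P.S.npos
  obtain ⟨k, T, -, hT, hev⟩ := P.S.hyp (C₁ + ((c + 1) * n ^ n) ^ 2) 0 (by positivity)
  obtain ⟨μ₀, hμ₀⟩ := Filter.eventually_atTop.1 hev
  obtain ⟨t, ht, h⟩ := hC₁ k
  refine ⟨k, t, ht, fun N s₀ s₁ hN h₀ h₁ m₀ m₁ => ⟨μ₀ + 1, ?_⟩⟩
  by_contra hc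
  have h1 := h T c N (μ₀ + 1) s₀ s₁ hT hN μ₀.succ_pos h₀ h₁ m₀ m₁ (by
    rw [eq_bot_iff]
    intro r hr
    by_contra h0
    exact hc ⟨r, μ₀.succ_pos, h0, hr⟩)
  have hq : 0 < N * t := by positivity
  have h2 := hμ₀ (N * t * (μ₀ + 1)) (by nlinarith)
  change (C₁ + ((c + 1) * n ^ n) ^ 2) * (dm P.S.V _ _ _ * dm P.S.V _ _ _) ^ 2 <
    T * _ ^ (2 * n) * dm P.S.V _ _ _ ^ 2 at h2
  set μ := N * t * (μ₀ + 1) with hμ
  set C := C₁ + ((c + 1) * n ^ n) ^ 2 with hC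
  have hle : C₁ ≤ C := Nat.le_add_right _ _
  have ha : C₁ * μ ≤ C * μ := by gcongr
  have hb : C₁ * T * μ ≤ C * T * μ := by gcongr
  have h3 := h1.trans (Nat.mul_le_mul_left _ (Nat.mul_le_mul
    (dm_mono P.S.V P.S.one_mem (P.S.φ ^ k) ha hb) (dm_mono P.S.V P.S.one_mem (P.S.φ ^ k) hb ha)))
  have h4 := Nat.pow_le_pow_left h3 2
  generalize dm P.S.V (P.S.φ ^ k) (C * μ) (C * T * μ) *
    dm P.S.V (P.S.φ ^ k) (C * T * μ) (C * μ) = Q at h2 h4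
  generalize dm P.S.V (P.S.φ ^ (2 * k)) (T * μ) (T * μ) = d at h2 h4
  refine absurd h2 (not_lt.2 ?_)
  calc T * μ ^ (2 * n) * d ^ 2 = 1 * (T * μ ^ (2 * n) * d ^ 2) := (one_mul _).symm
    _ ≤ T * (T * μ ^ (2 * n) * d ^ 2) := Nat.mul_le_mul_right _ hT
    _ = (T * μ ^ n * d) ^ 2 := by ring
    _ ≤ ((c + 1) * n ^ n * Q) ^ 2 := h4
    _ = ((c + 1) * n ^ n) ^ 2 * Q ^ 2 := by ring
    _ ≤ C * Q ^ 2 := Nat.mul_le_mul_right _ (Nat.le_add_left _ _)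

end Ps

end Pool.Agent.Lib.MP_bc213e_ag.Psef
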