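import Pool.Agent.Lib.MP_bc213e_ag.Psef.Der
import Pool.Agent.Lib.MP_bc213e_ag.Hyp.Jac

/-! Extension of a discrete valuation along a dominant map. -/

namespace Pool.Agent.Lib.MP_bc213e_ag.Psef

open WithZero Module Hyp

variable {K : Type} [Field K] [Algebra ℂ K] {n : ℕ}

/-- `K` is finite over `ψ(K)`. Sketch: `ψ ∘ τ` is a transcendence basis for a transcendence basis
`τ` (`TCI.exists_trBasis`, `TCI.isTrBasis_of_card`); `fd_of_gen` gives a finite basis over
`ℂ(ψ τ)`, and `ℂ(ψ τ)` lies in the range of `ψ`. -/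
theorem exists_span {κ : Type} [Fintype κ] (x : κ → K)
    (gen : IntermediateField.adjoin ℂ (Set.range x) = ⊤) (dim : Algebra.trdeg ℂ K = n)
    (ψ : K →ₐ[ℂ] K) : ∃ (d : ℕ) (b : Fin d → K), ∀ z : K, ∃ c : Fin d → K, z = ∑ i, ψ (c i) * b i := by
  obtain ⟨τ, hτ⟩ := TCI.exists_trBasis dim
  have h1 : IsTranscendenceBasis ℂ (ψ ∘ τ) :=
    TCI.isTrBasis_of_card _ (hτ.1.map' ψ.toRingHom.injective) (by rw [dim, Fintype.card_fin])
  have := fd_of_gen x gen _ h1
  have hr : ∀ y : IntermediateField.adjoin ℂ (Set.range (ψ ∘ τ)), ∃ c, ψ c = y := fun y =>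
    (IntermediateField.adjoin_le_iff (T := ψ.fieldRange)).2
      (by rintro _ ⟨a, rfl⟩; exact ⟨τ a, rfl⟩) y.2
  choose g hg using hr
  let B := Module.finBasis (IntermediateField.adjoin ℂ (Set.range (ψ ∘ τ))) K
  refine ⟨_, B, fun z => ⟨fun i => g (B.repr z i), ?_⟩⟩
  conv_lhs => rw [← B.sum_repr z]
  refine Finset.sum_congr rfl fun i _ => ?_
  rw [hg]
  rfl

open IsDedekindDomain in
theorem ExtA_gen {F L : Type} [Field F] [Field L] [CharZero F] [Algebra F L] [FiniteDimensional F L]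
    {w : Valuation F (WithZero (Multiplicative ℤ))} (hw : ∃ π, w π = exp (-1)) :
    ∃ (v : Valuation L (WithZero (Multiplicative ℤ))) (k r : ℕ) (β : Fin r → L), 0 < k ∧
      (∀ z, v (algebraMap F L z) = w z ^ k) ∧ (∀ i, v (β i) ≤ 1) ∧
      ∀ z, v z ≤ 1 → ∃ c c' : Fin r → F, (∀ i, w (c i) ≤ 1) ∧ (∀ i, w (c' i) ≤ 1) ∧
        v (∑ i, algebraMap F L (c' i) * β i) = 1 ∧
        (∑ i, algebraMap F L (c' i) * β i) * z = ∑ i, algebraMap F L (c i) * β i := by
  obtain ⟨π, hπ⟩ := hw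
  have hπ0 : π ≠ 0 := fun h => by rw [h, map_zero] at hπ; exact exp_ne_zero hπ.symm
  have hπ1 : w π < 1 := by rw [hπ, ← exp_zero, exp_lt_exp]; norm_num
  have hnt : w.IsNontrivial := ⟨π, by rw [hπ]; exact exp_ne_zero, hπ1.ne⟩
  have : IsDiscreteValuationRing w.valuationSubring := inferInstance
  let O := w.valuationSubring
  let : Algebra O L := ((algebraMap F L).comp (algebraMap O F)).toAlgebra
  have : IsScalarTower O F L := IsScalarTower.of_algebraMap_eq fun _ => rfl
  let B := integralClosure O L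
  have : IsDedekindDomain B := integralClosure.isDedekindDomain O F L
  have : Module.Finite O B := IsIntegralClosure.finite O F L B
  have : IsFractionRing B L := integralClosure.isFractionRing_of_finite_extension F L
  have : FaithfulSMul O B := (faithfulSMul_iff_algebraMap_injective O B).2 fun a b h => by
    have h1 : algebraMap F L a = algebraMap F L b := congrArg Subtype.val h
    exact Subtype.ext ((algebraMap F L).injective h1)
  obtain ⟨Q, hQ, hl⟩ := Ideal.exists_maximal_ideal_liesOver_of_isIntegral (S := B)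
    (IsLocalRing.maximalIdeal O)
  have hmem : ∀ a : O, algebraMap O B a ∈ Q ↔ w a < 1 := fun a => by
    rw [← Valuation.mem_maximalIdeal_iff, hl.over]
    rfl
  let p : O := ⟨π, hπ1.le⟩
  have hp0 : algebraMap O B p ≠ 0 := fun h => hπ0 (congrArg Subtype.val
    ((FaithfulSMul.algebraMap_injective O B) (h.trans (map_zero _).symm)))
  let P : HeightOneSpectrum B := ⟨Q, hQ.isPrime, fun h => hp0 (by
    have := (hmem p).2 hπ1
    rwa [h] at this)⟩
  have hv : ∀ a : O, P.valuation L (algebraMap F L a) = P.intValuation (algebraMap O B a) :=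
    fun a => HeightOneSpectrum.valuation_of_algebraMap (K := L) P (algebraMap O B a)
  have hu : ∀ u : F, w u = 1 → P.valuation L (algebraMap F L u) = 1 := fun u h => by
    rw [hv ⟨u, h.le⟩, HeightOneSpectrum.intValuation_eq_one_iff]
    exact fun h' => ((hmem _).1 h').ne h
  have hk : P.valuation L (algebraMap F L π) < 1 := by
    rw [hv p, HeightOneSpectrum.intValuation_lt_one_iff_mem]
    exact (hmem p).2 hπ1
  have hk0 : P.valuation L (algebraMap F L π) ≠ 0 := by simpa using hπ0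
  obtain ⟨r, β, hβ⟩ := Module.Finite.exists_fin (R := O) (M := B)
  have hrep : ∀ y : B, ∃ c : Fin r → F, (∀ i, w (c i) ≤ 1) ∧
      (y : L) = ∑ i, algebraMap F L (c i) * β i := fun y => by
    obtain ⟨c, hc⟩ := (Submodule.mem_span_range_iff_exists_fun O).1
      (hβ ▸ Submodule.mem_top : y ∈ Submodule.span O (Set.range β))
    refine ⟨fun i => c i, fun i => (c i).2, ?_⟩
    rw [← hc]
    simp only [AddSubmonoidClass.coe_finsetSum, Algebra.smul_def]
    rfl
  have hlog : log (P.valuation L (algebraMap F L π)) < 0 := by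
    rw [← exp_lt_exp, exp_log hk0]
    exact hk
  refine ⟨P.valuation L, (-log (P.valuation L (algebraMap F L π))).toNat, r, fun i => β i,
    by omega, fun z => ?_, fun i => HeightOneSpectrum.valuation_le_one P (β i), fun z hz => ?_⟩
  · rcases eq_or_ne z 0 with rfl | hz
    · rw [map_zero, map_zero, map_zero, zero_pow (by omega)]
    have hw0 : w z ≠ 0 := by simpa using hz
    have h1 := hu (z * π ^ log (w z)) (by
      rw [map_mul, map_zpow₀, hπ, ← exp_zsmul]
      conv_lhs => rw [← exp_log hw0]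
      rw [log_exp, ← exp_add]
      simp)
    have hz0 : P.valuation L (algebraMap F L z) ≠ 0 := by simpa using hz
    rw [map_mul, map_mul, map_zpow₀, map_zpow₀, ← exp_log hk0, ← exp_log hz0, ← exp_zsmul,
      ← exp_add, ← exp_zero, exp_inj] at h1
    rw [← exp_log hz0, ← exp_log hw0, ← exp_nsmul, exp_inj, nsmul_eq_mul,
      Int.toNat_of_nonneg (by omega)]
    rw [smul_eq_mul] at h1
    linarith
  · obtain ⟨a, d, h⟩ := HeightOneSpectrum.exists_primeCompl_mul_eq_of_integer P z hz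
    obtain ⟨c, hc, ec⟩ := hrep a
    obtain ⟨c', hc', ec'⟩ := hrep d
    refine ⟨c, c', hc, hc', ?_, ?_⟩
    · rw [← ec']
      exact (HeightOneSpectrum.valuation_of_algebraMap (K := L) P (d : B)).trans
        ((P.intValuation_eq_one_iff_mem_primeCompl _).2 d.2)
    · rw [← ec, ← ec', mul_comm]
      exact h

/-- Type synonym. -/
def ExtA_T (_ψ : K →ₐ[ℂ] K) : Type := K

/-- Sketch: let `L` be a type synonym of `K`, an algebra over `K` through `ψ`, finite and separable;
`O = w.valuationSubring` is a discrete valuation ring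
(`Valuation.valuationSubring_isDiscreteValuationRing`), `B = integralClosure O L` is a Dedekind
domain and a finite `O`-module (`integralClosure.isDedekindDomain`, `IsIntegralClosure.finite`).
Take a maximal ideal of `B` over the maximal ideal of `O`
(`Ideal.exists_maximal_ideal_liesOver_of_isIntegral`) and its adic valuation `v`. With
`v (ψ π) = exp (-k)` write `z = π ^ j * u`, `w u = 1`. For the last part use
`HeightOneSpectrum.exists_primeCompl_mul_eq_of_integer`. -/
theorem exists_ext (ψ : K →ₐ[ℂ] K) {d : ℕ} (b : Fin d → K)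
    (hb : ∀ z : K, ∃ c : Fin d → K, z = ∑ i, ψ (c i) * b i) {w : Val K} (hw : ∃ π, w π = exp (-1)) :
    ∃ (v : Val K) (k r : ℕ) (β : Fin r → K), 0 < k ∧ (∀ z, v (ψ z) = w z ^ k) ∧ (∀ i, v (β i) ≤ 1) ∧
      ∀ z, v z ≤ 1 → ∃ c c' : Fin r → K, (∀ i, w (c i) ≤ 1) ∧ (∀ i, w (c' i) ≤ 1) ∧
        v (∑ i, ψ (c' i) * β i) = 1 ∧ (∑ i, ψ (c' i) * β i) * z = ∑ i, ψ (c i) * β i := by
  let : Field (ExtA_T ψ) := inferInstanceAs (Field K)
  let : Algebra K (ExtA_T ψ) := (show K →+* ExtA_T ψ from ψ.toRingHom).toAlgebra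
  have : CharZero K := charZero_of_injective_algebraMap (algebraMap ℂ K).injective
  have : FiniteDimensional K (ExtA_T ψ) := by
    refine Module.Finite.of_surjective (Fintype.linearCombination K (show Fin d → ExtA_T ψ from b))
      fun z => ?_
    obtain ⟨c, hc⟩ := hb z
    exact ⟨c, hc.symm⟩
  exact ExtA_gen (F := K) (L := ExtA_T ψ) hw

theorem ExtB_fin {J : Type} [Fintype J] (v : Val K) (f : J → K) :
    ∃ C : ℕ, ∀ j, v (f j) ≤ exp (C : ℤ) := by
  refine ⟨Finset.univ.sup fun j => (log (v (f j))).toNat, fun j => ?_⟩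
  rcases eq_or_ne (v (f j)) 0 with h | h
  · rw [h]
    exact zero_le
  · rw [← exp_log h, exp_le_exp]
    refine (Int.self_le_toNat _).trans ?_
    exact_mod_cast Finset.le_sup (f := fun j => (log (v (f j))).toNat) (Finset.mem_univ j)

/-- Derivations are bounded on the valuation ring of the extension. Sketch: `chain` bounds
`δ (ψ c) = ∑ a, δ (τ a) * D a (ψ c)` (`TCI.der_expand`); Leibniz rule; quotient rule. -/
theorem ext_bdd {τ : Fin n → K} (hτ : IsTranscendenceBasis ℂ τ) {D : Fin n → Derivation ℂ K K}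
    (hD : ∀ a b, D a (τ b) = if a = b then 1 else 0) (ψ : K →ₐ[ℂ] K) {w v : Val K} {k r : ℕ}
    {β : Fin r → K} (hk : ∀ z, v (ψ z) = w z ^ k) (hβ : ∀ i, v (β i) ≤ 1)
    (loc : ∀ z, v z ≤ 1 → ∃ c c' : Fin r → K, (∀ i, w (c i) ≤ 1) ∧ (∀ i, w (c' i) ≤ 1) ∧
      v (∑ i, ψ (c' i) * β i) = 1 ∧ (∑ i, ψ (c' i) * β i) * z = ∑ i, ψ (c i) * β i)
    {C₀ : ℕ} (h₀ : ∀ z, w z ≤ 1 → ∀ a, w (D a z) ≤ exp (C₀ : ℤ)) (δ : Derivation ℂ K K) :
    ∃ C : ℕ, ∀ z, v z ≤ 1 → v (δ z) ≤ exp (C : ℤ) := by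
  obtain ⟨C₁, h1⟩ := ExtB_fin v fun t : Fin n × Fin n => δ (τ t.1) * D t.1 (ψ (τ t.2))
  obtain ⟨C₂, h2⟩ := ExtB_fin v fun i => δ (β i)
  have h3 : ∀ c, w c ≤ 1 → v (δ (ψ c)) ≤ exp ((C₁ + k * C₀ + C₂ : ℕ) : ℤ) := fun c hc => by
    rw [TCI.der_expand τ hτ D hD δ]
    refine v.map_sum_le fun a _ => ?_
    rw [chain hτ hD ψ a c, Finset.mul_sum]
    refine v.map_sum_le fun b _ => ?_
    rw [← mul_assoc, map_mul, hk]
    refine (mul_le_mul' (h1 (a, b)) (pow_le_pow_left' (h₀ c hc b) k)).trans ?_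
    rw [← exp_nsmul, ← exp_add, exp_le_exp]
    push_cast
    simp
  have h4 : ∀ c : Fin r → K, (∀ i, w (c i) ≤ 1) →
      v (δ (∑ i, ψ (c i) * β i)) ≤ exp ((C₁ + k * C₀ + C₂ : ℕ) : ℤ) := fun c hc => by
    rw [map_sum]
    refine v.map_sum_le fun i _ => ?_
    rw [Derivation.leibniz, smul_eq_mul, smul_eq_mul]
    refine v.map_add_le ?_ ?_ <;> rw [map_mul]
    · rw [hk]
      refine (mul_le_of_le_one_left' (pow_le_one' (hc i) k)).trans ((h2 i).trans ?_)
      rw [exp_le_exp]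
      exact_mod_cast Nat.le_add_left _ _
    · exact (mul_le_of_le_one_left' (hβ i)).trans (h3 _ (hc i))
  refine ⟨C₁ + k * C₀ + C₂, fun z hz => ?_⟩
  obtain ⟨c, c', hc, hc', e1, e2⟩ := loc z hz
  have e3 : (∑ i, ψ (c' i) * β i) * δ z =
      δ (∑ i, ψ (c i) * β i) - z * δ (∑ i, ψ (c' i) * β i) := by
    rw [← e2, Derivation.leibniz, smul_eq_mul, smul_eq_mul]
    ring
  have e4 := congrArg v e3
  rw [map_mul, e1, one_mul] at e4
  rw [e4]
  refine v.map_sub_le (h4 c hc) ?_
  rw [map_mul]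
  exact (mul_le_of_le_one_left' hz).trans (h4 c' hc')

end Pool.Agent.Lib.MP_bc213e_ag.Psef
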