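import Pool.Agent.Lib.MP_bc213e_ag.Psef.Gen
import Pool.Agent.Lib.MP_bc213e_ag.Hyp.FT2

/-! Uniform sections for Weil divisors. -/

namespace Pool.Agent.Lib.MP_bc213e_ag.Psef

open WithZero Module Hyp MvPolynomial

variable {K ι : Type} [Field K] [Algebra ℂ K] [Fintype ι] {n : ℕ} (S : Su K ι n)

/-- Sketch (port of `Su.us`): `Y, P, e, c₀` from `cd_hyp`, `a₀ = c₀ + deg P + 1`. `a, T` from
`exists_family` for `- D`, `b, σ'` from `exists_kappa` for `D`; `aeval Y (η δ) = e σ δ ^ N`,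
`aeval Y (η' δ) = e σ' δ` (`Γ_le_Bd`), `ft` with index type `T`; `s = aeval Y (u δ) / δ` does not
depend on `δ` (`aeval_mem_pow`, `le_of_mem_pow`). -/
theorem us : ∃ a₀ : ℕ, ∀ D : Val K → ℤ, {w | w ∈ S.W ∧ D w ≠ 0}.Finite → ∀ (N : ℕ) (σ : K),
    0 < N → σ ≠ 0 → (σ ∈ S.Γ fun w => N * D w) →
      ∃ s : K, s ≠ 0 ∧ s ∈ S.Γ fun w => D w + a₀ * S.H w := by
  obtain ⟨Y, P, e, c₀, hY, he, hP, hker, hBd, hcert⟩ := cd_hyp S.X S.gen S.dim
  refine ⟨c₀ + P.totalDegree + 1, fun D fin N σ hN hσ hs => ?_⟩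
  obtain ⟨a, T, ⟨δ₀, hδ₀⟩, hT, hex⟩ := exists_family S (D := fun w => - D w) (by simpa using fin)
  obtain ⟨b, σ', hσ', hs'⟩ := exists_kappa S fin
  have m1 : ∀ δ : T, σ * (δ : K) ^ N ∈ Bd S.X (N * a) := fun δ =>
    S.Γ_le_Bd _ (Gam_mono (fun w _ _ => le_of_eq (by push_cast; ring))
      (mul_mem_Gam hs (pow_mem_Gam (hT δ δ.2).2 N)))
  have m2 : ∀ δ : T, σ' * (δ : K) ∈ Bd S.X (a + b) := fun δ =>
    S.Γ_le_Bd _ (Gam_mono (fun w _ _ => le_of_eq (by push_cast; ring))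
      (mul_mem_Gam hs' (hT δ δ.2).2))
  choose η hη eη using fun δ => hBd _ _ (m1 δ)
  choose η' hη' eη' using fun δ => hBd _ _ (m2 δ)
  have hδ : ∀ δ : T, (δ : K) ≠ 0 := fun δ => (hT δ δ.2).1
  obtain ⟨γ, ρ, hρ, hρ', cert⟩ := hcert (η ⟨δ₀, hδ₀⟩ * η' ⟨δ₀, hδ₀⟩) (by
    rw [map_mul, eη, eη']
    exact mul_ne_zero (mul_ne_zero he (mul_ne_zero hσ (pow_ne_zero _ (hδ _))))
      (mul_ne_zero he (mul_ne_zero hσ' (hδ _))))
  obtain ⟨u, hu, hrel, hn⟩ := ft P none hP ⟨δ₀, hδ₀⟩ η η' N a (b + c₀) c₀ hN hη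
    (fun i => (hη' i).trans (by omega))
    (fun i j => (hker _).1 (by
      rw [map_sub, map_mul, map_mul, map_pow, map_pow, eη, eη, eη', eη']
      ring)) γ ρ hρ hρ' cert
  refine ⟨aeval Y (u ⟨δ₀, hδ₀⟩) / δ₀,
    div_ne_zero (fun h => hn ((hker _).1 h)) (hδ ⟨δ₀, hδ₀⟩), fun w hw ht => ?_⟩
  obtain ⟨δ, hδT, hw'⟩ := hex w hw
  have h1 := (hker _).2 (hrel ⟨δ₀, hδ₀⟩ ⟨δ, hδT⟩)
  rw [map_sub, map_mul, map_mul, eη', eη'] at h1
  have h2 : aeval Y (u ⟨δ₀, hδ₀⟩) / δ₀ = aeval Y (u ⟨δ, hδT⟩) / δ := by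
    rw [div_eq_div_iff (hδ ⟨δ₀, hδ₀⟩) (hδ ⟨δ, hδT⟩)]
    exact mul_left_cancel₀ (mul_ne_zero he hσ') (by linear_combination h1)
  have h3 := S.le_of_mem_pow (aeval_mem_pow S.V S.one_mem Y hY (u ⟨δ, hδT⟩)
    (d := a + (c₀ + P.totalDegree + 1)) ((hu _).trans (by omega))) ht
  rw [h2, map_div₀, hw', div_le_iff₀ exp_pos, ← exp_add]
  refine h3.trans (le_of_eq ?_)
  congr 1
  push_cast
  ring

/-- Pigeonhole (port of `Su.pigeon`). -/
theorem pigeon (D D' : ℕ → Val K → ℤ) (hD : ∀ t, ∀ w ∈ S.W, D t w + D' t w ≤ 0) (a : ℕ) {r : K}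
    (hr : r ≠ 0) (T : Set ℕ) (hT : T.Infinite)
    (h : ∀ t ∈ T, ∃ s s' : K, (s ∈ S.Γ fun w => D t w + a * S.H w) ∧
      (s' ∈ S.Γ fun w => D' t w + a * S.H w) ∧ s * s' = r) :
    ∃ (t t' : ℕ) (s : K), t < t' ∧ s ≠ 0 ∧ ∀ w ∈ S.W, w s = exp (D t' w - D t w) := by
  classical
  choose! s s' h1 h2 h3 using h
  have hs0 : ∀ t ∈ T, s t ≠ 0 := fun t ht e => hr (by rw [← h3 t ht, e, zero_mul])
  have hs0' : ∀ t ∈ T, s' t ≠ 0 := fun t ht e => hr (by rw [← h3 t ht, e, mul_zero])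
  set f : ℕ → Val K → ℤ := fun t w => D t w + a * S.H w - log (w (s t)) with hf
  set F : Val K → ℤ := fun w => 2 * a * S.H w - log (w r) with hF
  have hb : ∀ t ∈ T, ∀ w ∈ S.W, f t w ∈ Set.Icc 0 (F w) := by
    intro t ht w hw
    have e1 : w (s t) ≠ 0 := (Valuation.ne_zero_iff w).2 (hs0 t ht)
    have e2 : w (s' t) ≠ 0 := (Valuation.ne_zero_iff w).2 (hs0' t ht)
    have a1 : log (w (s t)) ≤ D t w + a * S.H w :=
      (log_le_iff_le_exp e1).2 (h1 t ht w hw (S.triv hw))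
    have a2 : log (w (s' t)) ≤ D' t w + a * S.H w :=
      (log_le_iff_le_exp e2).2 (h2 t ht w hw (S.triv hw))
    have a3 : log (w r) = log (w (s t)) + log (w (s' t)) := by
      rw [← h3 t ht, map_mul, log_mul e1 e2]
    have a4 := hD t w hw
    simp only [hf, hF, Set.mem_Icc]
    constructor <;> linarith
  set Z : Set (Val K) := {w | w ∈ S.W ∧ w r ≠ 1} ∪ {w | w ∈ S.W ∧ S.H w ≠ 0} with hZ
  have hZf : Z.Finite := (S.supp_finite hr).union S.H_finite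
  have hZW : ∀ w ∈ Z, w ∈ S.W := by
    rintro w (hw | hw) <;> exact hw.1
  have := hZf.to_subtype
  obtain ⟨t, ht, t', ht', hlt, heq⟩ := hT.exists_lt_map_eq_of_mapsTo
    (f := fun t => fun w : Z => f t w) (t := {φ : Z → ℤ | ∀ w : Z, φ w ∈ Set.Icc 0 (F w)})
    (fun t ht w => hb t ht w (hZW w w.2)) (Set.Finite.pi' fun w => Set.finite_Icc _ _)
  have hall : ∀ w ∈ S.W, f t w = f t' w := by
    intro w hw
    by_cases hz : w ∈ Z
    · exact congrFun heq ⟨w, hz⟩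
    · have b1 : w r = 1 := by
        by_contra hcon
        exact hz (Or.inl ⟨hw, hcon⟩)
      have b2 : S.H w = 0 := by
        by_contra hcon
        exact hz (Or.inr ⟨hw, hcon⟩)
      have b3 : F w = 0 := by simp [hF, b1, b2]
      have b4 := hb t ht w hw
      have b5 := hb t' ht' w hw
      rw [b3] at b4 b5
      rw [le_antisymm b4.2 b4.1, le_antisymm b5.2 b5.1]
  refine ⟨t, t', s t' / s t, hlt, div_ne_zero (hs0 t' ht') (hs0 t ht), fun w hw => ?_⟩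
  have e1 : w (s t) ≠ 0 := (Valuation.ne_zero_iff w).2 (hs0 t ht)
  have e2 : w (s t') ≠ 0 := (Valuation.ne_zero_iff w).2 (hs0 t' ht')
  have e3 := hall w hw
  simp only [hf] at e3
  rw [map_div₀, ← exp_log e1, ← exp_log e2, ← exp_sub]
  congr 1
  linarith

end Pool.Agent.Lib.MP_bc213e_ag.Psef
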