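import Pool.Agent.Lib.MP_bc213e_ag.Psef.Der

/-! Almost all prime divisors are mapped to prime divisors. -/

namespace Pool.Agent.Lib.MP_bc213e_ag.Psef

open WithZero Module Hyp

variable {K ι : Type} [Field K] [Algebra ℂ K] {n : ℕ}

/-- Generic finiteness. Sketch: `K` is algebraic over `φ(A)` (the images of a transcendence basis
inside `A` form a transcendence basis); for each generator `x j` some nonzero `φ (a j) * x j` is
integral (`IsAlgebraic.exists_integral_multiple`); `a = ∏ a j`; `Algebra.adjoin_induction`. -/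
theorem exists_integral {κ : Type} [Fintype κ] (x : κ → K)
    [IsFractionRing (Algebra.adjoin ℂ (Set.range x)) K] (dim : Algebra.trdeg ℂ K = n)
    (φ : K →ₐ[ℂ] K) : ∃ a ∈ Algebra.adjoin ℂ (Set.range x), a ≠ 0 ∧
      ∀ r ∈ Algebra.adjoin ℂ (Set.range x), ∃ N : ℕ,
        IsIntegral ((Algebra.adjoin ℂ (Set.range x)).map φ) (φ a ^ N * r) := by
  classical
  have : Algebra.IsAlgebraic (Algebra.adjoin ℂ (Set.range x)) K :=
    IsLocalization.isAlgebraic K (nonZeroDivisors _)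
  obtain ⟨t, ht, hb⟩ := exists_isTranscendenceBasis_subset (R := ℂ) (Set.range x)
  have : Finite t := (Set.finite_range x).subset ht
  have h1 : IsTranscendenceBasis ℂ (φ ∘ ((↑) : t → K)) :=
    (hb.1.map' φ.injective).isTranscendenceBasis_of_trdeg_le_of_finite hb.cardinalMk_eq_trdeg.ge
  have h2 : Algebra.adjoin ℂ (Set.range (φ ∘ ((↑) : t → K))) ≤
      (Algebra.adjoin ℂ (Set.range x)).map φ := by
    refine Algebra.adjoin_le ?_
    rintro _ ⟨j, rfl⟩
    exact ⟨j, Algebra.subset_adjoin (ht j.2), rfl⟩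
  have : Algebra.IsAlgebraic ((Algebra.adjoin ℂ (Set.range x)).map φ) K :=
    ⟨fun z => (h1.isAlgebraic.1 z).tower_top_of_subalgebra_le h2⟩
  obtain ⟨⟨_, a, ha, rfl⟩, h0, h3⟩ := Algebra.IsAlgebraic.exists_integral_multiples
    ((Algebra.adjoin ℂ (Set.range x)).map φ) (Finset.univ.image x)
  have h4 : ∀ r ∈ Algebra.adjoin ℂ (Set.range x),
      IsIntegral ((Algebra.adjoin ℂ (Set.range x)).map φ) (φ r) := fun r hr =>
    isIntegral_algebraMap (x := (⟨φ r, r, hr, rfl⟩ : (Algebra.adjoin ℂ (Set.range x)).map φ))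
  refine ⟨a, ha, fun e => h0 (Subtype.ext (by simp [e])), fun r hr => ?_⟩
  induction hr using Algebra.adjoin_induction with
  | mem r hr =>
    obtain ⟨j, rfl⟩ := hr
    exact ⟨1, by rw [pow_one]; exact h3 _ (Finset.mem_image_of_mem _ (Finset.mem_univ j))⟩
  | algebraMap c => exact ⟨0, by simpa using h4 _ (Subalgebra.algebraMap_mem _ c)⟩
  | add r s _ _ ir is =>
    obtain ⟨N, hN⟩ := ir
    obtain ⟨M, hM⟩ := is
    refine ⟨N + M, ?_⟩
    rw [show φ a ^ (N + M) * (r + s) = φ a ^ M * (φ a ^ N * r) + φ a ^ N * (φ a ^ M * s) by ring]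
    exact (((h4 a ha).pow M).mul hN).add (((h4 a ha).pow N).mul hM)
  | mul r s _ _ ir is =>
    obtain ⟨N, hN⟩ := ir
    obtain ⟨M, hM⟩ := is
    refine ⟨N + M, ?_⟩
    rw [show φ a ^ (N + M) * (r * s) = φ a ^ N * r * (φ a ^ M * s) by ring]
    exact hN.mul hM

theorem UnrA_loc {A K L : Type} [CommRing A] [IsDomain A] [Field K] [Algebra A K]
    [IsFractionRing A K] [IsIntegrallyClosed A] [Field L] (φ : K →+* L) (w : Val L)
    (hA : ∀ r : A, w (φ (algebraMap A K r)) ≤ 1) {b : L} {z : K} (hb : w b = 1)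
    (h1 : (φ.comp (algebraMap A K)).IsIntegralElem b)
    (h2 : (φ.comp (algebraMap A K)).IsIntegralElem (b * φ z)) :
    ∃ c c' : A, w (φ (algebraMap A K c)) = 1 ∧ algebraMap A K c' = algebraMap A K c * z := by
  rcases eq_or_ne z 0 with rfl | hz
  · exact ⟨1, 0, by simp, by simp⟩
  letI : Algebra K L := φ.toAlgebra
  letI : Algebra A L := (φ.comp (algebraMap A K)).toAlgebra
  have : IsScalarTower A K L := IsScalarTower.of_algebraMap_eq' rfl
  have i1 : IsIntegral A b := h1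
  have i2 : IsIntegral A (z • b) := by
    rw [Algebra.smul_def, mul_comm]
    exact h2
  have e1 := minpoly.isIntegrallyClosed_eq_field_fractions' K i1
  have e2 := minpoly.isIntegrallyClosed_eq_field_fractions' K i2
  rw [IsIntegrallyClosed.minpoly_smul hz i1.tower_top, e1] at e2
  have hm := minpoly.monic i1
  obtain ⟨i, hi, hw⟩ : ∃ i < (minpoly A b).natDegree,
      w (φ (algebraMap A K ((minpoly A b).coeff i))) = 1 := by
    by_contra hc
    push Not at hc
    have e := minpoly.aeval A b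
    rw [hm.as_sum, map_add, map_pow, Polynomial.aeval_X, map_sum, add_eq_zero_iff_eq_neg] at e
    have e' := congrArg w e
    rw [map_pow, hb, one_pow, Valuation.map_neg] at e'
    refine (w.map_sum_lt one_ne_zero fun i hi => ?_).ne' e'
    rw [map_mul, Polynomial.aeval_C, map_pow, Polynomial.aeval_X, map_mul, map_pow, hb, one_pow,
      mul_one]
    exact (hA _).lt_of_ne (hc i (Finset.mem_range.1 hi))
  have e3 := congrArg (fun p => p.coeff i) e2
  simp only [Polynomial.coeff_scaleRoots, Polynomial.coeff_map, hm.natDegree_map] at e3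
  obtain ⟨d, hd⟩ : ∃ d, (minpoly A b).natDegree - i = d + 1 :=
    ⟨(minpoly A b).natDegree - i - 1, by omega⟩
  rw [hd] at e3
  obtain ⟨c', hc'⟩ := IsIntegrallyClosed.exists_algebraMap_eq_of_isIntegral_pow (R := A)
    (x := algebraMap A K ((minpoly A b).coeff i) * z) d.succ_pos (by
      rw [mul_pow, pow_succ, mul_assoc, e3, ← map_pow, ← map_mul]
      exact isIntegral_algebraMap)
  exact ⟨_, c', hw, hc'⟩

theorem UnrA_elem {A : Subalgebra ℂ K} (φ : K →ₐ[ℂ] K) {b : K} (h : IsIntegral (A.map φ) b) :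
    (φ.toRingHom.comp (algebraMap A K)).IsIntegralElem b := by
  obtain ⟨p, hp, e⟩ := h
  refine ⟨p.map (A.equivMapOfInjective φ φ.injective).symm.toAlgHom.toRingHom, hp.map _, ?_⟩
  rw [Polynomial.eval₂_map, ← e]
  congr 1
  ext r
  obtain ⟨r, rfl⟩ := (A.equivMapOfInjective φ φ.injective).surjective r
  simp

/-- Going down in explicit form. Sketch: make `K` an algebra over `K` and over `A` through `φ`
(type synonym). The minimal polynomial of `b` over the field has coefficients `c i ∈ A`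
(`minpoly.isIntegrallyClosed_eq_field_fractions`), the one of `z • b` is `scaleRoots`
(`IsIntegrallyClosed.minpoly_smul`), so `c i * z ^ (d - i) ∈ A`. Since `w b = 1`, some `c i`,
`i < d`, has `w (φ (c i)) = 1`. Then `(c i * z) ^ (d - i) ∈ A`, so `c i * z ∈ A`. -/
theorem loc_of_integral {A : Subalgebra ℂ K} [IsFractionRing A K] [IsIntegrallyClosed A]
    (φ : K →ₐ[ℂ] K) {w : Val K} (hA : ∀ r ∈ A, w (φ r) ≤ 1) {b z : K} (hb : w b = 1)
    (h1 : IsIntegral (A.map φ) b) (h2 : IsIntegral (A.map φ) (b * φ z)) :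
    ∃ c ∈ A, w (φ c) = 1 ∧ c * z ∈ A := by
  obtain ⟨c, c', h3, h4⟩ := UnrA_loc (A := A) φ.toRingHom w (fun r => hA r r.2) hb (UnrA_elem φ h1)
    (UnrA_elem φ h2)
  exact ⟨c, c.2, h3, (show (c' : K) = c * z from h4) ▸ c'.2⟩

/-- Sketch: the constant coefficient of the minimal polynomial (or of a monic relation of least
degree). -/
theorem exists_lt_of_integral {A : Subalgebra ℂ K} (φ : K →ₐ[ℂ] K) {w : Val K}
    (hA : ∀ r ∈ A, w (φ r) ≤ 1) {b : K} (h0 : b ≠ 0) (hb : w b < 1)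
    (h1 : IsIntegral (A.map φ) b) : ∃ c ∈ A, c ≠ 0 ∧ w (φ c) < 1 := by
  obtain ⟨q, hq, e⟩ := h1.isAlgebraic.exists_nonzero_coeff_and_aeval_eq_zero
    (mem_nonZeroDivisors_of_ne_zero h0)
  obtain ⟨c, hc, ec⟩ := (q.coeff 0).2
  refine ⟨c, hc, fun h => hq (Subtype.ext (by simp [← ec, h])), ?_⟩
  rw [← q.divX_mul_X_add, map_add, map_mul, Polynomial.aeval_X, Polynomial.aeval_C, add_comm,
    add_eq_zero_iff_eq_neg] at e
  have e1 : φ c = -(Polynomial.aeval b q.divX * b) := ec.trans e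
  have e2 : w (Polynomial.aeval b q.divX) ≤ 1 := by
    rw [Polynomial.aeval_eq_sum_range]
    refine w.map_sum_le fun i _ => ?_
    obtain ⟨r, hr, er⟩ := (q.divX.coeff i).2
    rw [Algebra.smul_def, map_mul, map_pow]
    exact mul_le_one' ((congrArg w er.symm).trans_le (hA r hr)) (pow_le_one' hb.le _)
  rw [e1, Valuation.map_neg, map_mul]
  exact (mul_le_of_le_one_left' e2).trans_lt hb

omit [Algebra ℂ K] in
/-- A generator of the value group. Sketch: take `π ≠ 0` with `v π < 1` maximal; division with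
remainder. -/
theorem exists_gen {v : Val K} {y : K} (h0 : y ≠ 0) (hy : v y < 1) :
    ∃ π : K, π ≠ 0 ∧ v π < 1 ∧ ∀ z, z ≠ 0 → ∃ k : ℤ, v z = v π ^ k := by
  classical
  have hv : ∀ z : K, z ≠ 0 → v z = exp (log (v z)) := fun z hz =>
    (exp_log (v.ne_zero_iff.2 hz)).symm
  have h1 : ∃ m : ℕ, 0 < m ∧ ∃ z : K, z ≠ 0 ∧ v z = exp (-(m : ℤ)) := by
    rw [hv y h0, ← exp_zero, exp_lt_exp] at hy
    refine ⟨(-log (v y)).toNat, by omega, y, h0, ?_⟩
    rw [Int.toNat_of_nonneg (by omega), neg_neg]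
    exact hv y h0
  obtain ⟨hm, π, hπ, e⟩ := Nat.find_spec h1
  refine ⟨π, hπ, by rw [e, ← exp_zero, exp_lt_exp]; omega, fun z hz => ?_⟩
  obtain ⟨m, em⟩ : ∃ m, Nat.find h1 = m := ⟨_, rfl⟩
  rw [em] at hm e
  have h2 := Int.emod_nonneg (-log (v z)) (by omega : (m : ℤ) ≠ 0)
  have h3 := Int.emod_lt_of_pos (-log (v z)) (by omega : (0 : ℤ) < m)
  have h4 := Int.emod_add_mul_ediv (-log (v z)) m
  have h5 : v (z / π ^ (-log (v z) / m)) = exp (-(-log (v z) % m)) := by
    rw [map_div₀, map_zpow₀, e, ← exp_zsmul, hv z hz, ← exp_sub, log_exp, smul_eq_mul]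
    congr 1
    linarith
  have h6 : -log (v z) % m = 0 := by
    by_contra h
    refine Nat.find_min h1 (m := (-log (v z) % m).toNat) (by omega)
      ⟨by omega, _, div_ne_zero hz (zpow_ne_zero (-log (v z) / m) hπ), ?_⟩
    rw [h5, Int.toNat_of_nonneg h2]
  rw [h6, neg_zero, exp_zero, map_div₀, map_zpow₀,
    div_eq_one_iff_eq (zpow_ne_zero _ (v.ne_zero_iff.2 hπ))] at h5
  exact ⟨_, h5⟩

/-- The inverse of the Jacobian matrix. -/
theorem UnrB_inv {τ : Fin n → K} (hτ : IsTranscendenceBasis ℂ τ) {D : Fin n → Derivation ℂ K K}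
    (hD : ∀ a b, D a (τ b) = if a = b then 1 else 0) (φ : K →ₐ[ℂ] K) :
    ∃ J : Fin n → Fin n → K, ∀ c u, φ (D c u) = ∑ a, J c a * D a (φ u) := by
  have h1 := TCI.isTrBasis_of_card _ (hτ.1.map' (f := φ) φ.toRingHom.injective)
    (TCI.trdeg_eq_card τ hτ).le
  obtain ⟨D', hD'⟩ := TCI.exists_dual _ h1
  refine ⟨fun c a => D' c (τ a), fun c u => ?_⟩
  have h2 : ∀ b, ∑ a, D' c (τ a) * D a (φ (τ b)) = if c = b then 1 else 0 := fun b =>
    (TCI.der_expand τ hτ D hD (D' c) (φ (τ b))).symm.trans (hD' c b)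
  simp only [chain hτ hD φ _ u, Finset.mul_sum, ← mul_assoc]
  rw [Finset.sum_comm]
  simp only [← Finset.sum_mul, h2, ite_mul, one_mul, zero_mul, Finset.sum_ite_eq, Finset.mem_univ,
    if_true]

theorem UnrB_eq {x : WithZero (Multiplicative ℤ)} (h1 : x < 1) (h2 : ¬ x ≤ exp (-2)) :
    x = exp (-1) := by
  have h0 : x ≠ 0 := fun h => h2 (h ▸ zero_le)
  rw [← exp_log h0] at h1 h2 ⊢
  rw [← exp_zero, exp_lt_exp] at h1
  rw [exp_le_exp] at h2
  congr 1
  omega

/-- The pull-back of a prime divisor along which `φ a` is a unit is a nontrivial localisation. -/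
theorem UnrB_loc {A : Subalgebra ℂ K} [IsFractionRing A K] [IsIntegrallyClosed A]
    (φ : K →ₐ[ℂ] K) {a : K} (ha : a ∈ A)
    (hint : ∀ r ∈ A, ∃ N : ℕ, IsIntegral (A.map φ) (φ a ^ N * r)) {w : Val K} (hw : PrimeDiv A w)
    (hA : ∀ r ∈ A, w (φ r) ≤ 1) (h1 : w (φ a) = 1) :
    (∀ z, w (φ z) ≤ 1 → ∃ c ∈ A, w (φ c) = 1 ∧ c * z ∈ A) ∧ ∃ c, c ≠ 0 ∧ w (φ c) < 1 := by
  have hi : ∀ N : ℕ, IsIntegral (A.map φ) (φ a ^ N) := fun N =>
    (isIntegral_algebraMap (x := (⟨φ a, a, ha, rfl⟩ : A.map φ))).pow N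
  refine ⟨fun z hz => ?_, ?_⟩
  · obtain ⟨b, hb, e1, e2⟩ := hw.2.2 _ hz
    obtain ⟨N, hN⟩ := hint b hb
    obtain ⟨M, hM⟩ := hint _ e2
    refine loc_of_integral φ hA (b := φ a ^ M * (φ a ^ N * b)) ?_ ((hi M).mul hN) ?_
    · simp only [map_mul, map_pow, h1, e1, one_pow, one_mul]
    · have e : φ a ^ M * (φ a ^ N * b) * φ z = φ a ^ N * (φ a ^ M * (b * φ z)) := by ring
      rw [e]
      exact (hi N).mul hM
  · obtain ⟨π, hπ⟩ := hw.1
    have hlt : w π < 1 := by
      rw [hπ, ← exp_zero, exp_lt_exp]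
      omega
    obtain ⟨b, hb, e1, e2⟩ := hw.2.2 π hlt.le
    obtain ⟨N, hN⟩ := hint _ e2
    have e : w (φ a ^ N * (b * π)) = w π := by
      simp only [map_mul, map_pow, h1, e1, one_pow, one_mul]
    obtain ⟨c, -, h0, hc⟩ := exists_lt_of_integral φ hA (b := φ a ^ N * (b * π))
      (w.ne_zero_iff.1 (by rw [e, hπ]; exact exp_ne_zero)) (e.trans_lt hlt) hN
    exact ⟨c, h0, hc⟩

variable [Fintype ι] (S : Su K ι n)

theorem UnrB_fin (z : K) : {w | w ∈ S.W ∧ ¬ w z ≤ 1}.Finite := by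
  by_cases hz : z = 0
  · refine Set.finite_empty.subset fun w hw => hw.2 ?_
    rw [hz, map_zero]
    exact zero_le
  · exact (S.supp_finite hz).subset fun w hw => ⟨hw.1, fun h => hw.2 h.le⟩

theorem UnrB_H {v : Val K} (h : ∀ j, v (S.x j) = 1) : S.H v = 0 := by
  rw [Su.H, h, log_one]

theorem UnrB_main {a : K} (ha : a ∈ chart S.x S.i₀)
    (hint : ∀ r ∈ chart S.x S.i₀, ∃ N : ℕ,
      IsIntegral ((chart S.x S.i₀).map S.φ) (S.φ a ^ N * r))
    {τ : Fin n → K} (hτ : IsTranscendenceBasis ℂ τ) {D : Fin n → Derivation ℂ K K}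
    (hD : ∀ a b, D a (τ b) = if a = b then 1 else 0) {e : K} {c : ℕ} (hDB : DB S D e c)
    {J : Fin n → Fin n → K} (hJ : ∀ c u, S.φ (D c u) = ∑ a, J c a * D a (S.φ u))
    {w : Val K} (hw : w ∈ S.W) (h1 : ∀ j, w (S.x j) = 1) (h2 : ∀ j, w (S.φ (S.x j)) = 1)
    (h3 : w (S.φ a) = 1) (h4 : w e = 1) (h5 : w (S.φ e) = 1) (h6 : ∀ b, w (S.φ (τ b)) ≤ 1)
    (h7 : ∀ b b', w (J b b') ≤ 1) : w.comap S.φ.toRingHom ∈ S.W := by
  have := S.frac S.i₀
  have := S.norm S.i₀
  set v := w.comap S.φ.toRingHom with hv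
  have tv : Triv v := (S.triv hw).comap S.φ
  have h2' : ∀ j, v (S.x j) = 1 := h2
  have hi : ∀ j, v (S.x j) ≤ v (S.x S.i₀) := fun j => ((h2' j).trans (h2' _).symm).le
  have hP : PrimeDiv (chart S.x S.i₀) w :=
    prime_trans S hw fun j => ((h1 j).trans (h1 _).symm).le
  have hA : ∀ r ∈ chart S.x S.i₀, v r ≤ 1 := (chart_le_iff S.x _ tv).2 hi
  obtain ⟨hloc, y, y0, hy⟩ := UnrB_loc S.φ ha hint hP hA h3
  obtain ⟨π, π0, hπ, gen⟩ := exists_gen (v := v) y0 hy
  have Ov : ∀ z, v z ≤ 1 → ∀ b, v (D b z) ≤ 1 := by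
    intro z hz b
    obtain ⟨q, hq, e1, e2⟩ := hloc z hz
    have e1' : v q = 1 := e1
    have q0 : q ≠ 0 := v.ne_zero_iff.1 (by rw [e1']; exact one_ne_zero)
    have h := hDB.frac tv hi e2 hq e1' b
    have h5' : v e = 1 := h5
    rwa [mul_div_cancel_left₀ z q0, map_mul, h5', one_mul, UnrB_H S h2', mul_zero, exp_zero] at h
  have Ow : ∀ b z, w z ≤ 1 → w (D b z) ≤ 1 := by
    intro b z hz
    have h := hDB.loc hw hz b
    rwa [map_mul, h4, one_mul, UnrB_H S h1, mul_zero, exp_zero] at h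
  obtain ⟨b, hb⟩ := exists_der_unit hτ hD tv h6 Ov π0 hπ gen
  refine ⟨S.i₀, ⟨π, UnrB_eq hπ fun hle => ?_⟩, hA, hloc⟩
  have hb' : w (S.φ (D b π)) = 1 := hb
  refine hb'.not_lt ?_
  rw [hJ]
  refine w.map_sum_lt one_ne_zero fun b' _ => ?_
  rw [map_mul]
  exact (mul_le_of_le_one_left' (h7 b b')).trans_lt (der_lt_one (D b') hP.1 (Ow b') hle)

/-- Sketch: `A = chart i₀`, `a` from `exists_integral`, `y, D` from `nn`, `TCI.exists_dual`
(or any transcendence basis), `e, c` from `exists_DB`, `J a b = D a (φ (y b))` with inverse matrix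
`J'` (`jac_ne_zero`). Exclude the finitely many `w` where one of the nonzero elements among `x j`,
`φ (x j)`, `φ a`, `e`, `φ e`, `φ (y b)`, `J' a b` is not a unit. For the other `w`, `v = w ∘ φ` has
`H w = H v = 0` and is a localisation of `A` (`prime_trans`, `loc_of_integral`), `D` preserves both
valuation rings (`DB.loc`, `DB.frac`), `π'` from `exists_gen`, `exists_lt_of_integral`;
`exists_der_unit` for `v` and `chain` show that some `D b (φ π')` is a `w`-unit, so `der_lt_one`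
gives `w (φ π') = exp (-1)`. -/
theorem unr : {w | w ∈ S.W ∧ w.comap S.φ.toRingHom ∉ S.W}.Finite := by
  have : IsFractionRing (Algebra.adjoin ℂ (Set.range fun j => (S.x j : K) / S.x S.i₀)) K :=
    S.frac S.i₀
  obtain ⟨a, ha, a0, hint⟩ := exists_integral (fun j => (S.x j : K) / S.x S.i₀) S.dim S.φ
  obtain ⟨τ, hτ⟩ := TCI.exists_trBasis S.dim
  obtain ⟨D, hD⟩ := TCI.exists_dual τ hτ
  obtain ⟨e, c, e0, hDB⟩ := exists_DB S D
  obtain ⟨J, hJ⟩ := UnrB_inv hτ hD S.φ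
  have F := (((((((Set.finite_iUnion fun j => S.supp_finite (S.x j).ne_zero).union
    (Set.finite_iUnion fun j => S.supp_finite ((map_ne_zero S.φ).2 (S.x j).ne_zero))).union
    (S.supp_finite ((map_ne_zero S.φ).2 a0))).union (S.supp_finite e0)).union
    (S.supp_finite ((map_ne_zero S.φ).2 e0))).union
    (Set.finite_iUnion fun b => UnrB_fin S (S.φ (τ b)))).union
    (Set.finite_iUnion fun b => Set.finite_iUnion fun b' => UnrB_fin S (J b b')))
  refine F.subset fun w hw => ?_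
  by_contra hn
  simp only [Set.mem_union, Set.mem_iUnion, Set.mem_ofPred_eq, hw.1, true_and, not_or, not_exists,
    not_not] at hn
  obtain ⟨⟨⟨⟨⟨⟨h1, h2⟩, h3⟩, h4⟩, h5⟩, h6⟩, h7⟩ := hn
  exact hw.2 (UnrB_main S ha hint hτ hD hDB hJ hw.1 h1 h2 h3 h4 h5 h6 h7)

end Pool.Agent.Lib.MP_bc213e_ag.Psef
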