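import Pool.Agent.Lib.MP_bc213e_ag.Psef.Pos
import Pool.Agent.Lib.MP_bc213e_ag.Psef.Appr
import Pool.Agent.Lib.MP_bc213e_ag.Psef.US
import Pool.Agent.Lib.MP_bc213e_ag.Psef.Unr
import Pool.Agent.Lib.MP_bc213e_ag.Psef.Cantat
import Pool.Agent.Lib.MP_bc213e_ag.Hyp.Germ

/-! Nonvanishing for the abstract data. -/

namespace Pool.Agent.Lib.MP_bc213e_ag.Psef.Ps

open WithZero Module Hyp

variable {K ι : Type} [Field K] [Algebra ℂ K] [Fintype ι] {n : ℕ} {P : Ps K ι n} {p : Val K → ℝ}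

/-- Sketch: `M (w ∘ φ) = 0` for almost all `w` with `w ∘ φ ∈ W`: for `w' ∈ W` with uniformiser `π`,
`w ∘ φ = w'` forces `w (φ π) ≠ 1`. -/
theorem fin_comap (P : Ps K ι n) :
    {w | w ∈ P.S.W ∧ w.comap P.S.φ.toRingHom ∈ P.S.W ∧ P.M (w.comap P.S.φ.toRingHom) ≠ 0}.Finite := by
  have key : ∀ w' ∈ {w | w ∈ P.S.W ∧ P.M w ≠ 0},
      {w | w ∈ P.S.W ∧ w.comap P.S.φ.toRingHom = w'}.Finite := by
    rintro w' ⟨⟨i, ⟨π, hπ⟩, -⟩, -⟩
    have h0 : π ≠ 0 := fun e => exp_ne_zero (by rw [← hπ, e, map_zero])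
    refine (P.S.supp_finite ((map_ne_zero P.S.φ).2 h0)).subset fun w hw => ⟨hw.1, fun e => ?_⟩
    have h1 : w' π = 1 := hw.2 ▸ e
    rw [hπ, ← exp_zero, exp_inj] at h1
    omega
  exact (P.finM.biUnion key).subset fun w hw => Set.mem_biUnion ⟨hw.2.1, hw.2.2⟩ ⟨hw.1, rfl⟩

/-- Sketch: `cantat` for `ν = M - p` (`level`, `le`, `inv`, `unr`, `fin_comap`). -/
theorem IsPos.fin (hp : P.IsPos p) : {w | w ∈ P.S.W ∧ p w ≠ P.M w}.Finite := by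
  have h := cantat P.S P.qf (fun w => P.M w - p w) (fun η hη => ?_)
    (F := ({w | w ∈ P.S.W ∧ w.comap P.S.φ.toRingHom ∉ P.S.W} ∪ {w | w ∈ P.S.W ∧ P.M w ≠ 0}) ∪
      ({w | w ∈ P.S.W ∧ w.comap P.S.φ.toRingHom ∈ P.S.W ∧ P.M (w.comap P.S.φ.toRingHom) ≠ 0} ∪
        {w | w ∈ P.S.W ∧ w P.h ≠ 1}))
    (((unr P.S).union P.finM).union (P.fin_comap.union (P.S.supp_finite P.hne))) fun w hw hF => ?_
  · exact h.subset fun w hw => ⟨hw.1, fun e => hw.2 (sub_eq_zero.1 e).symm⟩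
  · rcases lt_or_gt_of_ne hη with h1 | h1
    · refine Set.finite_empty.subset fun w hw => ?_
      have h2 := hp.le w hw.1
      have h3 := hw.2
      linarith
    · exact (hp.level h1).subset fun w hw => ⟨hw.1, hw.2.ge⟩
  · simp only [Set.mem_union, Set.mem_ofPred_eq, not_or, not_and, not_not] at hF
    obtain ⟨⟨h1, h2⟩, h3, h4⟩ := hF
    refine ⟨h1 hw, ?_⟩
    rw [h2 hw, h3 hw (h1 hw), hp.inv w (good_of_mem P.S hw), lg, h4 hw, log_one]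
    simp

/-- Sketch: as `Su.main`, with the families `Γ (⌊± t p⌋ + a H)`; `pull`, `qeff`, `us`, `germ`,
`pigeon`; `⌊t' p⌋ - ⌊t p⌋ ≤ (t' - t) M`. -/
theorem main (P : Ps K ι n) : ∃ (N : ℕ) (s : K), 0 < N ∧ s ≠ 0 ∧ s ∈ P.L N 0 := by
  have hp := P.isPos
  generalize P.pp = p at hp
  have hf := hp.fin
  obtain ⟨L, _, _, ⟨T⟩⟩ := exists_two P.S.φ
  obtain ⟨y, hy, hV⟩ := P.S.exists_indep
  obtain ⟨a₀, us⟩ := us P.S
  obtain ⟨b₀, qeff⟩ := hp.qeff hf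
  obtain ⟨a₁, z, hz, inv⟩ := hp.pull hf
  obtain ⟨B, hB⟩ := P.S.dim_le
  have sec : ∀ τ : ℤ, ∃ s : K, s ≠ 0 ∧
      s ∈ P.S.Γ fun w => ⌊τ * p w⌋ + (b₀ + a₀ : ℕ) * P.S.H w := fun τ => by
    obtain ⟨N, σ, hN, h0, hσ⟩ := qeff τ
    obtain ⟨s, hs0, hs⟩ := us (fun w => ⌊τ * p w⌋ + b₀ * P.S.H w)
      (((hf.union P.finM).union P.S.H_finite).subset fun w hw => by
        by_contra hc
        simp only [Set.mem_union, Set.mem_ofPred_eq, not_or, not_and, not_not] at hc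
        exact hw.2 (by rw [hc.1.1 hw.1, hc.1.2 hw.1, hc.2 hw.1]; simp)) N σ hN h0 hσ
    exact ⟨s, hs0, Gam_mono (fun w _ _ => le_of_eq (by push_cast; ring)) hs⟩
  have fam : ∀ τ : ℕ → ℤ, Fam (fun a : ℕ => P.S.Γ fun w => a * P.S.H w)
      fun t a : ℕ => P.S.Γ fun w => ⌊τ t * p w⌋ + a * P.S.H w := fun τ =>
    ⟨fun t a a' h => Gam_mono fun w _ _ => by
      have := P.S.H_nonneg w
      have h' : (a : ℤ) ≤ a' := by exact_mod_cast h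
      nlinarith,
    fun t a b r s hr hs => Gam_mono (fun w _ _ => le_of_eq (by push_cast; ring))
      (mul_mem_Gam hr hs)⟩
  have neg : ∀ (t : ℕ) (w : Val K), ⌊((t : ℤ) : ℝ) * p w⌋ + ⌊((- (t : ℤ) : ℤ) : ℝ) * p w⌋ ≤ 0 :=
    fun t w => by
    have h1 := Int.floor_le (((t : ℤ) : ℝ) * p w)
    have h2 := Int.floor_le (((- (t : ℤ) : ℤ) : ℝ) * p w)
    have h3 : ((⌊((t : ℤ) : ℝ) * p w⌋ + ⌊((- (t : ℤ) : ℤ) : ℝ) * p w⌋ : ℤ) : ℝ) ≤ 0 := by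
      push_cast at h1 h2 ⊢
      linarith
    exact_mod_cast h3
  obtain ⟨a, r, A, hr, hA, h⟩ := germ T
    (ni P.S.npos P.S.V P.S.one_mem P.S.den y hy hV P.S.hyp T)
    (fam fun t => (t : ℤ)) (fam fun t => - (t : ℤ)) (fun a => (hB a).1)
    (fun r r' => by
      obtain ⟨b, d, -, hd, h⟩ := den_fin P.S.V P.S.one_mem P.S.den ![r, r']
      exact ⟨b, d, hd, P.S.pow_le_Γ b (h 0), P.S.pow_le_Γ b (h 1)⟩)
    (fun t a a' s s' hs hs' => Gam_mono (fun w _ _ => by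
      have := neg t w
      push_cast at this ⊢
      linarith) (mul_mem_Gam hs hs'))
    (a₀ := b₀ + a₀) (a₁ := a₁) (fun t => sec t) (fun t => sec (- (t : ℤ)))
    (η := fun t => P.h ^ t) (fun t => pow_ne_zero t P.hne) hz
    (fun t a s hs => by simpa only [zpow_natCast] using inv t a s hs)
    (fun t a s hs => by simpa only [zpow_neg, zpow_natCast] using inv (- (t : ℤ)) a s hs)
  obtain ⟨t, t', s, hlt, hs, hw⟩ := pigeon P.S _ _ (fun t w _ => neg t w) a hr A hA h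
  refine ⟨t' - t, s, Nat.sub_pos_of_lt hlt, hs, fun w hW _ => ?_⟩
  rw [hw w hW, exp_le_exp]
  beta_reduce
  rw [Nat.cast_sub hlt.le, Nat.cast_zero, zero_mul, add_zero, sub_le_iff_le_add',
    ← Int.floor_add_intCast]
  refine Int.floor_mono ?_
  have h1 := hp.le w hW
  have h2 : (t : ℝ) ≤ t' := by exact_mod_cast hlt.le
  push_cast
  nlinarith

end Pool.Agent.Lib.MP_bc213e_ag.Psef.Ps
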