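import Pool.Agent.Lib.MP_bc213e_ag.Psef.Defs
import Pool.Agent.Lib.MP_bc213e_ag.Hyp.Pull

/-! Weil divisors on `X` and their sections. -/

namespace Pool.Agent.Lib.MP_bc213e_ag.Psef

open WithZero Module Hyp

variable {K ι : Type} [Field K] [Algebra ℂ K]

/-- Two different prime divisors are separated by a function. Sketch: otherwise the centre `𝔮` of
`w` (a nonzero prime ideal of `A`) lies in the centre of `w'`; `PrimeDiv.mem_of_prime` for `w'`
and `PrimeDiv.eq_of_centre`. -/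
theorem exists_sep {A : Subalgebra ℂ K} {w w' : Val K} (h : PrimeDiv A w) (h' : PrimeDiv A w')
    (hne : w ≠ w') : ∃ a ∈ A, w a < 1 ∧ w' a = 1 := by
  by_contra hc
  push Not at hc
  have h1 : ∀ a ∈ A, w a < 1 → w' a < 1 := fun a ha e => (h'.2.1 a ha).lt_of_ne (hc a ha e)
  obtain ⟨𝔮, hq, h2⟩ := primeCentre h
  obtain ⟨π, hπ⟩ := h.1
  have h3 : w π < 1 := by
    rw [hπ, ← exp_zero, exp_lt_exp]
    exact neg_one_lt_zero
  obtain ⟨b, -, h4, h5⟩ := h.2.2 π h3.le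
  have h6 : 𝔮 ≠ ⊥ := (Submodule.ne_bot_iff _).2 ⟨⟨b * π, h5⟩, (h2 _).2 (by simpa [h4] using h3),
    fun e => by simpa [h4, hπ] using congrArg (fun r : A => w r) e⟩
  exact hne (h.eq_of_centre h' fun a ha => ⟨h1 a ha, fun e => (h2 ⟨a, ha⟩).1
    (h'.mem_of_prime 𝔮 h6 (fun r hr => h1 r r.2 ((h2 r).1 hr)) ⟨a, ha⟩ e)⟩)

omit [Algebra ℂ K] in
/-- The pole order as a real number. -/
noncomputable def lg (v : Val K) (z : K) : ℝ := (log (v z) : ℤ)

omit [Algebra ℂ K] in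
theorem lg_mul (v : Val K) {y z : K} (hy : y ≠ 0) (hz : z ≠ 0) : lg v (y * z) = lg v y + lg v z := by
  rw [lg, map_mul, log_mul ((map_ne_zero v).2 hy) ((map_ne_zero v).2 hz), Int.cast_add, lg, lg]

omit [Algebra ℂ K] in
theorem lg_pow (v : Val K) (z : K) (j : ℕ) : lg v (z ^ j) = j * lg v z := by
  rw [lg, map_pow, log_pow, nsmul_eq_mul, Int.cast_mul, Int.cast_natCast, lg]

omit [Algebra ℂ K] in
theorem lg_zpow (v : Val K) (z : K) (j : ℤ) : lg v (z ^ j) = j * lg v z := by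
  rw [lg, map_zpow₀, log_zpow, smul_eq_mul, Int.cast_mul, lg]

omit [Algebra ℂ K] in
theorem lg_le_iff (v : Val K) {z : K} (hz : z ≠ 0) (d : ℤ) : lg v z ≤ d ↔ v z ≤ exp d := by
  rw [lg, Int.cast_le, log_le_iff_le_exp ((map_ne_zero v).2 hz)]

theorem lg_comap (v : Val K) (φ : K →ₐ[ℂ] K) (z : K) : lg (v.comap φ.toRingHom) z = lg v (φ z) :=
  rfl

variable [Fintype ι] {n : ℕ} (S : Su K ι n)

/-- Sketch: `chart_le_iff`, `chart_trans`; `x i' / x i` is a `w`-unit. -/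
theorem prime_trans {w : Val K} (hw : w ∈ S.W) {i : ι} (hi : ∀ j, w (S.x j) ≤ w (S.x i)) :
    PrimeDiv (chart S.x i) w := by
  obtain ⟨k, hk⟩ := id hw
  refine ⟨hk.1, (chart_le_iff S.x i (S.triv hw)).2 hi, fun z hz => ?_⟩
  obtain ⟨b, h1, h2, h3⟩ := hk.2.2 z hz
  obtain ⟨e, he⟩ := chart_trans S.x k i h1
  obtain ⟨e', he'⟩ := chart_trans S.x k i h3
  have h4 : w ((S.x k : K) / S.x i) = 1 := by
    rw [map_div₀, le_antisymm (hi k) (S.basicB_max hk i), div_self (Basic_pos w _).ne']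
  refine ⟨_, mul_mem he (pow_mem (Basic_mem S.x i k) e'), by simp only [map_mul, map_pow, h2, h4,
    one_pow, mul_one], ?_⟩
  have h5 := mul_mem he' (pow_mem (Basic_mem S.x i k) e)
  rwa [mul_right_comm, mul_right_comm b, mul_right_comm] at h5

theorem le_of_Γ {μ : ℕ} {r : K} (hr : r ∈ S.Γ fun w => μ * S.H w) {v : Val K} (hv : Triv v) :
    v r ≤ exp (μ * S.H v) := by
  simpa using S.le_of_mem (t := 0) (a := μ) (by simpa using hr) hv

/-- Hartogs on one chart. -/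
theorem hart {i : ι} {c : ℕ} {β : K}
    (h : ∀ w ∈ S.W, (∀ j, w (S.x j) ≤ w (S.x i)) → w β ≤ exp (c * S.H w)) {v : Val K} (hv : Triv v)
    (hi : ∀ j, v (S.x j) ≤ v (S.x i)) : v β ≤ exp (c * S.H v) := by
  have key : ∀ w : Val K, (∀ j, w (S.x j) ≤ w (S.x i)) →
      (w (β / (S.x i : K) ^ c) ≤ 1 ↔ w β ≤ exp (c * S.H w)) := fun w hw => by
    rw [map_div₀, map_pow, div_le_one₀ (pow_pos (Basic_pos w _) c), S.exp_H hw, ← exp_nsmul,
      nsmul_eq_mul]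
  have := chart_noeth S.x i
  have := S.frac i
  have := S.norm i
  exact (key v hi).1 ((chart_le_iff S.x i hv).2 hi _ (hartogs fun w hw =>
    (key w (S.basicB_max hw)).2 (h w ⟨i, hw⟩ (S.basicB_max hw))))

variable {D : Val K → ℤ}

theorem exists_bound (fin : {w | w ∈ S.W ∧ D w ≠ 0}.Finite) (z : K) :
    ∃ N : ℕ, ∀ w ∈ S.W, w z ≤ exp (D w + N) := by
  rcases eq_or_ne z 0 with rfl | hz
  · exact ⟨0, fun w _ => by simp⟩
  obtain ⟨B, hB⟩ := ((fin.union (S.supp_finite hz)).image fun w => log (w z) - D w).bddAbove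
  refine ⟨B.toNat, fun w hw => (log_le_iff_le_exp ((map_ne_zero w).2 hz)).1 ?_⟩
  by_cases h : D w ≠ 0 ∨ w z ≠ 1
  · have : log (w z) - D w ≤ B := hB ⟨w, h.imp (fun e => ⟨hw, e⟩) fun e => ⟨hw, e⟩, rfl⟩
    omega
  · push Not at h
    rw [h.1, h.2, log_one]
    omega

theorem GenB_sep {A : Subalgebra ℂ K} {w₀ : Val K} (h₀ : PrimeDiv A w₀) {Z : Set (Val K)}
    (hZ : Z.Finite) (h : ∀ w ∈ Z, PrimeDiv A w ∧ w ≠ w₀) :
    ∃ b ∈ A, w₀ b = 1 ∧ ∀ w ∈ Z, w b ≤ exp (-1) := by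
  induction Z, hZ using Set.Finite.induction_on with
  | empty => exact ⟨1, A.one_mem, map_one _, fun w hw => hw.elim⟩
  | @insert v Z _ _ ih =>
    obtain ⟨b, hb, hb0, hbZ⟩ := ih fun w hw => h w (Set.mem_insert_of_mem _ hw)
    obtain ⟨hv, hne⟩ := h v (Set.mem_insert _ _)
    obtain ⟨a, ha, ha1, ha0⟩ := exists_sep hv h₀ hne
    refine ⟨a * b, A.mul_mem ha hb, by rw [map_mul, ha0, hb0, mul_one], fun w hw => ?_⟩
    rw [map_mul]
    rcases hw with rfl | hw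
    · exact (mul_le_mul' (primeExp ha1) (hv.2.1 b hb)).trans_eq (mul_one _)
    · exact (mul_le_mul' ((h w (Set.mem_insert_of_mem _ hw)).1.2.1 a ha) (hbZ w hw)).trans_eq
        (one_mul _)

theorem GenB_lt {w : Val K} {i : ι} (hi : ¬ ∀ j, w (S.x j) ≤ w (S.x i)) :
    w (S.x i) ≤ exp (S.H w - 1) := by
  obtain ⟨j, hj⟩ := not_forall.1 hi
  have h1 : w (S.x i) < exp (S.H w) :=
    (not_le.1 hj).trans_le ((S.ctr_max w j).trans_eq (S.exp_H (S.ctr_max w)))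
  rw [← exp_log (Basic_pos w (S.x i)).ne', exp_lt_exp] at h1
  rw [← exp_log (Basic_pos w (S.x i)).ne', exp_le_exp]
  omega

/-- Sketch: `i = ctr w₀`, `π` a uniformiser, `δ₀ = π ^ (- D w₀)`, `N` from `exists_bound`. On the
finite set `Z` of `w ≠ w₀` in the chart `i` with `exp (D w) < w δ₀` take `a w` from `exists_sep`
(`prime_trans`); `δ₁ = δ₀ ∏ a w ^ N` satisfies `w δ₁ ≤ exp (D w)` on the chart `i`. With `N'` from
`exists_bound` for `δ₁` take `δ₁ x i ^ a`, `a ≥ N'`: outside the chart `w (x i) ≤ exp (H w - 1)`. -/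
theorem exists_exact (fin : {w | w ∈ S.W ∧ D w ≠ 0}.Finite) {w₀ : Val K} (hw₀ : w₀ ∈ S.W) :
    ∃ a₀ : ℕ, ∀ a : ℕ, a₀ ≤ a → ∃ δ : K, (δ ∈ S.Γ fun w => D w + a * S.H w) ∧
      w₀ δ = exp (D w₀ + a * S.H w₀) := by
  have hi := S.ctr_max w₀
  set i := S.ctr w₀
  have hp₀ := prime_trans S hw₀ hi
  obtain ⟨π, hπ⟩ := hp₀.1
  have hπ0 : π ≠ 0 := (map_ne_zero w₀).1 (hπ ▸ exp_ne_zero)
  have h0 : w₀ (π ^ (-D w₀)) = exp (D w₀) := by
    rw [pull_val_zpow w₀ hπ0, hπ, log_exp]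
    congr 1
    ring
  obtain ⟨N, hN⟩ := exists_bound S fin (π ^ (-D w₀))
  have hZ : {w | w ∈ S.W ∧ w ≠ w₀ ∧ (∀ j, w (S.x j) ≤ w (S.x i)) ∧
      exp (D w) < w (π ^ (-D w₀))}.Finite := by
    refine (fin.union (S.supp_finite (zpow_ne_zero (-D w₀) hπ0))).subset fun w hw => ?_
    by_cases hD : D w = 0
    · refine Or.inr ⟨hw.1, fun h1 => ?_⟩
      have h2 := hw.2.2.2
      rw [hD, h1, exp_zero] at h2
      exact lt_irrefl _ h2
    · exact Or.inl ⟨hw.1, hD⟩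
  obtain ⟨b, hb, hb0, hbZ⟩ := GenB_sep hp₀ hZ fun w hw => ⟨prime_trans S hw.1 hw.2.2.1, hw.2.1⟩
  have h1 : w₀ (π ^ (-D w₀) * b ^ N) = exp (D w₀) := by
    rw [map_mul, h0, map_pow, hb0, one_pow, mul_one]
  have h2 : ∀ w ∈ S.W, (∀ j, w (S.x j) ≤ w (S.x i)) → w (π ^ (-D w₀) * b ^ N) ≤ exp (D w) := by
    intro w hw hwi
    by_cases hww : w = w₀
    · rw [hww, h1]
    rw [map_mul]
    by_cases hlt : exp (D w) < w (π ^ (-D w₀))
    · refine (mul_le_mul' (hN w hw) (pull_val_pow_le w (hbZ w ⟨hw, hww, hwi, hlt⟩) N)).trans_eq ?_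
      rw [← exp_add]
      congr 1
      ring
    · exact (mul_le_mul' (not_lt.1 hlt)
        ((prime_trans S hw hwi).2.1 _ ((chart S.x i).pow_mem hb N))).trans_eq (mul_one _)
  obtain ⟨N', hN'⟩ := exists_bound S fin (π ^ (-D w₀) * b ^ N)
  refine ⟨N', fun a ha => ⟨π ^ (-D w₀) * b ^ N * (S.x i : K) ^ a, fun w hw _ => ?_, ?_⟩⟩
  · beta_reduce
    rw [map_mul]
    by_cases hwi : ∀ j, w (S.x j) ≤ w (S.x i)
    · rw [exp_add]
      exact mul_le_mul' (h2 w hw hwi) (pull_val_pow_le w (S.exp_H hwi).le a)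
    · refine (mul_le_mul' (hN' w hw) (pull_val_pow_le w (GenB_lt S hwi) a)).trans ?_
      rw [← exp_add, exp_le_exp]
      have h3 : (N' : ℤ) ≤ a := by exact_mod_cast ha
      linarith
  · rw [map_mul, h1, map_pow, S.exp_H hi, ← exp_nsmul, nsmul_eq_mul, exp_add]

theorem exists_kappa (fin : {w | w ∈ S.W ∧ D w ≠ 0}.Finite) :
    ∃ (c : ℕ) (κ : K), κ ≠ 0 ∧ κ ∈ S.Γ fun w => D w + c * S.H w := by
  rcases S.W.eq_empty_or_nonempty with he | ⟨w₀, hw₀⟩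
  · refine ⟨0, 1, one_ne_zero, fun w hw _ => ?_⟩
    rw [he] at hw
    exact hw.elim
  · obtain ⟨a, ha⟩ := exists_exact S fin hw₀
    obtain ⟨δ, h1, h2⟩ := ha a le_rfl
    exact ⟨a, δ, (map_ne_zero w₀).1 (h2 ▸ exp_ne_zero), h1⟩

/-- Generators in codimension one. Sketch: `κ` from `exists_kappa` works outside the finite set
where `D`, `H` or `κ` is nontrivial; `exists_exact` on this set. -/
theorem exists_family (fin : {w | w ∈ S.W ∧ D w ≠ 0}.Finite) :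
    ∃ (a : ℕ) (T : Finset K), T.Nonempty ∧
      (∀ δ ∈ T, δ ≠ 0 ∧ δ ∈ S.Γ fun w => D w + a * S.H w) ∧
      ∀ w ∈ S.W, ∃ δ ∈ T, w δ = exp (D w + a * S.H w) := by
  classical
  obtain ⟨c, κ, hκ0, hκ⟩ := exists_kappa S fin
  have hB := (fin.union S.H_finite).union (S.supp_finite hκ0)
  have hBW : ∀ w ∈ hB.toFinset, w ∈ S.W := fun w hw => by
    rcases hB.mem_toFinset.1 hw with (h | h) | h <;> exact h.1
  choose! a₀ ha₀ using fun (w : Val K) (hw : w ∈ S.W) => exists_exact S fin hw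
  have hle : ∀ w ∈ hB.toFinset, a₀ w ≤ max c (hB.toFinset.sup a₀) := fun w hw =>
    (Finset.le_sup hw).trans (le_max_right _ _)
  choose! δ hδ hδ' using fun (w : Val K) (hw : w ∈ hB.toFinset) =>
    ha₀ w (hBW w hw) _ (hle w hw)
  refine ⟨max c (hB.toFinset.sup a₀), insert κ (hB.toFinset.image δ), Finset.insert_nonempty _ _,
    fun z hz => ?_, fun w hw => ?_⟩
  · rcases Finset.mem_insert.1 hz with rfl | hz
    · refine ⟨hκ0, Gam_mono (fun w _ _ => ?_) hκ⟩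
      have h1 : (c : ℤ) ≤ (max c (hB.toFinset.sup a₀) : ℕ) := by exact_mod_cast le_max_left _ _
      exact add_le_add le_rfl (mul_le_mul_of_nonneg_right h1 (S.H_nonneg w))
    · obtain ⟨w, hw, rfl⟩ := Finset.mem_image.1 hz
      exact ⟨(map_ne_zero w).1 (hδ' w hw ▸ exp_ne_zero), hδ w hw⟩
  · by_cases hwB : w ∈ hB.toFinset
    · exact ⟨δ w, Finset.mem_insert_of_mem (Finset.mem_image_of_mem _ hwB), hδ' w hwB⟩
    · rw [hB.mem_toFinset] at hwB
      have h1 : D w = 0 := by_contra fun h => hwB (Or.inl (Or.inl ⟨hw, h⟩))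
      have h2 : S.H w = 0 := by_contra fun h => hwB (Or.inl (Or.inr ⟨hw, h⟩))
      have h3 : w κ = 1 := by_contra fun h => hwB (Or.inr ⟨hw, h⟩)
      refine ⟨κ, Finset.mem_insert_self _ _, ?_⟩
      rw [h1, h2, h3, mul_zero, add_zero, exp_zero]

theorem fd_Γ (fin : {w | w ∈ S.W ∧ D w ≠ 0}.Finite) : FiniteDimensional ℂ (S.Γ D) := by
  obtain ⟨c, κ, h0, h1⟩ := exists_kappa S (D := fun w => - D w) (by simpa using fin)
  obtain ⟨B, hB⟩ := S.dim_le
  have := (hB c).1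
  refine FiniteDimensional.of_injective ((LinearMap.mulLeft ℂ κ).restrict
    (q := S.Γ fun w => c * S.H w) fun s hs => ?_) fun s s' e =>
      Subtype.ext (mul_left_cancel₀ h0 (congrArg Subtype.val e))
  exact Gam_mono (fun w _ _ => by omega) (mul_mem_Gam h1 hs)

/-- Valuations with a linear bound for the order of vanishing of sections of `μ H`. -/
def Good (v : Val K) : Prop :=
  Triv v ∧ ∃ C : ℕ, ∀ (μ : ℕ) (r : K), r ≠ 0 → (r ∈ S.Γ fun w => μ * S.H w) →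
    - (C * μ : ℝ) ≤ lg v r

/-- Sketch: `Su.bz` with `Z = {w}`. -/
theorem good_of_mem {w : Val K} (hw : w ∈ S.W) : Good S w := by
  obtain ⟨δ, cls, -, h⟩ := S.bz
  refine ⟨S.triv hw, δ, fun μ r h0 hr => ?_⟩
  have h1 := h μ r h0 hr {w} (by simpa using hw) (by simp)
  have h2 := mul_nonneg (Int.natCast_nonneg μ) (S.H_nonneg w)
  rw [Finset.sum_singleton] at h1
  have h3 : - ((δ : ℤ) * μ) ≤ log (w r) := by linarith
  rw [lg]
  exact_mod_cast h3

/-- Sketch: `a, z` from `exists_z 1`; `φ r * z ^ μ ∈ Γ (μ a H)`. -/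
theorem Good.comap {v : Val K} (hv : Good S v) : Good S (v.comap S.φ.toRingHom) := by
  obtain ⟨hv, C, hC⟩ := hv
  obtain ⟨a, z, h0, hz⟩ := S.exists_z 1
  obtain ⟨N, hN⟩ := exists_nat_ge (lg v z)
  refine ⟨hv.comap _, C * a + N, fun μ r hr h => ?_⟩
  have h1 : S.φ r ≠ 0 := (map_ne_zero S.φ).2 hr
  have h2 := hC (μ * a) (S.φ r * z ^ μ) (mul_ne_zero h1 (pow_ne_zero _ h0)) fun w _ hw => by
    have h3 := pull_val_pow_le w (hz w hw) μ
    rw [Su.Hk, pow_one] at h3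
    rw [map_mul]
    refine (mul_le_mul' (le_of_Γ S h (hw.comap S.φ)) h3).trans_eq ?_
    rw [← exp_add]
    congr 1
    push_cast
    ring
  rw [lg_mul v h1 (pow_ne_zero _ h0), lg_pow] at h2
  rw [lg_comap]
  push_cast at h2 ⊢
  nlinarith [mul_le_mul_of_nonneg_left hN (Nat.cast_nonneg (α := ℝ) μ)]

end Pool.Agent.Lib.MP_bc213e_ag.Psef
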