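import Pool.Agent.Lib.MP_bc213e_ag.Psef.Ext

/-! Logarithmic coordinates at a divisorial valuation. -/

namespace Pool.Agent.Lib.MP_bc213e_ag.Psef

open WithZero Module Hyp MvPolynomial

variable {K ι : Type} [Field K] [Algebra ℂ K] {n : ℕ}

/-- `T a₀` vanishes at `v` and the residues of the other `T a` are algebraically independent. -/
structure Crd (v : Val K) (T : Fin n → K) (a₀ : Fin n) : Prop where
  ne : T a₀ ≠ 0
  lt : v (T a₀) < 1
  le : ∀ a, v (T a) ≤ 1
  res : ∀ Q : MvPolynomial (Fin n) ℂ, Q ≠ 0 → Q.degreeOf a₀ = 0 → v (aeval T Q) = 1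

theorem LogA_update (T : Fin n → K) (a₀ : Fin n) (x : K) {Q : MvPolynomial (Fin n) ℂ}
    (hQ : Q.degreeOf a₀ = 0) : aeval (Function.update T a₀ x) Q = aeval T Q := by
  refine eval₂Hom_congr' (f₁ := algebraMap ℂ K) (f₂ := algebraMap ℂ K) rfl (fun i hi _ => ?_) rfl
  refine Function.update_of_ne (fun e => ?_) _ _
  rw [e, mem_vars_iff_degreeOf_ne_zero] at hi
  exact hi hQ

theorem LogA_mod (ρ : MvPolynomial (Fin n) ℂ) (a₀ : Fin n) :
    (ρ.modMonomial (Finsupp.single a₀ 1)).degreeOf a₀ = 0 := by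
  refine Nat.le_zero.1 (degreeOf_le_iff.2 fun m hm => ?_)
  by_contra hne
  refine MvPolynomial.mem_support_iff.1 hm (coeff_modMonomial_of_le _ ?_)
  rw [Finsupp.single_le_iff]
  omega

theorem LogA_div {ρ : MvPolynomial (Fin n) ℂ} {a₀ : Fin n} {d : ℕ} (h : ρ.degreeOf a₀ ≤ d + 1) :
    (ρ.divMonomial (Finsupp.single a₀ 1)).degreeOf a₀ ≤ d := by
  refine degreeOf_le_iff.2 fun m hm => ?_
  rw [MvPolynomial.mem_support_iff, coeff_divMonomial, ← MvPolynomial.mem_support_iff] at hm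
  have h2 := degreeOf_le_iff.1 h _ hm
  rw [Finsupp.add_apply, Finsupp.single_eq_same] at h2
  omega

theorem LogA_pderiv {ρ : MvPolynomial (Fin n) ℂ} {a₀ : Fin n} (h : ρ.degreeOf a₀ ≠ 0) :
    pderiv a₀ ρ ≠ 0 ∧ (pderiv a₀ ρ).degreeOf a₀ < ρ.degreeOf a₀ := by
  constructor
  · obtain ⟨μ, hμ, ha⟩ : ∃ μ ∈ ρ.support, μ a₀ ≠ 0 := by
      by_contra hne
      push Not at hne
      exact h (Nat.le_zero.1 (degreeOf_le_iff.2 fun m hm => (hne m hm).le))
    intro h0
    have h2 := coeff_pderiv (i := a₀) ρ (μ - Finsupp.single a₀ 1)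
    rw [h0, coeff_zero, Finsupp.sub_add_single_one_cancel ha] at h2
    exact mul_ne_zero (MvPolynomial.mem_support_iff.1 hμ) (Nat.cast_add_one_ne_zero _) h2.symm
  · refine (degreeOf_lt_iff (Nat.pos_of_ne_zero h)).2 fun ν hν => ?_
    have h2 : ν + Finsupp.single a₀ 1 ∈ ρ.support := by
      rw [MvPolynomial.mem_support_iff] at hν ⊢
      rw [coeff_pderiv] at hν
      exact left_ne_zero_of_mul hν
    have h3 := monomial_le_degreeOf a₀ h2
    rw [Finsupp.add_apply, Finsupp.single_eq_same] at h3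
    omega

/-- Sketch: induction on the degree; `ρ = X a₀ * ρ' + ρ''` with `ρ'' = modMonomial ρ (single a₀ 1)`
(`divMonomial_add_modMonomial_single`); if `aeval T ρ = 0` then `v (aeval T ρ'') < 1`, so
`ρ'' = 0`. -/
theorem Crd.indep {v : Val K} (hv : Triv v) {T : Fin n → K} {a₀ : Fin n} (h : Crd v T a₀) :
    AlgebraicIndependent ℂ T := by
  have key : ∀ (d : ℕ) (ρ : MvPolynomial (Fin n) ℂ), ρ.degreeOf a₀ ≤ d → aeval T ρ = 0 →
      ρ = 0 := by
    intro d
    induction d with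
    | zero =>
      intro ρ hd h0
      by_contra hne
      have h1 := h.res ρ hne (Nat.le_zero.1 hd)
      rw [h0, map_zero] at h1
      exact zero_ne_one h1
    | succ d ih =>
      intro ρ hd h0
      have e := divMonomial_add_modMonomial_single ρ a₀
      have e1 := congrArg (aeval T) e
      rw [h0, map_add, map_mul, aeval_X] at e1
      have h2 : ρ.modMonomial (Finsupp.single a₀ 1) = 0 := by
        by_contra hne
        have h1 := h.res _ hne (LogA_mod ρ a₀)
        rw [eq_neg_of_add_eq_zero_right e1, Valuation.map_neg, map_mul] at h1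
        exact absurd h1 ((mul_le_of_le_one_right' (DerA_aeval_le hv h.le _)).trans_lt h.lt).ne
      rw [h2, map_zero, add_zero] at e1
      have h3 := ih _ (LogA_div hd) ((mul_eq_zero.1 e1).resolve_left h.ne)
      rw [h2, h3, mul_zero, add_zero] at e
      exact e.symm
  exact algebraicIndependent_iff.2 fun ρ h0 => key _ ρ le_rfl h0

theorem Crd.map {w v : Val K} {T : Fin n → K} {a₀ : Fin n} (h : Crd w T a₀) (ψ : K →ₐ[ℂ] K) {k : ℕ}
    (hk : 0 < k) (hv : ∀ z, v (ψ z) = w z ^ k) : Crd v (fun a => ψ (T a)) a₀ := by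
  refine ⟨(map_ne_zero ψ).2 h.ne, ?_, fun a => ?_, fun Q hQ hd => ?_⟩
  · rw [hv]
    exact pow_lt_one₀ zero_le h.lt hk.ne'
  · rw [hv]
    exact pow_le_one' (h.le a) k
  · have e : aeval (fun a => ψ (T a)) Q = ψ (aeval T Q) := by
      rw [← AlgHom.comp_apply, comp_aeval]
    rw [e, hv, h.res Q hQ hd, one_pow]

/-- The residue of a unit is separably algebraic over the residues of the coordinates. Sketch:
`Y = Function.update T a₀ x`. Some `ρ ≠ 0` has `v (aeval Y ρ) < 1` (if `Y` is independent it is a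
transcendence basis, use `exists_poly_lt` with `π = T a₀`). Take `ρ` of least degree in `a₀`; the
degree is positive by `res` (`aeval Y Q = aeval T Q` if `Q` does not involve `a₀`), so
`pderiv a₀ ρ ≠ 0` has smaller degree. -/
theorem Crd.exists_sep (dim : Algebra.trdeg ℂ K = n) {v : Val K} (hv : Triv v) {T : Fin n → K}
    {a₀ : Fin n} (h : Crd v T a₀) {x : K} (hx : v x ≤ 1) : ∃ ρ : MvPolynomial (Fin n) ℂ,
      v (aeval (Function.update T a₀ x) ρ) < 1 ∧
        v (aeval (Function.update T a₀ x) (pderiv a₀ ρ)) = 1 := by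
  classical
  have hY : ∀ a, v (Function.update T a₀ x a) ≤ 1 := fun a => by
    by_cases ha : a = a₀
    · rw [ha, Function.update_self]
      exact hx
    · rw [Function.update_of_ne ha]
      exact h.le a
  have hex : ∃ d, ∃ ρ : MvPolynomial (Fin n) ℂ, ρ.degreeOf a₀ = d ∧ ρ ≠ 0 ∧
      v (aeval (Function.update T a₀ x) ρ) < 1 := by
    by_cases hi : AlgebraicIndependent ℂ (Function.update T a₀ x)
    · obtain ⟨ρ, h1⟩ := exists_poly_lt
        (TCI.isTrBasis_of_card _ hi (by rw [dim, Fintype.card_fin])) hv hY h.ne h.lt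
      exact ⟨_, ρ, rfl, h1⟩
    · rw [algebraicIndependent_iff] at hi
      push Not at hi
      obtain ⟨ρ, h1, h2⟩ := hi
      refine ⟨_, ρ, rfl, h2, ?_⟩
      rw [h1, map_zero]
      exact zero_lt_one
  obtain ⟨ρ, hd, hρ0, hρ⟩ := Nat.find_spec hex
  have hpos : ρ.degreeOf a₀ ≠ 0 := fun h0 => by
    rw [LogA_update T a₀ x h0, h.res ρ hρ0 h0] at hρ
    exact lt_irrefl _ hρ
  obtain ⟨p0, p1⟩ := LogA_pderiv hpos
  refine ⟨ρ, hρ, le_antisymm (DerA_aeval_le hv hY _) (not_lt.1 fun h1 => ?_)⟩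
  exact Nat.find_min hex (hd ▸ p1) ⟨_, rfl, p0, h1⟩

theorem LogB_der_aeval (δ : Derivation ℂ K K) (Y : Fin n → K) (ρ : MvPolynomial (Fin n) ℂ) :
    δ (aeval Y ρ) = ∑ a, aeval Y (pderiv a ρ) * δ (Y a) := by
  induction ρ using MvPolynomial.induction_on with
  | C c => simp
  | add p q hp hq => simp only [map_add, hp, hq, add_mul, Finset.sum_add_distrib]
  | mul_X p i hp =>
    have e : ∀ a, aeval Y (pderiv a (p * X i)) * δ (Y a) =
        Y i * (aeval Y (pderiv a p) * δ (Y a)) + if i = a then aeval Y p * δ (Y a) else 0 := by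
      intro a
      rw [Derivation.leibniz, pderiv_X, Pi.single_apply]
      split_ifs <;> simp <;> ring
    simp only [e, Finset.sum_add_distrib, Finset.sum_ite_eq, Finset.mem_univ, if_true,
      ← Finset.mul_sum, ← hp]
    rw [map_mul, aeval_X, Derivation.leibniz, smul_eq_mul, smul_eq_mul, add_comm]

theorem LogB_le_exp {x : WithZero (Multiplicative ℤ)} (h : x < 1) : x ≤ exp (-1) := by
  rcases eq_or_ne x 0 with rfl | h0
  · exact zero_le
  rw [← exp_log h0, ← exp_zero, exp_lt_exp] at h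
  rw [← exp_log h0, exp_le_exp]
  omega

theorem LogB_int {v : Val K} (hv : Triv v) (k : ℤ) : v (k : K) ≤ 1 ∧ (k ≠ 0 → v (k : K) = 1) := by
  have h1 : v (k : K) ≤ 1 := by simpa using hv k
  refine ⟨h1, fun hk => le_antisymm h1 ?_⟩
  have h2 := hv (k : ℂ)⁻¹
  have h3 : (k : K) ≠ 0 := by
    rw [← map_intCast (algebraMap ℂ K), map_ne_zero]
    exact Int.cast_ne_zero.2 hk
  rwa [map_inv₀, map_intCast, map_inv₀, inv_le_one₀ ((v.pos_iff).2 h3)] at h2

theorem LogB_scale {v : Val K} (hv : Triv v) {π : K} (h0 : π ≠ 0) (h1 : v π < 1)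
    (δ : Derivation ℂ K K) (hδ : v (δ π) ≤ v π) {C : ℕ}
    (bdd : ∀ z, v z ≤ 1 → v (δ z) ≤ exp (C : ℤ)) (z : K) : v (δ z) ≤ exp (C : ℤ) * v z := by
  rcases eq_or_ne z 0 with rfl | hz
  · simp
  have p0 : v π ≠ 0 := (map_ne_zero v).2 h0
  have z0 : v z ≠ 0 := (map_ne_zero v).2 hz
  obtain ⟨k, hk⟩ : ∃ k, v π = exp k := ⟨_, (exp_log p0).symm⟩
  obtain ⟨j, hj⟩ : ∃ j, v z = exp j := ⟨_, (exp_log z0).symm⟩
  have k0 : k ≠ 0 := by
    rintro rfl
    rw [hk, exp_zero] at h1
    exact lt_irrefl _ h1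
  have hx : v (z ^ k * π ^ (-j)) = 1 := by
    rw [map_mul, map_zpow₀, map_zpow₀, hk, hj, ← exp_zsmul, ← exp_zsmul, ← exp_add, ← exp_zero]
    congr 1
    simp only [smul_eq_mul]
    ring
  have e : (k : K) * δ z = z * ((z ^ k * π ^ (-j))⁻¹ * δ (z ^ k * π ^ (-j)) + j * (δ π / π)) := by
    rw [Derivation.leibniz, Derivation.leibniz_zpow, Derivation.leibniz_zpow]
    simp only [smul_eq_mul, zsmul_eq_mul, zpow_sub₀ hz, zpow_sub₀ h0, zpow_one, Int.cast_neg]
    have := zpow_ne_zero k hz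
    have := zpow_ne_zero (-j) h0
    field_simp
    ring
  have hC : (1 : WithZero (Multiplicative ℤ)) ≤ exp (C : ℤ) := by
    rw [← exp_zero, exp_le_exp]
    exact Int.natCast_nonneg C
  have e2 := congrArg v e
  rw [map_mul, (LogB_int hv k).2 k0, one_mul, map_mul, mul_comm] at e2
  rw [e2]
  refine mul_le_mul_left (v.map_add_le ?_ (le_trans ?_ hC)) _
  · rw [map_mul, map_inv₀, hx, inv_one, one_mul]
    exact bdd _ hx.le
  · rw [map_mul, map_div₀]
    exact mul_le_one' (LogB_int hv j).1 (div_le_one_of_le₀ hδ zero_le)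

/-- A bounded logarithmic derivation is contracting. Sketch: if `v (δ x) ≤ exp C` for all units
`x`, `C ≥ 0`, then `v (δ z) ≤ exp C * v z` for all `z` (with `v (T a₀) = exp (-k)`,
`v z = exp (-j)` the element `z ^ k / T a₀ ^ j` is a unit; `Derivation.leibniz_zpow`). If `C ≥ 1`,
`exists_sep` and `δ (aeval Y ρ) = ∑ a, aeval Y (pderiv a ρ) * δ (Y a)` improve `C` to `C - 1`. -/
theorem Crd.contr (dim : Algebra.trdeg ℂ K = n) {v : Val K} (hv : Triv v) {T : Fin n → K}
    {a₀ : Fin n} (h : Crd v T a₀) (δ : Derivation ℂ K K) (h0 : v (δ (T a₀)) ≤ v (T a₀))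
    (h1 : ∀ a, v (δ (T a)) ≤ 1) {C : ℕ} (bdd : ∀ z, v z ≤ 1 → v (δ z) ≤ exp (C : ℤ)) (z : K) :
    v (δ z) ≤ v z := by
  induction C with
  | zero => simpa using LogB_scale hv h.ne h.lt δ h0 bdd z
  | succ C ih =>
    refine ih fun x hx => ?_
    obtain ⟨ρ, r1, r2⟩ := h.exists_sep dim hv hx
    have hC : (1 : WithZero (Multiplicative ℤ)) ≤ exp (C : ℤ) := by
      rw [← exp_zero, exp_le_exp]
      exact Int.natCast_nonneg C
    have hY : ∀ a, v (Function.update T a₀ x a) ≤ 1 := fun a => by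
      rcases eq_or_ne a a₀ with rfl | ha
      · rwa [Function.update_self]
      · rw [Function.update_of_ne ha]
        exact h.le a
    have e1 : v (δ (aeval (Function.update T a₀ x) ρ)) ≤ exp (C : ℤ) := by
      refine (LogB_scale hv h.ne h.lt δ h0 bdd _).trans ?_
      refine (mul_le_mul_right (LogB_le_exp r1) _).trans_eq ?_
      rw [← exp_add]
      congr 1
      push_cast
      ring
    have e2 : v (∑ a ∈ Finset.univ.erase a₀, aeval (Function.update T a₀ x) (pderiv a ρ) *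
        δ (Function.update T a₀ x a)) ≤ exp (C : ℤ) := by
      refine v.map_sum_le fun a ha => le_trans ?_ hC
      rw [Function.update_of_ne (Finset.ne_of_mem_erase ha), map_mul]
      exact mul_le_one' (DerA_aeval_le hv hY _) (h1 a)
    rw [LogB_der_aeval, ← Finset.add_sum_erase _ _ (Finset.mem_univ a₀), Function.update_self] at e1
    have e3 := v.map_sub_le e1 e2
    rwa [add_sub_cancel_right, map_mul, r2, one_mul] at e3

/-- The form `dT / T a₀` generates the logarithmic canonical module. Sketch: `d` dual to `T`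
(`indep`, `TCI.isTrBasis_of_card`, `TCI.exists_dual`), `δ a₀ = T a₀ • d a₀`, `δ a = d a` otherwise;
`contr`; the matrix `δ a (u b)` with the column `a₁` divided by `u a₁` has entries of value at most
one (`Matrix.det_apply`); `TCI.det_der_expand`. If `u a₁ = 0` the Jacobian vanishes. -/
theorem Crd.jac_le (dim : Algebra.trdeg ℂ K = n) {v : Val K} (hv : Triv v) {T : Fin n → K}
    {a₀ : Fin n} (h : Crd v T a₀)
    (bdd : ∀ δ : Derivation ℂ K K, ∃ C : ℕ, ∀ z, v z ≤ 1 → v (δ z) ≤ exp (C : ℤ))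
    (D : Fin n → Derivation ℂ K K) (u : Fin n → K) (hu : ∀ b, v (u b) ≤ 1) (a₁ : Fin n) :
    v (jac D u * T a₀) ≤ v (jac D T * u a₁) := by
  have hT := TCI.isTrBasis_of_card T (h.indep hv) (by rw [dim, Fintype.card_fin])
  obtain ⟨d, hd⟩ := TCI.exists_dual T hT
  let c : Fin n → K := fun a => if a = a₀ then T a₀ else 1
  have hc : ∀ a, v (c a) ≤ 1 := fun a => by
    simp only [c]
    split_ifs
    exacts [h.le _, (map_one v).le]
  have key : ∀ a z, v (c a * d a z) ≤ v z := fun a z => by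
    obtain ⟨C, hC⟩ := bdd (c a • d a)
    refine h.contr dim hv (c a • d a) ?_ (fun b => ?_) hC z
    · rw [Derivation.smul_apply, hd, smul_eq_mul]
      split_ifs with ha
      · simp [c, ha]
      · simp
    · rw [Derivation.smul_apply, hd, smul_eq_mul]
      split_ifs
      · simpa using hc a
      · simp
  have e1 : (Matrix.of fun a b => c a * d a (u b)).det =
      T a₀ * (Matrix.of fun a b => d a (u b)).det := by
    have := Matrix.det_mul_column c (Matrix.of fun a b => d a (u b))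
    simpa [c] using this
  have e2 : v (Matrix.of fun a b => c a * d a (u b)).det ≤ v (u a₁) := by
    rw [Matrix.det_apply']
    refine v.map_sum_le fun σ _ => ?_
    rw [map_mul, map_prod, ← Finset.mul_prod_erase _ _ (Finset.mem_univ a₁)]
    refine (mul_le_of_le_one_left' (LogB_int hv _).1).trans ((mul_le_of_le_one_right' ?_).trans
      (key _ _))
    exact Finset.prod_le_one' fun b _ => (key _ _).trans (hu b)
  rw [jac, jac, TCI.det_der_expand T hT d hd D u, mul_assoc, mul_comm _ (T a₀), ← e1, map_mul,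
    map_mul]
  exact mul_le_mul_right e2 _

/-- Sketch: `A = chart i` for `PrimeDiv A w`, `y` from `nn` for the family `x j / x i` (as in
`Su.bz`), `centre_principal` gives `ρ`; a prime polynomial has positive degree in some variable
`a₀`; `T = Function.update y a₀ π`; a nonzero `Q` of degree zero in `a₀` is not divisible by `ρ`. -/
theorem exists_crd [Fintype ι] (S : Su K ι n) {w : Val K} (hw : w ∈ S.W) :
    ∃ (T : Fin n → K) (a₀ : Fin n), Crd w T a₀ := by
  classical
  obtain ⟨i, hw⟩ := hw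
  set x : ι → K := fun j => (S.x j : K) / S.x i with hxdef
  have hfr : IsFractionRing (Algebra.adjoin ℂ (Set.range x)) K := S.frac i
  have hP : PrimeDiv (Algebra.adjoin ℂ (Set.range x)) w := hw
  have gen : IntermediateField.adjoin ℂ (Set.range x) = ⊤ := by
    rw [eq_top_iff]
    intro z _
    obtain ⟨a, b, -, rfl⟩ := IsFractionRing.div_surjective (A := Algebra.adjoin ℂ (Set.range x)) z
    exact div_mem (IntermediateField.algebra_adjoin_le_adjoin ℂ _ a.2)
      (IntermediateField.algebra_adjoin_le_adjoin ℂ _ b.2)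
  obtain ⟨y, hyx, hy, hxy⟩ := nn x gen S.dim
  have hyA : ∀ l, y l ∈ Algebra.adjoin ℂ (Set.range x) := fun l =>
    Algebra.span_le_adjoin ℂ _ (hyx l)
  have int : ∀ a ∈ Algebra.adjoin ℂ (Set.range x),
      IsIntegral (Algebra.adjoin ℂ (Set.range y)) a := by
    have h1 : Algebra.adjoin ℂ (Set.range x) ≤
        (integralClosure (Algebra.adjoin ℂ (Set.range y)) K).restrictScalars ℂ :=
      Algebra.adjoin_le (Set.range_subset_iff.mpr fun i => isIntegral_of_Bd y (hxy i))
    exact fun a ha => h1 ha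
  obtain ⟨ρ, hρ, hdvd⟩ := centre_principal y hy.1 hyA int hP
  obtain ⟨a₀, ha₀⟩ : ∃ a₀, ρ.degreeOf a₀ ≠ 0 := by
    by_contra hne
    push Not at hne
    have e : ρ = C (ρ.coeff 0) := by
      refine vars_eq_empty_iff_eq_C.1 (Finset.eq_empty_of_forall_notMem fun a ha => ?_)
      exact mem_vars_iff_degreeOf_ne_zero.1 ha (hne a)
    have hc : ρ.coeff 0 ≠ 0 := fun h0 => hρ.ne_zero (by rw [e, h0, map_zero])
    exact hρ.not_isUnit (e ▸ (IsUnit.mk0 _ hc).map C)
  obtain ⟨π, hπ⟩ := hP.1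
  have hy1 : ∀ a, w (y a) ≤ 1 := fun a => hP.2.1 _ (hyA a)
  have hπ1 : w π < 1 := by
    rw [hπ, ← exp_zero, exp_lt_exp]
    norm_num
  refine ⟨Function.update y a₀ π, a₀, ?_, ?_, fun a => ?_, fun Q hQ hd => ?_⟩
  · rw [Function.update_self]
    intro h0
    rw [h0, map_zero] at hπ
    exact exp_ne_zero hπ.symm
  · rw [Function.update_self]
    exact hπ1
  · by_cases ha : a = a₀
    · rw [ha, Function.update_self]
      exact hπ1.le
    · rw [Function.update_of_ne ha]
      exact hy1 a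
  · rw [LogA_update y a₀ π hd]
    refine le_antisymm (DerA_aeval_le hP.triv hy1 Q) (not_lt.1 fun h1 => ?_)
    obtain ⟨q, rfl⟩ := (hdvd Q).1 h1
    rw [degreeOf_mul_eq hρ.ne_zero (right_ne_zero_of_mul hQ)] at hd
    omega

theorem LogC_jac {τ : Fin n → K} (hτ : IsTranscendenceBasis ℂ τ) {D : Fin n → Derivation ℂ K K}
    (hD : ∀ a b, D a (τ b) = if a = b then 1 else 0) {T : Fin n → K}
    (hT : AlgebraicIndependent ℂ T) : jac D T ≠ 0 := by
  obtain ⟨D', hD'⟩ := TCI.exists_dual _ (TCI.isTrBasis_of_card _ hT (TCI.trdeg_eq_card τ hτ).le)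
  have h2 := TCI.det_der_expand τ hτ D hD D' T
  have h3 : (Matrix.of fun a b => D' a (T b)) = 1 := by
    ext a b
    rw [Matrix.of_apply, hD', Matrix.one_apply]
  rw [h3, Matrix.det_one] at h2
  exact right_ne_zero_of_mul_eq_one h2.symm

/-- The log order does not increase under pull-back. Sketch: `T, a₀` from `exists_crd`,
`κ = T a₀ / jac D T` (`jac D T ≠ 0` by `TCI.det_der_expand` for the dual derivations of `T`);
`exists_span`, `exists_ext`, `ext_bdd` (with `exists_DB`, `DB.loc`), `Crd.map`, `jac_le`,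
`jac_comp`. -/
theorem exists_back [Fintype ι] (S : Su K ι n) {τ : Fin n → K} (hτ : IsTranscendenceBasis ℂ τ)
    {D : Fin n → Derivation ℂ K K} (hD : ∀ a b, D a (τ b) = if a = b then 1 else 0) {w : Val K}
    (hw : w ∈ S.W) : ∃ κ : K, κ ≠ 0 ∧ ∀ ψ : K →ₐ[ℂ] K, ∃ (v : Val K) (k : ℕ), 0 < k ∧ Triv v ∧
      (∀ z, v (ψ z) = w z ^ k) ∧ ∀ (m : ℕ) (G : K) (c : ℤ),
        LD D m v (ψ G * jac D (fun b => ψ (τ b)) ^ m) c → w (G * κ ^ m) ^ k ≤ exp (-c) := by
  obtain ⟨T, a₀, hT⟩ := exists_crd S hw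
  have ht := S.triv hw
  have hJ : jac D T ≠ 0 := LogC_jac hτ hD (hT.indep ht)
  refine ⟨T a₀ / jac D T, div_ne_zero hT.ne hJ, fun ψ => ?_⟩
  obtain ⟨d, b, hb⟩ := exists_span S.X S.gen S.dim ψ
  obtain ⟨v, k, r, β, hk, hv, hβ, loc⟩ := exists_ext ψ b hb (w := w) (by
    obtain ⟨i, hi⟩ := hw
    exact hi.1)
  have htv : Triv v := fun c => by
    rw [← ψ.commutes, hv]
    exact pow_le_one' (ht c) k
  obtain ⟨e, c₀, he, hDB⟩ := exists_DB S D
  have h₀ : ∀ z, w z ≤ 1 → ∀ a,
      w (D a z) ≤ exp (((c₀ * S.H w - log (w e)).toNat : ℕ) : ℤ) := fun z hz a => by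
    have h1 := hDB.loc hw hz a
    have h2 : w e ≠ 0 := (map_ne_zero w).2 he
    rw [map_mul, ← le_div_iff₀' (zero_lt_iff.2 h2), ← exp_log h2, ← exp_sub] at h1
    exact h1.trans (exp_le_exp.2 (Int.self_le_toNat _))
  refine ⟨v, k, hk, htv, hv, fun m G c ⟨u, a, hu, hJu, hL⟩ => ?_⟩
  have h1 := (hT.map ψ hk hv).jac_le S.dim htv (ext_bdd hτ hD ψ hv hβ loc h₀) D u hu a
  rw [jac_comp τ hτ D hD] at h1
  have hJ' : ψ (jac D T) ≠ 0 := (map_ne_zero ψ).2 hJ
  have h2 : v (ψ (T a₀ / jac D T)) ≤ v (jac D (fun b => ψ (τ b)) * u a / jac D u) := by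
    rw [map_div₀, map_div₀, map_div₀, div_le_div_iff₀ (zero_lt_iff.2 ((map_ne_zero v).2 hJ'))
      (zero_lt_iff.2 ((map_ne_zero v).2 hJu)), ← map_mul, ← map_mul, mul_comm (ψ (T a₀)),
      mul_right_comm]
    exact h1
  rw [← hv]
  refine le_trans ?_ hL
  have e1 : ψ G * jac D (fun b => ψ (τ b)) ^ m * u a ^ m / jac D u ^ m =
      ψ G * (jac D (fun b => ψ (τ b)) * u a / jac D u) ^ m := by
    rw [div_pow, mul_pow, mul_assoc, mul_div_assoc]
  rw [e1, map_mul ψ, map_pow ψ, map_mul v, map_mul v, map_pow v, map_pow v]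
  exact mul_le_mul_right (pow_le_pow_left' h2 m) _

end Pool.Agent.Lib.MP_bc213e_ag.Psef
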