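import Pool.Agent.Lib.MP_bc213e_ag.Psef.Der
import Pool.Agent.Lib.MP_bc213e_ag.Psef.Cous

/-! Logarithmic forms with a prescribed polar divisor and uniformly bounded other poles. -/

namespace Pool.Agent.Lib.MP_bc213e_ag.Psef

open WithZero Module Hyp

variable {K ι : Type} [Field K] [Algebra ℂ K] [Fintype ι] {n : ℕ} {S : Su K ι n}
  {D : Fin n → Derivation ℂ K K} {e : K} {c : ℕ}

/-- Near the centre of `v` the form `η` is `dlog` of a local equation of `w`, up to `c H - div e`. -/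
def Pol (S : Su K ι n) (D : Fin n → Derivation ℂ K K) (e : K) (c : ℕ) (w : Val K) (η : Fin n → K)
    (v : Val K) : Prop :=
  ∃ (g : K) (r : ℕ), g ≠ 0 ∧ 0 < r ∧ (v = w → v g = exp (-(r : ℤ))) ∧ (v ∈ S.W → v ≠ w → v g = 1) ∧
    ∀ a, v (e * (η a - (r : K)⁻¹ * (D a g / g))) ≤ exp (c * S.H v)

omit [Fintype ι] in
theorem ML_mem {A : Subalgebra ℂ K} {I J : Submodule A K} (hIJ : I * J = 1) {a b : K} (ha : a ∈ I)
    (hb : b ∈ J) : a * b ∈ A := by
  have h := Submodule.mul_mem_mul ha hb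
  rw [hIJ, Submodule.mem_one] at h
  obtain ⟨y, hy⟩ := h
  exact hy ▸ y.2

theorem ML_inv {v : Val K} (hv : Triv v) (r : ℕ) {y : K} {d : WithZero (Multiplicative ℤ)}
    (h : v y ≤ d) : v ((r : K)⁻¹ * y) ≤ d := by
  have h1 := hv (r : ℂ)⁻¹
  rw [map_inv₀, map_natCast] at h1
  rw [map_mul]
  exact (mul_le_mul' h1 h).trans_eq (one_mul _)

omit [Algebra ℂ K] in
theorem ML_mul {v : Val K} {y z : K} {c c₁ : ℕ} {d : ℤ} (hy : v y ≤ exp (c₁ * d))
    (hz : v z ≤ exp (c * d)) : v (y * z) ≤ exp ((c + c₁ : ℕ) * d) := by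
  rw [map_mul, Nat.cast_add, add_mul, add_comm, exp_add]
  exact mul_le_mul' hy hz

/-- The connection of an invertible ideal. Sketch: `Submodule.mul_induction_on`; for `x = a' b'`
take `η a = b' * D a a'`, then `η a - x D a g / g = b' g D a (a' b / (g b))`, `DB.frac`. -/
theorem conn (h : DB S D e c) {i : ι} {I J : Submodule (chart S.x i) K} (hIJ : I * J = 1) {x : K}
    (hx : x ∈ I * J) : ∃ η : Fin n → K, ∀ v : Val K, Triv v → (∀ j, v (S.x j) ≤ v (S.x i)) →
      ∀ g ∈ I, ∀ b ∈ J, v (g * b) = 1 → ∀ a, v (e * (η a - x * (D a g / g))) ≤ exp (c * S.H v) := by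
  refine Submodule.mul_induction_on hx (fun a' ha' b' hb' => ?_) ?_
  · refine ⟨fun a => b' * D a a', fun v hv hi g hg b hb h1 a => ?_⟩
    have h0 : g * b ≠ 0 := fun h0 => by simp [h0] at h1
    have hg0 := left_ne_zero_of_mul h0
    have hb0 := right_ne_zero_of_mul h0
    have h2 := h.frac hv hi (ML_mem hIJ ha' hb) (ML_mem hIJ hg hb) h1 a
    rw [mul_div_mul_right _ _ hb0] at h2
    have h3 := (chart_le_iff S.x i hv).2 hi _ (ML_mem hIJ hg hb')
    have e1 : e * (b' * D a a' - a' * b' * (D a g / g)) = g * b' * (e * D a (a' / g)) := by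
      rw [Derivation.leibniz_div]
      simp only [smul_eq_mul]
      field_simp
    rw [e1, map_mul]
    exact (mul_le_mul' h3 h2).trans_eq (one_mul _)
  · rintro x y ⟨η, hη⟩ ⟨η', hη'⟩
    refine ⟨η + η', fun v hv hi g hg b hb h1 a => ?_⟩
    have e1 : e * ((η + η') a - (x + y) * (D a g / g)) =
        e * (η a - x * (D a g / g)) + e * (η' a - y * (D a g / g)) := by
      rw [Pi.add_apply]
      ring
    rw [e1]
    exact v.map_add_le (hη v hv hi g hg b hb h1 a) (hη' v hv hi g hg b hb h1 a)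

/-- Sketch: if `w` is not in the chart `i` take `η = 0`, `g = 1`. Otherwise `r, I, J` from `qf`
(`prime_trans`), `conn` with `x = 1`, divided by `r`. At `v` some `g ∈ I`, `b ∈ J` have
`v (g b) = 1`; then `v g` is maximal on `I`; `I` contains an element of `w`-value `exp (-r)`, and,
for `v ∈ W`, `v ≠ w`, an element of `v`-value one (`exists_sep`). -/
theorem ml_chart (h : DB S D e c) (i : ι) (qf : QFactorial (chart S.x i)) {w : Val K}
    (hw : w ∈ S.W) : ∃ η : Fin n → K, ∀ v : Val K, Triv v → (∀ j, v (S.x j) ≤ v (S.x i)) →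
      Pol S D e c w η v := by
  by_cases hi : ∀ j, w (S.x j) ≤ w (S.x i)
  swap
  · exact ⟨0, fun v _ hv => ⟨1, 1, one_ne_zero, one_pos, fun e => absurd (e ▸ hv) hi,
      fun _ _ => v.map_one, fun a => by simp⟩⟩
  have hP := prime_trans S hw hi
  obtain ⟨r, hr, u, hu⟩ := qf w hP
  have hIJ : u.1 * (u⁻¹).1 = 1 := u.mul_inv
  have h1 : (1 : K) ∈ u.1 * (u⁻¹).1 := hIJ ▸ Submodule.mem_one.2 ⟨1, map_one _⟩
  obtain ⟨η, hη⟩ := conn h hIJ h1
  refine ⟨fun a => (r : K)⁻¹ * η a, fun v hv hvi => ?_⟩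
  have hA := (chart_le_iff S.x i hv).2 hvi
  obtain ⟨g, hg, b, hb, hgb⟩ : ∃ g ∈ u.1, ∃ b ∈ (u⁻¹).1, v (g * b) = 1 := by
    by_contra hc
    have h2 : v 1 < 1 := Submodule.mul_induction_on (C := fun x => v x < 1) h1
      (fun g hg b hb => (hA _ (ML_mem hIJ hg hb)).lt_of_ne fun h3 => hc ⟨g, hg, b, hb, h3⟩)
      fun x y hx hy => v.map_add_lt hx hy
    simp at h2
  have h0 : g * b ≠ 0 := fun h0 => by simp [h0] at hgb
  have hmax : ∀ a ∈ chart S.x i, w a ≤ exp (-(r : ℤ)) → v a ≤ v g := fun a ha h2 => by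
    have h4 : a ∈ u.1 := by
      rw [hu]
      exact Submodule.subset_span ⟨ha, h2⟩
    have h3 := hA _ (ML_mem hIJ h4 hb)
    rw [← hgb, map_mul, map_mul] at h3
    exact le_of_mul_le_mul_right h3
      (zero_lt_iff.2 ((map_ne_zero v).2 (right_ne_zero_of_mul h0)))
  have hI : ∀ a ∈ u.1, a ∈ chart S.x i ∧ w a ≤ exp (-(r : ℤ)) := fun a ha => by
    rw [hu] at ha
    induction ha using Submodule.span_induction with
    | mem x hx => exact hx
    | zero => exact ⟨zero_mem _, by simp⟩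
    | add x y _ _ hx hy => exact ⟨add_mem hx.1 hy.1, w.map_add_le hx.2 hy.2⟩
    | smul s x _ hx =>
      refine ⟨mul_mem s.2 hx.1, ?_⟩
      change w (s * x) ≤ _
      rw [map_mul]
      exact (mul_le_mul' (hP.2.1 s s.2) hx.2).trans_eq (one_mul _)
  refine ⟨g, r, left_ne_zero_of_mul h0, hr, ?_, fun hvW hne => ?_, fun a => ?_⟩
  · rintro rfl
    refine le_antisymm (hI g hg).2 ?_
    obtain ⟨π, hπ⟩ := hP.1
    obtain ⟨d, -, hd1, hd⟩ := hP.2.2 π (by rw [hπ, ← exp_zero, exp_le_exp]; norm_num)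
    have h2 : v ((d * π) ^ r) = exp (-(r : ℤ)) := by
      rw [map_pow, map_mul, hd1, one_mul, hπ, ← exp_nsmul]
      simp
    exact h2.ge.trans (hmax _ (pow_mem hd r) h2.le)
  · refine le_antisymm (hA g (hI g hg).1) ?_
    obtain ⟨d, hd, h2, h3⟩ := exists_sep hP (prime_trans S hvW hvi) hne.symm
    have h4 := hmax _ (pow_mem hd r) (by simpa using pull_val_pow_le w (primeExp h2) r)
    rwa [map_pow, h3, one_pow] at h4
  · have e1 : e * ((r : K)⁻¹ * η a - (r : K)⁻¹ * (D a g / g)) =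
        (r : K)⁻¹ * (e * (η a - 1 * (D a g / g))) := by ring
    rw [e1]
    exact ML_inv hv r (hη v hv hvi g hg b hb hgb a)

/-- At a prime divisor, in terms of a uniformiser (`DB.dlog`). -/
theorem Pol.self (h : DB S D e c) {w : Val K} (hw : w ∈ S.W) {η : Fin n → K}
    (hη : Pol S D e c w η w) {π : K} (hπ : w π = exp (-1)) (a : Fin n) :
    w (e * (η a - D a π / π)) ≤ exp (c * S.H w) := by
  obtain ⟨g, r, hg, hr, h1, -, h2⟩ := hη
  have h3 := h.dlog hw hπ hg a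
  rw [h1 rfl, log_exp] at h3
  have := charZero_of_injective_algebraMap (algebraMap ℂ K).injective
  have h0 : (r : K) ≠ 0 := Nat.cast_ne_zero.2 hr.ne'
  have e1 : e * (η a - D a π / π) = e * (η a - (r : K)⁻¹ * (D a g / g)) +
      (r : K)⁻¹ * (e * (D a g / g + ((-(r : ℤ) : ℤ) : K) * (D a π / π))) := by
    push_cast
    field_simp
    ring
  rw [e1]
  exact w.map_add_le (h2 a) (ML_inv (S.triv hw) r h3)

theorem Pol.other (h : DB S D e c) {w v : Val K} (hv : v ∈ S.W) (hne : v ≠ w) {η : Fin n → K}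
    (hη : Pol S D e c w η v) (a : Fin n) : v (e * η a) ≤ exp (c * S.H v) := by
  obtain ⟨g, r, -, -, -, h1, h2⟩ := hη
  have h3 := h.loc hv (h1 hv hne).le a
  have e1 : e * η a = e * (η a - (r : K)⁻¹ * (D a g / g)) + (r : K)⁻¹ * (e * D a g / g) := by ring
  rw [e1]
  refine v.map_add_le (h2 a) (ML_inv (S.triv hv) r ?_)
  rwa [map_div₀, h1 hv hne, div_one]

/-- Sketch: `e, c` from `exists_DB`, `e₁, c₁` from `cousin`, applied to `e * η i a` for each `a`
(`Pol.self`, `Pol.other`); the new pair is `e₁ e`, `c + c₁`. -/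
theorem ml (S : Su K ι n) (qf : ∀ i, QFactorial (chart S.x i)) (D : Fin n → Derivation ℂ K K) :
    ∃ (e : K) (c : ℕ), e ≠ 0 ∧ DB S D e c ∧
      ∀ w ∈ S.W, ∃ η : Fin n → K, ∀ v : Val K, Triv v → Pol S D e c w η v := by
  obtain ⟨e, c, he, h⟩ := exists_DB S D
  obtain ⟨e₁, c₁, he₁, h₁, hc⟩ := cousin S
  refine ⟨e₁ * e, c + c₁, mul_ne_zero he₁ he, ⟨fun v hv => ML_mul (h₁ v hv) (h.1 v hv),
    fun a i r hr v hv hi => ?_⟩, fun w hw => ?_⟩
  · rw [mul_assoc]
    exact ML_mul (h₁ v hv) (h.2 a i r hr v hv hi)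
  choose η hη using fun i => ml_chart h i (qf i) hw
  choose ζ hζ using fun a => hc c (fun i => e * η i a) fun i j v hv hi hj => by
    have p1 := hη i v (S.triv hv) hi
    have p2 := hη j v (S.triv hv) hj
    by_cases hvw : v = w
    · subst hvw
      obtain ⟨l, ⟨π, hπ⟩, -⟩ := id hv
      have e1 : e * η i a - e * η j a =
          e * (η i a - D a π / π) - e * (η j a - D a π / π) := by ring
      rw [e1]
      exact v.map_sub_le (Pol.self h hv p1 hπ a) (Pol.self h hv p2 hπ a)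
    · exact v.map_sub_le (Pol.other h hv hvw p1 a) (Pol.other h hv hvw p2 a)
  refine ⟨fun a => ζ a / e, fun v hv => ?_⟩
  obtain ⟨g, r, hg, hr, h1, h2, h3⟩ := hη (S.ctr v) v hv (S.ctr_max v)
  refine ⟨g, r, hg, hr, h1, h2, fun a => ?_⟩
  have e1 : e₁ * e * (ζ a / e - (r : K)⁻¹ * (D a g / g)) = e₁ * (ζ a - e * η (S.ctr v) a) +
      e₁ * (e * (η (S.ctr v) a - (r : K)⁻¹ * (D a g / g))) := by
    field_simp
    ring
  rw [e1]
  exact v.map_add_le (hζ a _ v hv (S.ctr_max v)) (ML_mul (h₁ v hv) (h3 a))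

end Pool.Agent.Lib.MP_bc213e_ag.Psef
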