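import Pool.Agent.Lib.MP_bc213e_ag.Psef.Bnd
import Pool.Agent.Lib.MP_bc213e_ag.Psef.Log
import Pool.Agent.Lib.MP_bc213e_ag.Hyp.HypL

/-! Nonvanishing for Cartier data. -/

namespace Pool.Agent.Lib.MP_bc213e_ag.Psef

open WithZero Module Hyp

variable {K ι : Type} [Field K] [Algebra ℂ K] [Fintype ι] {n : ℕ}

section

variable (S : Su K ι n) {g : ι → Kˣ}
  (cart : ∀ i j, ∃ e : ℕ, (g i : K) / g j * ((S.x i : K) / S.x j) ^ e ∈ chart S.x j)

include cart

/-- Port of `Su.exp_M`. -/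
theorem exp_M {v : Val K} (hv : Triv v) {i : ι} (hi : ∀ j, v (S.x j) ≤ v (S.x i)) :
    v (g i) = exp (log (v (g (S.ctr v)))) := by
  have key : ∀ {i j : ι}, (∀ l, v (S.x l) ≤ v (S.x i)) → (∀ l, v (S.x l) ≤ v (S.x j)) →
      v (g i) ≤ v (g j) := fun {i j} hi hj => by
    obtain ⟨e, he⟩ := cart i j
    have := (chart_le_iff S.x j hv).2 hj _ he
    rwa [map_mul, map_pow, map_div₀, map_div₀, le_antisymm (hj i) (hi j),
      div_self (Basic_pos v _).ne', one_pow, mul_one, div_le_one₀ (Basic_pos v _)] at this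
  rw [exp_log (Basic_pos v _).ne']
  exact le_antisymm (key hi (S.ctr_max v)) (key (S.ctr_max v) hi)

theorem val_gen {v : Val K} (hv : Triv v) {i : ι} (hi : ∀ j, v (S.x j) ≤ v (S.x i)) (t : ℤ)
    (a : ℕ) : v ((g i : K) ^ t * (S.x i : K) ^ a) =
      exp (t * log (v (g (S.ctr v))) + a * S.H v) := by
  rw [map_mul, map_zpow₀, map_pow, exp_M S cart hv hi, S.exp_H hi, exp_add, ← exp_zsmul,
    ← exp_nsmul, nsmul_eq_mul, smul_eq_mul]

/-- Port of `Su.le_of_sec`. -/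
theorem le_of_sec {t : ℤ} {a : ℕ} {s : K} (h : Sec S.x g t a s) {v : Val K} (hv : Triv v) :
    v s ≤ exp (t * log (v (g (S.ctr v))) + a * S.H v) := by
  have := (chart_le_iff S.x (S.ctr v) hv).2 (S.ctr_max v) _ (h _)
  rwa [map_div₀, val_gen S cart hv (S.ctr_max v), div_le_one₀ exp_pos] at this

/-- Port of `Su.sec_iff`. -/
theorem sec_iff {t : ℤ} {a : ℕ} {s : K} :
    Sec S.x g t a s ↔ s ∈ S.Γ fun w => t * log (w (g (S.ctr w))) + a * S.H w := by
  refine ⟨fun h w _ hw => le_of_sec S cart h hw, fun h i => ?_⟩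
  have := chart_noeth S.x i
  have := S.frac i
  have := S.norm i
  refine hartogs fun w hw => ?_
  rw [map_div₀, val_gen S cart hw.triv ((chart_le_iff S.x i hw.triv).1 hw.2.1),
    div_le_one₀ exp_pos]
  exact h w ⟨i, hw⟩ hw.triv

/-- Sketch: `a₁, z` from `exists_z 1`; `le_of_sec` at `w ∘ φ`, `pull` with `j = ctr (w ∘ φ)`. -/
theorem pull_sec {h : K} (hne : h ≠ 0)
    (pull : ∀ i j w, PrimeDiv (chart S.x i) w → (∀ r ∈ chart S.x j, w (S.φ r) ≤ 1) →
      w (S.φ (g j) * h) ≤ w (g i)) : ∃ (a₁ : ℕ) (z : K), z ≠ 0 ∧ ∀ (t a : ℕ) (s : K),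
    (s ∈ S.Γ fun w => t * log (w (g (S.ctr w))) + a * S.H w) →
      S.φ s * h ^ t * z ^ a ∈
        S.Γ fun w => t * log (w (g (S.ctr w))) + (a * a₁ : ℕ) * S.H w := by
  obtain ⟨a₁, z, hz0, hz⟩ := S.exists_z 1
  refine ⟨a₁, z, hz0, fun t a s hs w hw ht => ?_⟩
  obtain ⟨i, hi⟩ := hw
  have hv := ht.comap S.φ
  have h1 := le_of_sec S cart ((sec_iff S cart).2 hs) hv
  have h2 := pull i _ w hi ((chart_le_iff S.x _ hv).2 (S.ctr_max _))
  rw [exp_M S cart ht ((chart_le_iff S.x i ht).1 hi.2.1)] at h2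
  have h3 := hz w ht
  rw [Su.Hk, pow_one] at h3
  set v := w.comap S.φ.toRingHom
  have h4 : w (S.φ (g (S.ctr v))) = exp (log (v (g (S.ctr v)))) :=
    (exp_log (Basic_pos v _).ne').symm
  have h5 : w h = exp (log (w h)) := (exp_log ((map_ne_zero w).2 hne)).symm
  rw [map_mul, h4, h5, ← exp_add, exp_le_exp] at h2
  have h6 : w (S.φ s) ≤ exp (t * log (v (g (S.ctr v))) + a * S.H v) := h1
  rw [map_mul, map_mul, map_pow w h, h5, ← exp_nsmul]
  refine (mul_le_mul' (mul_le_mul' h6 le_rfl) (pull_val_pow_le w h3 a)).trans ?_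
  rw [← exp_add, ← exp_add, exp_le_exp, nsmul_eq_mul]
  have h7 := mul_le_mul_of_nonneg_left h2 (Int.natCast_nonneg t)
  push_cast
  linarith

end

omit [Fintype ι] in
theorem free_one (x : ι → Kˣ) (t : ℤ) : Free x (fun _ => 1) t 1 := by
  refine fun i => Submodule.subset_span fun j => ?_
  simpa using Basic_mem x j i

theorem hh_eq (P : Ps K ι n) {τ : Fin n → K} (hτ : IsTranscendenceBasis ℂ τ)
    {D : Fin n → Derivation ℂ K K} (hD : ∀ a b, D a (τ b) = if a = b then 1 else 0) {m : ℕ}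
    (h : P.h = jac D (fun b => P.S.φ (τ b)) ^ m) (l : ℕ) :
    P.hh l = jac D (fun b => (P.S.φ ^ l) (τ b)) ^ m := by
  induction l with
  | zero =>
    have : (Matrix.of fun a b => D a (τ b)) = 1 := by
      ext a b
      rw [Matrix.of_apply, hD, Matrix.one_apply]
    simp [Ps.hh, jac, this]
  | succ l ih =>
    have e := jac_comp τ hτ D hD (P.S.φ ^ l) fun b => P.S.φ (τ b)
    rw [Ps.hh, ih, h, map_pow, ← mul_pow, ← e, pow_succ]
    rfl

omit [Fintype ι] in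
theorem LD_pow {D : Fin n → Derivation ℂ K K} {m : ℕ} {v : Val K} {g : Kˣ} (h : LD D m v g 0)
    (N : ℕ) {G : K} (hG : G ≠ 0) : LD D (m * N) v G (N * log (v g) - log (v G)) := by
  obtain ⟨u, a, h1, h2, h3⟩ := h
  refine ⟨u, a, h1, h2, ?_⟩
  have hg := g.ne_zero
  have e : G * u a ^ (m * N) / jac D u ^ (m * N) =
      G / (g : K) ^ N * (g * u a ^ m / jac D u ^ m) ^ N := by
    rw [pow_mul, pow_mul, div_pow, mul_pow]
    field_simp
  have h4 := pull_val_zpow v hg N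
  rw [zpow_natCast] at h4
  rw [neg_zero, exp_zero] at h3
  rw [e, map_mul, map_div₀, h4, neg_sub, exp_sub, exp_log ((map_ne_zero v).2 hG), map_pow]
  exact mul_le_of_le_one_right' (pow_le_one' h3 N)

theorem main {m : ℕ} (npos : 0 < n) (x g : ι → Kˣ) (i₀ : ι) (one : x i₀ = 1)
    (frac : ∀ i, IsFractionRing (chart x i) K) (norm : ∀ i, IsIntegrallyClosed (chart x i))
    (qf : ∀ i, QFactorial (chart x i)) (τ : Fin n → K) (hτ : IsTranscendenceBasis ℂ τ)
    (D : Fin n → Derivation ℂ K K) (hD : ∀ a b, D a (τ b) = if a = b then 1 else 0)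
    (cart : ∀ i j, ∃ e : ℕ, (g i : K) / g j * ((x i : K) / x j) ^ e ∈ chart x j)
    (lc : ∀ i (v : Val K), (∀ r ∈ chart x i, v r ≤ 1) → LD D m v (g i) 0)
    (psef : ∀ t : ℕ, ∃ (N : ℕ) (s : K), 0 < N ∧ s ≠ 0 ∧ Sec x g (N * t) N s) (φ : K →ₐ[ℂ] K)
    (pull : ∀ i j w, PrimeDiv (chart x i) w → (∀ r ∈ chart x j, w (φ r) ≤ 1) →
      w (φ (g j) * jac D (fun b => φ (τ b)) ^ m) ≤ w (g i))
    (hyp : HYP n (Submodule.span ℂ (Set.range fun i => (x i : K))) φ) :
    ∃ (N C : ℕ) (s : K), 0 < N ∧ s ≠ 0 ∧ Sec x g N 0 s ∧ ∀ (t a : ℕ) (σ : K),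
      Sec x g (N * t) a σ → Sec x g (N * (C * a)) a (σ * s ^ (C * a) / s ^ t) := by
  have hne := pow_ne_zero m (jac_ne_zero τ hτ D hD φ)
  let S : Su K ι n :=
    { x := x, g := fun _ => 1, φ := φ, h := 1, i₀ := i₀, npos := npos, one := one,
      hne := one_ne_zero, frac := frac, norm := norm,
      dim := by simpa using TCI.trdeg_eq_card τ hτ,
      cart := fun i j => ⟨1, by simpa using Basic_mem x j i⟩,
      nef := fun t => ⟨1, one_pos, free_one x _⟩, pull := fun i j w _ _ => by simp, hyp := hyp }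
  let P : Ps K ι n :=
    { S := S, M := fun w => log (w (g (S.ctr w))), h := _, hne := hne,
      finM := (Set.finite_iUnion fun i => S.supp_finite (g i).ne_zero).subset fun w hw =>
        Set.mem_iUnion.2 ⟨S.ctr w, hw.1, fun e => hw.2 (by rw [e, log_one])⟩,
      pull := pull_sec S cart hne pull,
      psef := fun τ => by
        obtain ⟨N, s, hN, hs, h1⟩ := psef τ
        exact ⟨N, s, hN, hs, by simpa only [Nat.cast_mul] using (sec_iff S cart).1 h1⟩,
      qf := qf }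
  have iff : ∀ (t a : ℕ) (σ : K), Sec x g t a σ ↔ σ ∈ P.L t a := fun t a σ => sec_iff S cart
  obtain ⟨N, s, hN, hs, h1⟩ := P.main
  obtain ⟨C, hC⟩ := (P.nrm hN hs h1).bd (P.nrm_nonneg hN hs h1) fun w hw => by
    obtain ⟨κ, hκ, h2⟩ := exists_back S hτ hD hw
    refine (P.nrm hN hs h1).bnd_of_back rfl (P.nrm_nonneg hN hs h1)
      (C := (- log (w (s * κ ^ (m * N)))).toNat) (fun l => ?_) one_half_pos
    obtain ⟨v, k, hk, hv, h3, h4⟩ := h2 (φ ^ l)
    refine ⟨v, k, hk, h3, fun t a r hr0 hr => ?_⟩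
    have h5 := le_of_sec S cart ((iff _ _ _).2 ((P.mem_nrm hN hs h1 t a r).1 hr)) hv
    rw [← lg_le_iff v (mul_ne_zero hr0 (pow_ne_zero t hs)), lg_mul v hr0 (pow_ne_zero t hs),
      lg_pow] at h5
    have h6 : P.pb l N s = (φ ^ l) s * jac D (fun b => (φ ^ l) (τ b)) ^ (m * N) := by
      rw [Ps.pb, hh_eq P hτ hD rfl l, pow_mul]
    have h7 := LD_pow (lc _ v ((chart_le_iff x _ hv).2 (S.ctr_max v))) N (P.pb_ne l N hs)
    rw [P.val_pb hN hs h1 l hv, h6] at h7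
    have h8 := h4 _ _ _ h7
    have h9 : w (s * κ ^ (m * N)) ≠ 0 := (map_ne_zero w).2 (mul_ne_zero hs (pow_ne_zero _ hκ))
    rw [← log_le_iff_le_exp (pow_ne_zero k h9), log_pow, nsmul_eq_mul] at h8
    have h10 := mul_le_mul_of_nonneg_left (Int.self_le_toNat (- log (w (s * κ ^ (m * N)))))
      (Int.natCast_nonneg k)
    have h11 : (N : ℤ) * log (v (g (S.ctr v))) - log (v s) ≤
        k * ((- log (w (s * κ ^ (m * N)))).toNat : ℕ) := by linarith
    have h12 : (N : ℝ) * (log (v (g (S.ctr v))) : ℤ) - lg v s ≤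
        k * ((- log (w (s * κ ^ (m * N)))).toNat : ℕ) := by
      rw [lg]
      exact_mod_cast h11
    have h13 := mul_le_mul_of_nonneg_left h12 (Nat.cast_nonneg (α := ℝ) t)
    push_cast at h5
    change lg v r ≤ _ + a * (S.H v : ℝ)
    linarith
  refine ⟨N, C, s, hN, hs, (iff N 0 s).2 h1, fun t a σ hσ => ?_⟩
  have h2 := (P.mem_nrm hN hs h1 _ _ _).1 (hC t a (σ / s ^ t) ((P.mem_nrm hN hs h1 t a _).2 (by
    rw [div_mul_cancel₀ _ (pow_ne_zero t hs)]
    exact (iff _ _ _).1 (by simpa only [Nat.cast_mul] using hσ))))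
  rw [mul_div_right_comm]
  simpa only [Nat.cast_mul] using (iff _ _ _).2 h2

end Pool.Agent.Lib.MP_bc213e_ag.Psef
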