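import Pool.Agent.Lib.MP_bc213e_ag.Psef.ADefs

/-! The invariant positive part. -/

namespace Pool.Agent.Lib.MP_bc213e_ag.Psef.Ps

open WithZero Module Hyp Filter Topology

variable {K ι : Type} [Field K] [Algebra ℂ K] [Fintype ι] {n : ℕ} (P : Ps K ι n)

/-- Normalised pole orders of pull-backs of sections of multiples of `τ M + H`. -/
def A (l τ : ℕ) (v : Val K) : Set ℝ :=
  {x | ∃ (N : ℕ) (s : K), 0 < N ∧ s ≠ 0 ∧ s ∈ P.L (N * τ) N ∧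
    x = lg v (P.pb l (N * τ) s) / (N * τ : ℕ)}

/-- The pull-back of the positive part of `M + H / τ`. -/
noncomputable def Q (l τ : ℕ) (v : Val K) : ℝ := sSup (P.A l τ v)

/-- The pull-back of the positive part of `M`. -/
noncomputable def R (l : ℕ) (v : Val K) : ℝ := ⨅ τ : ℕ, P.Q l (τ + 1) v

/-- The limit along the iterates. -/
noncomputable def pp (v : Val K) : ℝ := ⨅ l : ℕ, P.R l v

theorem PosA_lim {c b x : ℝ} (τ : ℕ) (h : ∀ τ' : ℕ, τ ≤ τ' → 0 < τ' → c - b / τ' ≤ x) :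
    c ≤ x := by
  have h1 : Tendsto (fun τ' : ℕ => c - b / τ') atTop (𝓝 (c - 0)) :=
    (tendsto_const_div_atTop_nhds_zero_nat b).const_sub c
  rw [sub_zero] at h1
  refine le_of_tendsto h1 ?_
  filter_upwards [eventually_ge_atTop τ, eventually_gt_atTop 0] with τ' h2 h3
  exact h τ' h2 h3

theorem PosA_lg (v : Val K) (l t N : ℕ) {σ s z : K} (hσ : σ ≠ 0) (hs : s ≠ 0) (hz : z ≠ 0) :
    lg v (σ ^ t * (P.pb l t s * z ^ N)) = t * lg v σ + (lg v (P.pb l t s) + N * lg v z) := by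
  rw [lg_mul v (pow_ne_zero _ hσ) (mul_ne_zero (P.pb_ne _ _ hs) (pow_ne_zero _ hz)),
    lg_mul v (P.pb_ne _ _ hs) (pow_ne_zero _ hz), lg_pow, lg_pow]

theorem PosA_mem (v : Val K) (l : ℕ) {τ t b : ℕ} (hτ : 0 < τ) (ht : 0 < t) {s : K} (hs : s ≠ 0)
    (hL : s ∈ P.L t b) (h : b * τ ≤ t) : lg v (P.pb l t s) / t ∈ P.A l τ v := by
  refine ⟨t, s ^ τ, ht, pow_ne_zero _ hs, P.L_mono _ h (P.pow_mem_L hL τ), ?_⟩
  have hτ' : (0 : ℝ) < τ := by exact_mod_cast hτ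
  have ht' : (0 : ℝ) < t := by exact_mod_cast ht
  rw [P.pb_pow, lg_pow]
  push_cast
  field_simp

theorem A_nonempty (l τ : ℕ) (v : Val K) : (P.A l τ v).Nonempty := by
  obtain ⟨N, s, hN, hs, h⟩ := P.psef τ
  exact ⟨_, N, s, hN, hs, h, rfl⟩

/-- Sketch: `σ ^ (N τ) * (pb l (N τ) s * z ^ N) ∈ Γ ((c N τ + N a) H)`, `le_of_Γ`. -/
theorem A_bdd (l : ℕ) {τ : ℕ} (hτ : 0 < τ) {v : Val K} (hv : Triv v) : BddAbove (P.A l τ v) := by
  obtain ⟨c, σ, hσ, -, hc⟩ := P.exists_σ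
  obtain ⟨a, z, hz, ha⟩ := P.pull_iter l
  refine ⟨c * P.S.H v - lg v σ + (a * P.S.H v - lg v z) / τ, ?_⟩
  rintro _ ⟨N, s, hN, hs, hL, rfl⟩
  have h1 := le_of_Γ P.S (hc _ _ _ (ha _ _ _ hL)) hv
  rw [← lg_le_iff v (mul_ne_zero (pow_ne_zero _ hσ) (mul_ne_zero (P.pb_ne _ _ hs)
    (pow_ne_zero _ hz))), P.PosA_lg v l _ _ hσ hs hz] at h1
  have hN' : (0 : ℝ) < N := by exact_mod_cast hN
  have hτ' : (0 : ℝ) < τ := by exact_mod_cast hτ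
  push_cast at h1 ⊢
  rw [div_le_iff₀ (by positivity)]
  have e : (c * (P.S.H v : ℝ) - lg v σ + (a * (P.S.H v : ℝ) - lg v z) / τ) * (N * τ) =
      (c * (P.S.H v : ℝ) - lg v σ) * (N * τ) + N * (a * (P.S.H v : ℝ) - lg v z) := by
    field_simp
  rw [e]
  linarith

/-- Sketch: `s ^ τ ∈ L (N τ' τ) (N τ) ≤ L (N τ' τ) (N τ')`, `pb_pow`. -/
theorem Q_anti (l : ℕ) {τ τ' : ℕ} (hτ : 0 < τ) (h : τ ≤ τ') {v : Val K} (hv : Triv v) :
    P.Q l τ' v ≤ P.Q l τ v := by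
  refine csSup_le_csSup (P.A_bdd l hτ hv) (P.A_nonempty l τ' v) ?_
  rintro _ ⟨N, s, hN, hs, hL, rfl⟩
  exact P.PosA_mem v l hτ (Nat.mul_pos hN (hτ.trans_le h)) hs hL (Nat.mul_le_mul_left N h)

/-- Sketch: for every element of `A l τ' v`, `Good` gives the lower bound
`- C c - log (v σ) - (C a + log (v z)) / τ'`; `Q_anti` and `τ' → ∞`. -/
theorem Q_low {v : Val K} (hv : Good P.S v) : ∃ c : ℝ, ∀ l τ : ℕ, 0 < τ → c ≤ P.Q l τ v := by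
  obtain ⟨c, σ, hσ, -, hc⟩ := P.exists_σ
  obtain ⟨hv, C, hC⟩ := hv
  refine ⟨-(C * c) - lg v σ, fun l τ hτ => ?_⟩
  obtain ⟨a, z, hz, ha⟩ := P.pull_iter l
  refine PosA_lim (b := C * a + lg v z) τ fun τ' h hτ' => le_trans ?_ (P.Q_anti l hτ h hv)
  obtain ⟨_, N, s, hN, hs, hL, rfl⟩ := P.A_nonempty l τ' v
  refine le_trans ?_ (le_csSup (P.A_bdd l hτ' hv) ⟨N, s, hN, hs, hL, rfl⟩)
  have h1 := hC _ _ (mul_ne_zero (pow_ne_zero _ hσ) (mul_ne_zero (P.pb_ne _ _ hs)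
    (pow_ne_zero _ hz))) (hc _ _ _ (ha _ _ _ hL))
  rw [P.PosA_lg v l _ _ hσ hs hz] at h1
  have hN' : (0 : ℝ) < N := by exact_mod_cast hN
  have hτ'' : (0 : ℝ) < τ' := by exact_mod_cast hτ'
  push_cast at h1 ⊢
  rw [le_div_iff₀ (by positivity)]
  have e : (-(C * c : ℝ) - lg v σ - (C * a + lg v z) / τ') * (N * τ') =
      (-(C * c : ℝ) - lg v σ) * (N * τ') - N * (C * a + lg v z) := by
    field_simp
  rw [e]
  linarith

theorem PosA_bdd (l : ℕ) {v : Val K} (hv : Good P.S v) :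
    BddBelow (Set.range fun τ : ℕ => P.Q l (τ + 1) v) := by
  obtain ⟨c, hc⟩ := P.Q_low hv
  exact ⟨c, Set.forall_mem_range.2 fun τ => hc l _ τ.succ_pos⟩

theorem PosA_bddR {v : Val K} (hv : Good P.S v) : BddBelow (Set.range fun l : ℕ => P.R l v) := by
  obtain ⟨c, hc⟩ := P.Q_low hv
  exact ⟨c, Set.forall_mem_range.2 fun l => le_ciInf fun τ => hc l _ τ.succ_pos⟩

theorem tendsto_Q (l : ℕ) {v : Val K} (hv : Good P.S v) :
    Tendsto (fun τ => P.Q l (τ + 1) v) atTop (𝓝 (P.R l v)) := by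
  exact tendsto_atTop_ciInf
    (fun τ τ' h => P.Q_anti l τ.succ_pos (Nat.succ_le_succ h) hv.1) (P.PosA_bdd l hv)

theorem R_le_Q (l : ℕ) {τ : ℕ} (hτ : 0 < τ) {v : Val K} (hv : Good P.S v) :
    P.R l v ≤ P.Q l τ v := by
  obtain ⟨τ, rfl⟩ := Nat.exists_eq_succ_of_ne_zero hτ.ne'
  exact ciInf_le (P.PosA_bdd l hv) τ

/-- Sketch: `a, z` from `pull_iter 1`. For `τ' ≥ τ a`, `s' = pb 1 (N τ') s * z ^ N` has
`s' ^ τ ∈ L (N τ' τ) (N τ')`, so `Q (l + 1) τ' v ≤ Q l τ v - log (v (φ^l z)) / τ'`. -/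
theorem R_succ_le (l : ℕ) {v : Val K} (hv : Good P.S v) : P.R (l + 1) v ≤ P.R l v := by
  obtain ⟨a, z, hz, ha⟩ := P.pull_iter 1
  refine le_ciInf fun τ => ?_
  have hz' : (P.S.φ ^ l) z ≠ 0 := (map_ne_zero _).2 hz
  refine PosA_lim (b := -lg v ((P.S.φ ^ l) z)) (a * (τ + 1)) fun τ' h hτ' => ?_
  rw [neg_div, sub_neg_eq_add, ← le_sub_iff_add_le]
  refine (P.R_le_Q (l + 1) hτ' hv).trans (csSup_le (P.A_nonempty _ _ _) ?_)
  rintro _ ⟨N, s, hN, hs, hL, rfl⟩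
  have h1 := le_csSup (P.A_bdd l τ.succ_pos hv.1) (P.PosA_mem v l τ.succ_pos (Nat.mul_pos hN hτ')
    (mul_ne_zero (P.pb_ne 1 _ hs) (pow_ne_zero N hz)) (ha _ _ _ hL)
    (by rw [mul_assoc]; exact Nat.mul_le_mul_left N h))
  rw [P.pb_mul, ← P.pb_add, map_pow, lg_mul v (P.pb_ne _ _ hs) (pow_ne_zero N hz'), lg_pow] at h1
  have hN' : (0 : ℝ) < N := by exact_mod_cast hN
  have hτ'' : (0 : ℝ) < τ' := by exact_mod_cast hτ'
  rw [le_sub_iff_add_le]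
  refine le_of_eq_of_le ?_ h1
  push_cast
  field_simp

theorem tendsto_R {v : Val K} (hv : Good P.S v) :
    Tendsto (fun l => P.R l v) atTop (𝓝 (P.pp v)) := by
  exact tendsto_atTop_ciInf (antitone_nat_of_succ_le fun l => P.R_succ_le l hv) (P.PosA_bddR hv)

theorem pp_le_Q (l : ℕ) {τ : ℕ} (hτ : 0 < τ) {v : Val K} (hv : Good P.S v) :
    P.pp v ≤ P.Q l τ v := by
  exact (ciInf_le (P.PosA_bddR hv) l).trans (P.R_le_Q l hτ hv)

theorem PosB_lg (l : ℕ) {t : ℕ} (ht : 0 < t) (v : Val K) {s : K} (hs : s ≠ 0) :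
    lg v (P.pb (l + 1) t s) / t =
      lg (v.comap P.S.φ.toRingHom) (P.pb l t s) / t + lg v P.h := by
  have ht' : (t : ℝ) ≠ 0 := Nat.cast_ne_zero.2 ht.ne'
  rw [add_comm l 1, P.pb_add, P.pb_one,
    lg_mul v ((map_ne_zero _).2 (P.pb_ne l t hs)) (pow_ne_zero _ P.hne), lg_pow, lg_comap]
  field_simp

/-- Sketch: `pb (1 + l) t s = φ (pb l t s) * h ^ t`; both inequalities by `csSup_le`, `le_csSup`. -/
theorem Q_succ (l : ℕ) {τ : ℕ} (hτ : 0 < τ) {v : Val K} (hv : Triv v) :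
    P.Q (l + 1) τ v = P.Q l τ (v.comap P.S.φ.toRingHom) + lg v P.h := by
  refine le_antisymm (csSup_le (P.A_nonempty _ _ _) ?_) ?_
  · rintro _ ⟨N, s, hN, hs, hL, rfl⟩
    rw [P.PosB_lg l (Nat.mul_pos hN hτ) v hs]
    exact add_le_add_left (le_csSup (P.A_bdd l hτ (hv.comap _)) ⟨N, s, hN, hs, hL, rfl⟩) _
  · rw [← le_sub_iff_add_le]
    refine csSup_le (P.A_nonempty _ _ _) ?_
    rintro _ ⟨N, s, hN, hs, hL, rfl⟩
    rw [le_sub_iff_add_le, ← P.PosB_lg l (Nat.mul_pos hN hτ) v hs]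
    exact le_csSup (P.A_bdd (l + 1) hτ hv) ⟨N, s, hN, hs, hL, rfl⟩

theorem pp_inv {v : Val K} (hv : Good P.S v) :
    P.pp v = P.pp (v.comap P.S.φ.toRingHom) + lg v P.h := by
  have h1 : ∀ l, P.R (l + 1) v = P.R l (v.comap P.S.φ.toRingHom) + lg v P.h := fun l =>
    tendsto_nhds_unique (P.tendsto_Q (l + 1) hv)
      (((P.tendsto_Q l (Good.comap _ hv)).add_const _).congr fun τ =>
        (P.Q_succ l (Nat.succ_pos τ) hv.1).symm)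
  exact tendsto_nhds_unique ((P.tendsto_R hv).comp (tendsto_add_atTop_nat 1))
    (((P.tendsto_R (Good.comap _ hv)).add_const _).congr fun l => (h1 l).symm)

/-- Sketch: `Q 0 τ w ≤ M w + H w / τ`. -/
theorem pp_le {w : Val K} (hw : w ∈ P.S.W) : P.pp w ≤ P.M w := by
  have h1 : ∀ τ : ℕ, 0 < τ → P.pp w ≤ P.M w + (P.S.H w : ℝ) / τ := by
    intro τ hτ
    refine (P.pp_le_Q 0 hτ (good_of_mem _ hw)).trans (csSup_le (P.A_nonempty _ _ _) ?_)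
    rintro _ ⟨N, s, hN, hs, hL, rfl⟩
    have e : P.pb 0 (N * τ) s = s := by simp [pb, hh]
    have h2 := (lg_le_iff w hs _).2 (hL w hw (P.S.triv hw))
    have hN' : (0 : ℝ) < N := Nat.cast_pos.2 hN
    have hτ' : (0 : ℝ) < τ := Nat.cast_pos.2 hτ
    rw [e, div_le_iff₀ (Nat.cast_pos.2 (Nat.mul_pos hN hτ))]
    refine h2.trans (le_of_eq ?_)
    push_cast
    field_simp
  have h2 : Tendsto (fun τ : ℕ => (P.M w : ℝ) + (P.S.H w : ℝ) / τ) atTop (𝓝 (P.M w + 0)) :=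
    (tendsto_const_div_atTop_nhds_zero_nat _).const_add _
  rw [add_zero] at h2
  exact ge_of_tendsto h2 ((eventually_gt_atTop 0).mono h1)

theorem PosB_pow (l τ : ℕ) {v : Val K} {c : ℝ} {N : ℕ} (j : ℕ)
    (h : ∃ s : K, s ≠ 0 ∧ s ∈ P.L (N * τ) N ∧ (N * τ : ℕ) * c ≤ lg v (P.pb l (N * τ) s)) :
    ∃ s : K, s ≠ 0 ∧ s ∈ P.L (N * j * τ) (N * j) ∧
      (N * j * τ : ℕ) * c ≤ lg v (P.pb l (N * j * τ) s) := by
  obtain ⟨s, h1, h2, h3⟩ := h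
  rw [mul_right_comm N j τ]
  refine ⟨s ^ j, pow_ne_zero _ h1, P.pow_mem_L h2 j, ?_⟩
  rw [P.pb_pow, lg_pow, Nat.cast_mul (N * τ), mul_comm _ (j : ℝ), mul_assoc]
  exact mul_le_mul_of_nonneg_left h3 (Nat.cast_nonneg j)

theorem PosB_common (l τ : ℕ) (Z : Finset (Val K)) (ε : ℝ) (hτ : 0 < τ)
    (hZ : ∀ v ∈ Z, Good P.S v) (hε : 0 < ε) : ∃ N : ℕ, 0 < N ∧ ∀ v ∈ Z, ∃ s : K, s ≠ 0 ∧
      s ∈ P.L (N * τ) N ∧ (N * τ : ℕ) * (P.pp v - ε) ≤ lg v (P.pb l (N * τ) s) := by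
  classical
  induction Z using Finset.induction_on with
  | empty => exact ⟨1, one_pos, by simp⟩
  | insert v Z hv ih =>
    obtain ⟨N, hN, h⟩ := ih fun w hw => hZ w (Finset.mem_insert_of_mem hw)
    have h1 : P.pp v - ε < P.Q l τ v := by
      have := P.pp_le_Q l hτ (hZ v (Finset.mem_insert_self _ _))
      linarith
    obtain ⟨_, ⟨N', s, hN', hs, hL, rfl⟩, h2⟩ := exists_lt_of_lt_csSup (P.A_nonempty l τ v) h1
    rw [lt_div_iff₀ (Nat.cast_pos.2 (Nat.mul_pos hN' hτ)), mul_comm] at h2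
    refine ⟨N * N', Nat.mul_pos hN hN', fun w hw => ?_⟩
    rcases Finset.mem_insert.1 hw with rfl | hw
    · rw [mul_comm N N']
      exact P.PosB_pow l τ N ⟨s, hs, hL, h2.le⟩
    · exact P.PosB_pow l τ N' (h w hw)

/-- Sketch: for `v ∈ Z` take `N v, s v` with value above `Q l τ v - ε` (`exists_lt_of_lt_csSup`),
`N = ∏ N v`, replace `s v` by a power; then avoid the proper subspaces
`{s ∈ L (N τ) N | v (pb l (N τ) s) < v (pb l (N τ) (s v))}` and `⊥`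
(`Submodule.exists_forall_notMem_of_forall_ne_top`, as in `Hyp.exists_pencil`). -/
theorem pp_low (l τ : ℕ) (Z : Finset (Val K)) (ε : ℝ) (hτ : 0 < τ) (hZ : ∀ v ∈ Z, Good P.S v)
    (hε : 0 < ε) : ∃ (N : ℕ) (s : K), 0 < N ∧ s ≠ 0 ∧ s ∈ P.L (N * τ) N ∧
      ∀ v ∈ Z, (N * τ : ℕ) * (P.pp v - ε) ≤ lg v (P.pb l (N * τ) s) := by
  rcases Z.eq_empty_or_nonempty with rfl | ⟨v₀, hv₀⟩
  · obtain ⟨N, s, hN, hs, hL⟩ := P.psef τ
    exact ⟨N, s, hN, hs, hL, by simp⟩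
  obtain ⟨N, hN, h⟩ := P.PosB_common l τ Z ε hτ hZ hε
  choose! s h1 h2 h3 using h
  let f : K →ₗ[ℂ] K := LinearMap.mulRight ℂ (P.hh l ^ (N * τ)) ∘ₗ (P.S.φ ^ l).toLinearMap
  have hf : ∀ r, f r = P.pb l (N * τ) r := fun _ => rfl
  obtain ⟨u, hu⟩ := Submodule.exists_forall_notMem_of_forall_ne_top
    (fun v : Z => (Gam {v.1} fun w => log (w (P.pb l (N * τ) (s w))) - 1).comap
      (f ∘ₗ (P.L (N * τ) N).subtype))
    (by
      intro v h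
      have h4 : v.1 (P.pb l (N * τ) (s v)) ≤ exp (log (v.1 (P.pb l (N * τ) (s v))) - 1) :=
        h.ge (Submodule.mem_top (x := ⟨s v, h2 v v.2⟩)) v rfl (hZ v v.2).1
      rw [← log_le_iff_le_exp ((map_ne_zero _).2 (P.pb_ne _ _ (h1 v v.2)))] at h4
      omega)
  have hu0 : (u : K) ≠ 0 := fun h0 => hu ⟨v₀, hv₀⟩ (by
    rw [Submodule.coe_eq_zero.1 h0]
    exact Submodule.zero_mem _)
  refine ⟨N, u, hN, hu0, u.2, fun v hv => (h3 v hv).trans (not_lt.1 fun h4 => ?_)⟩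
  refine hu ⟨v, hv⟩ fun w e _ => ?_
  obtain rfl : w = v := e
  show w (P.pb l (N * τ) u) ≤ exp (log (w (P.pb l (N * τ) (s w))) - 1)
  rw [← log_le_iff_le_exp ((map_ne_zero _).2 (P.pb_ne _ _ hu0))]
  rw [lg, lg, Int.cast_lt] at h4
  omega

/-- Sketch: `tendsto_R`, `tendsto_Q`, `Filter.eventually_all_finset`. -/
theorem pp_up (Z : Finset (Val K)) (ε : ℝ) (hZ : ∀ v ∈ Z, Good P.S v) (hε : 0 < ε) :
    ∃ l τ₀ : ℕ, ∀ τ : ℕ, τ₀ < τ → ∀ (N : ℕ) (s : K), 0 < N → s ≠ 0 → s ∈ P.L (N * τ) N →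
      ∀ v ∈ Z, lg v (P.pb l (N * τ) s) ≤ (N * τ : ℕ) * (P.pp v + ε) := by
  have h1 : ∀ᶠ l in atTop, ∀ v ∈ Z, P.R l v < P.pp v + ε :=
    (Filter.eventually_all_finset Z).2 fun v hv =>
      (P.tendsto_R (hZ v hv)).eventually_lt_const (by linarith)
  obtain ⟨l, hl⟩ := h1.exists
  have h2 : ∀ᶠ τ in atTop, ∀ v ∈ Z, P.Q l (τ + 1) v < P.pp v + ε :=
    (Filter.eventually_all_finset Z).2 fun v hv =>
      (P.tendsto_Q l (hZ v hv)).eventually_lt_const (hl v hv)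
  obtain ⟨τ₀, h3⟩ := eventually_atTop.1 h2
  refine ⟨l, τ₀, fun τ hτ N s hN hs hL v hv => ?_⟩
  obtain ⟨k, rfl⟩ : ∃ k, τ = k + 1 := ⟨τ - 1, by omega⟩
  have h4 := (le_csSup (P.A_bdd l (Nat.succ_pos k) (hZ v hv).1) ⟨N, s, hN, hs, hL, rfl⟩).trans
    (h3 k (by omega) v hv).le
  rwa [div_le_iff₀ (Nat.cast_pos.2 (Nat.mul_pos hN (Nat.succ_pos k))),
    mul_comm (P.pp v + ε)] at h4

theorem isPos : P.IsPos P.pp :=
  ⟨fun _ => P.pp_le, fun _ => P.pp_inv, P.pp_low, P.pp_up⟩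

end Pool.Agent.Lib.MP_bc213e_ag.Psef.Ps
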